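import Pool.Agent.helper17.Tilt.D0

/-!
The linear algebra facts (generated).
-/

set_option autoImplicit false
set_option linter.unusedVariables false
set_option linter.unusedSimpArgs false
universe u

namespace Pool.Agent.helper17.Tilt


variable {k : Type u} [CommRing k]

theorem fact21 (h2 : (2 : k) = 0) : Fx (mu k) (oA2 k) (oB2 k) (oA1 k) (oB1 k) where
  f0 := by
    intro x y z h h'
    have e0_0 : x 0 0 * 1 + x 0 1 * 0 + x 0 2 * 0 + x 0 3 * 0 = y * 0 := (sapp4 _ 0).symm.trans (congrFun (h 0) 0)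
    have e0_1 : x 0 0 * 0 + x 0 1 * 1 + x 0 2 * 0 + x 0 3 * 0 = y * 0 := (sapp4 _ 1).symm.trans (congrFun (h 0) 1)
    have e0_2 : x 0 0 * 0 + x 0 1 * 0 + x 0 2 * 1 + x 0 3 * 0 = y * 0 := (sapp4 _ 2).symm.trans (congrFun (h 0) 2)
    have e0_3 : x 0 0 * 0 + x 0 1 * 0 + x 0 2 * 0 + x 0 3 * 1 = y * 0 := (sapp4 _ 3).symm.trans (congrFun (h 0) 3)
    have e0_4 : x 0 0 * 0 + x 0 1 * 0 + x 0 2 * 0 + x 0 3 * 0 = y * 1 := (sapp4 _ 4).symm.trans (congrFun (h 0) 4)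
    have e1_0 : x 1 0 * 1 + x 1 1 * 0 + x 1 2 * 0 + x 1 3 * 0 = y * 0 := (sapp4 _ 0).symm.trans (congrFun (h 1) 0)
    have e1_1 : x 1 0 * 0 + x 1 1 * 1 + x 1 2 * 0 + x 1 3 * 0 = y * 0 := (sapp4 _ 1).symm.trans (congrFun (h 1) 1)
    have e1_2 : x 1 0 * 0 + x 1 1 * 0 + x 1 2 * 1 + x 1 3 * 0 = y * 0 := (sapp4 _ 2).symm.trans (congrFun (h 1) 2)
    have e1_3 : x 1 0 * 0 + x 1 1 * 0 + x 1 2 * 0 + x 1 3 * 1 = y * 0 := (sapp4 _ 3).symm.trans (congrFun (h 1) 3)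
    have e1_5 : x 1 0 * 0 + x 1 1 * 0 + x 1 2 * 0 + x 1 3 * 0 = y * 1 := (sapp4 _ 5).symm.trans (congrFun (h 1) 5)
    have g0_0 : y * 1 = z 0 0 * 1 + z 1 0 * 0 := (congrFun (h' 0) 0).trans (sapp2 _ 0)
    have g0_1 : y * 0 = z 0 0 * 0 + z 1 0 * 1 := (congrFun (h' 0) 1).trans (sapp2 _ 1)
    have g0_2 : y * 1 = z 0 0 * 0 + z 1 0 * 0 := (congrFun (h' 0) 2).trans (sapp2 _ 2)
    refine ⟨fun i i' => ?_, ?_, fun j j' => ?_⟩
    · match i, i' with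
      | 0, 0 =>
        show x 0 0 = (0 : k)
        linear_combination e0_0
      | 0, 1 =>
        show x 0 1 = (0 : k)
        linear_combination e0_1
      | 0, 2 =>
        show x 0 2 = (0 : k)
        linear_combination e0_2
      | 0, 3 =>
        show x 0 3 = (0 : k)
        linear_combination e0_3
      | 1, 0 =>
        show x 1 0 = (0 : k)
        linear_combination e1_0
      | 1, 1 =>
        show x 1 1 = (0 : k)
        linear_combination e1_1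
      | 1, 2 =>
        show x 1 2 = (0 : k)
        linear_combination e1_2
      | 1, 3 =>
        show x 1 3 = (0 : k)
        linear_combination e1_3
    · linear_combination e0_4 + (y) * h2
    · match j, j' with
      | 0, 0 =>
        show z 0 0 = (0 : k)
        linear_combination e0_4 + g0_0 + (z 0 0) * h2
      | 1, 0 =>
        show z 1 0 = (0 : k)
        linear_combination g0_1 + (z 1 0) * h2
  f1 := by
    intro α β h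
    have e0_0_0 : α 0 0 * 0 + α 0 2 * 0 + α 0 5 * 1 + α 0 6 * 1 = 0 * β 0 4 + 0 * β 0 1 + 0 * β 0 2 + 0 * β 0 0 := congrFun (h 0 0) 0
    have e0_0_1 : α 0 0 * 0 + α 0 3 * 1 + α 0 3 * 1 + α 0 3 * 0 + α 0 6 * 1 = 0 * β 0 1 + 0 * β 0 0 + 0 * β 0 2 + 0 * β 0 3 + 0 * β 0 0 := congrFun (h 0 0) 1
    have e0_0_2 : α 0 1 * 0 + α 0 2 * 0 + α 0 4 * 0 + α 0 5 * 0 + α 0 6 * 1 + α 0 6 * 0 = 0 * β 0 3 + 0 * β 0 4 + 1 * β 0 3 + 0 * β 0 4 + 0 * β 0 0 + 0 * β 0 1 := congrFun (h 0 0) 2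
    have e0_0_3 : α 0 1 * 1 + α 0 1 * 1 + α 0 4 * 1 + α 0 4 * 0 + α 0 6 * 0 = 0 * β 0 0 + 0 * β 0 2 + 1 * β 0 2 + 1 * β 0 3 + 0 * β 0 1 := congrFun (h 0 0) 3
    have e1_0_0 : α 1 0 * 0 + α 1 2 * 0 + α 1 5 * 1 + α 1 6 * 1 = 0 * β 0 4 + 0 * β 0 1 + 1 * β 0 2 + 0 * β 0 0 := congrFun (h 1 0) 0
    have e1_0_1 : α 1 0 * 0 + α 1 3 * 1 + α 1 3 * 1 + α 1 3 * 0 + α 1 6 * 1 = 0 * β 0 1 + 0 * β 0 0 + 0 * β 0 2 + 0 * β 0 3 + 0 * β 0 0 := congrFun (h 1 0) 1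
    have e1_0_2 : α 1 1 * 0 + α 1 2 * 0 + α 1 4 * 0 + α 1 5 * 0 + α 1 6 * 1 + α 1 6 * 0 = 0 * β 0 3 + 0 * β 0 4 + 0 * β 0 3 + 1 * β 0 4 + 0 * β 0 0 + 0 * β 0 1 := congrFun (h 1 0) 2
    have e1_0_3 : α 1 1 * 1 + α 1 1 * 1 + α 1 4 * 1 + α 1 4 * 0 + α 1 6 * 0 = 0 * β 0 0 + 0 * β 0 2 + 0 * β 0 2 + 0 * β 0 3 + 0 * β 0 1 := congrFun (h 1 0) 3
    refine ⟨![![α 0 0, α 0 1, α 0 2, α 0 3], ![α 1 0, α 1 1, α 1 2, α 1 3]], α 0 4, ![![α 0 4 + β 0 0], ![β 0 1]], fun i => ?_, fun j' => ?_⟩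
    · funext c
      match i, c with
      | 0, 0 =>
        have e : α 0 0 = ((α 0 0) * 1 + (α 0 1) * 0 + (α 0 2) * 0 + (α 0 3) * 0) + (α 0 4) * 0 := by
          linear_combination (0 : k) * h2
        refine gx4 ?_
        exact e
      | 0, 1 =>
        have e : α 0 1 = ((α 0 0) * 0 + (α 0 1) * 1 + (α 0 2) * 0 + (α 0 3) * 0) + (α 0 4) * 0 := by
          linear_combination (0 : k) * h2
        refine gx4 ?_
        exact e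
      | 0, 2 =>
        have e : α 0 2 = ((α 0 0) * 0 + (α 0 1) * 0 + (α 0 2) * 1 + (α 0 3) * 0) + (α 0 4) * 0 := by
          linear_combination (0 : k) * h2
        refine gx4 ?_
        exact e
      | 0, 3 =>
        have e : α 0 3 = ((α 0 0) * 0 + (α 0 1) * 0 + (α 0 2) * 0 + (α 0 3) * 1) + (α 0 4) * 0 := by
          linear_combination (0 : k) * h2
        refine gx4 ?_
        exact e
      | 0, 4 =>
        have e : α 0 4 = ((α 0 0) * 0 + (α 0 1) * 0 + (α 0 2) * 0 + (α 0 3) * 0) + (α 0 4) * 1 := by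
          linear_combination (0 : k) * h2
        refine gx4 ?_
        exact e
      | 0, 5 =>
        have e : α 0 5 = ((α 0 0) * 0 + (α 0 1) * 0 + (α 0 2) * 0 + (α 0 3) * 0) + (α 0 4) * 0 := by
          linear_combination e0_0_0 + e0_0_1 + ((-1)*α 0 6 + (-1)*α 0 3) * h2
        refine gx4 ?_
        exact e
      | 0, 6 =>
        have e : α 0 6 = ((α 0 0) * 0 + (α 0 1) * 0 + (α 0 2) * 0 + (α 0 3) * 0) + (α 0 4) * 0 := by
          linear_combination e0_0_1 + ((-1)*α 0 3) * h2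
        refine gx4 ?_
        exact e
      | 1, 0 =>
        have e : α 1 0 = ((α 1 0) * 1 + (α 1 1) * 0 + (α 1 2) * 0 + (α 1 3) * 0) + (α 0 4) * 0 := by
          linear_combination (0 : k) * h2
        refine gx4 ?_
        exact e
      | 1, 1 =>
        have e : α 1 1 = ((α 1 0) * 0 + (α 1 1) * 1 + (α 1 2) * 0 + (α 1 3) * 0) + (α 0 4) * 0 := by
          linear_combination (0 : k) * h2
        refine gx4 ?_
        exact e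
      | 1, 2 =>
        have e : α 1 2 = ((α 1 0) * 0 + (α 1 1) * 0 + (α 1 2) * 1 + (α 1 3) * 0) + (α 0 4) * 0 := by
          linear_combination (0 : k) * h2
        refine gx4 ?_
        exact e
      | 1, 3 =>
        have e : α 1 3 = ((α 1 0) * 0 + (α 1 1) * 0 + (α 1 2) * 0 + (α 1 3) * 1) + (α 0 4) * 0 := by
          linear_combination (0 : k) * h2
        refine gx4 ?_
        exact e
      | 1, 4 =>
        have e : α 1 4 = ((α 1 0) * 0 + (α 1 1) * 0 + (α 1 2) * 0 + (α 1 3) * 0) + (α 0 4) * 0 := by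
          linear_combination e1_0_3 + ((-1)*α 1 1) * h2
        refine gx4 ?_
        exact e
      | 1, 5 =>
        have e : α 1 5 = ((α 1 0) * 0 + (α 1 1) * 0 + (α 1 2) * 0 + (α 1 3) * 0) + (α 0 4) * 1 := by
          linear_combination e0_0_1 + e0_0_2 + e0_0_3 + e1_0_0 + e1_0_1 + ((-1)*α 0 4 + (-1)*α 0 3 + (-1)*α 0 6 + β 0 3 + (-1)*α 0 1 + β 0 2 + (-1)*α 1 6 + (-1)*α 1 3) * h2
        refine gx4 ?_
        exact e
      | 1, 6 =>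
        have e : α 1 6 = ((α 1 0) * 0 + (α 1 1) * 0 + (α 1 2) * 0 + (α 1 3) * 0) + (α 0 4) * 0 := by
          linear_combination e1_0_1 + ((-1)*α 1 3) * h2
        refine gx4 ?_
        exact e
    · funext c
      match j', c with
      | 0, 0 =>
        have e : β 0 0 = (α 0 4) * 1 + ((α 0 4 + β 0 0) * 1 + (β 0 1) * 0) := by
          linear_combination ((-1)*α 0 4) * h2
        refine gz2 ?_
        exact e
      | 0, 1 =>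
        have e : β 0 1 = (α 0 4) * 0 + ((α 0 4 + β 0 0) * 0 + (β 0 1) * 1) := by
          linear_combination (0 : k) * h2
        refine gz2 ?_
        exact e
      | 0, 2 =>
        have e : β 0 2 = (α 0 4) * 1 + ((α 0 4 + β 0 0) * 0 + (β 0 1) * 0) := by
          linear_combination e0_0_1 + e0_0_2 + e0_0_3 + (β 0 2 + (-1)*α 0 4 + (-1)*α 0 3 + (-1)*α 0 6 + β 0 3 + (-1)*α 0 1) * h2
        refine gz2 ?_
        exact e
      | 0, 3 =>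
        have e : β 0 3 = (α 0 4) * 0 + ((α 0 4 + β 0 0) * 0 + (β 0 1) * 0) := by
          linear_combination e0_0_1 + e0_0_2 + (β 0 3 + (-1)*α 0 3 + (-1)*α 0 6) * h2
        refine gz2 ?_
        exact e
      | 0, 4 =>
        have e : β 0 4 = (α 0 4) * 0 + ((α 0 4 + β 0 0) * 0 + (β 0 1) * 0) := by
          linear_combination e1_0_1 + e1_0_2 + (β 0 4 + (-1)*α 1 3 + (-1)*α 1 6) * h2
        refine gz2 ?_
        exact e
  f2 := by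
    intro ζ
    refine ⟨![![0, 0, 0, 0, ζ 0 0 1 + ζ 0 0 2 + ζ 0 0 3, ζ 0 0 0 + ζ 0 0 1, ζ 0 0 1], ![0, 0, 0, 0, ζ 1 0 3, ζ 1 0 0 + ζ 1 0 1, ζ 1 0 1]], ![![0, 0, 0, ζ 0 0 1 + ζ 0 0 2, ζ 1 0 1 + ζ 1 0 2]], fun i j' => ?_⟩
    funext c
    match i, j', c with
    | 0, 0, 0 =>
      show ζ 0 0 0 = ((0) * 0 + (0) * 0 + (ζ 0 0 0 + ζ 0 0 1) * 1 + (ζ 0 0 1) * 1) + (0 * (ζ 1 0 1 + ζ 1 0 2) + 0 * (0) + 0 * (0) + 0 * (0))
      linear_combination ((-1)*ζ 0 0 1) * h2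
    | 0, 0, 1 =>
      show ζ 0 0 1 = ((0) * 0 + (0) * 1 + (0) * 1 + (0) * 0 + (ζ 0 0 1) * 1) + (0 * (0) + 0 * (0) + 0 * (0) + 0 * (ζ 0 0 1 + ζ 0 0 2) + 0 * (0))
      linear_combination (0 : k) * h2
    | 0, 0, 2 =>
      show ζ 0 0 2 = ((0) * 0 + (0) * 0 + (ζ 0 0 1 + ζ 0 0 2 + ζ 0 0 3) * 0 + (ζ 0 0 0 + ζ 0 0 1) * 0 + (ζ 0 0 1) * 1 + (ζ 0 0 1) * 0) + (0 * (ζ 0 0 1 + ζ 0 0 2) + 0 * (ζ 1 0 1 + ζ 1 0 2) + 1 * (ζ 0 0 1 + ζ 0 0 2) + 0 * (ζ 1 0 1 + ζ 1 0 2) + 0 * (0) + 0 * (0))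
      linear_combination ((-1)*ζ 0 0 1) * h2
    | 0, 0, 3 =>
      show ζ 0 0 3 = ((0) * 1 + (0) * 1 + (ζ 0 0 1 + ζ 0 0 2 + ζ 0 0 3) * 1 + (ζ 0 0 1 + ζ 0 0 2 + ζ 0 0 3) * 0 + (ζ 0 0 1) * 0) + (0 * (0) + 0 * (0) + 1 * (0) + 1 * (ζ 0 0 1 + ζ 0 0 2) + 0 * (0))
      linear_combination ((-1)*ζ 0 0 1 + (-1)*ζ 0 0 2) * h2
    | 1, 0, 0 =>
      show ζ 1 0 0 = ((0) * 0 + (0) * 0 + (ζ 1 0 0 + ζ 1 0 1) * 1 + (ζ 1 0 1) * 1) + (0 * (ζ 1 0 1 + ζ 1 0 2) + 0 * (0) + 1 * (0) + 0 * (0))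
      linear_combination ((-1)*ζ 1 0 1) * h2
    | 1, 0, 1 =>
      show ζ 1 0 1 = ((0) * 0 + (0) * 1 + (0) * 1 + (0) * 0 + (ζ 1 0 1) * 1) + (0 * (0) + 0 * (0) + 0 * (0) + 0 * (ζ 0 0 1 + ζ 0 0 2) + 0 * (0))
      linear_combination (0 : k) * h2
    | 1, 0, 2 =>
      show ζ 1 0 2 = ((0) * 0 + (0) * 0 + (ζ 1 0 3) * 0 + (ζ 1 0 0 + ζ 1 0 1) * 0 + (ζ 1 0 1) * 1 + (ζ 1 0 1) * 0) + (0 * (ζ 0 0 1 + ζ 0 0 2) + 0 * (ζ 1 0 1 + ζ 1 0 2) + 0 * (ζ 0 0 1 + ζ 0 0 2) + 1 * (ζ 1 0 1 + ζ 1 0 2) + 0 * (0) + 0 * (0))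
      linear_combination ((-1)*ζ 1 0 1) * h2
    | 1, 0, 3 =>
      show ζ 1 0 3 = ((0) * 1 + (0) * 1 + (ζ 1 0 3) * 1 + (ζ 1 0 3) * 0 + (ζ 1 0 1) * 0) + (0 * (0) + 0 * (0) + 0 * (0) + 0 * (ζ 0 0 1 + ζ 0 0 2) + 0 * (0))
      linear_combination (0 : k) * h2

end Pool.Agent.helper17.Tilt
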