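import Pool.Agent.helper17.Tilt.D0

/-!
The linear algebra facts (generated).
-/

set_option autoImplicit false
set_option linter.unusedVariables false
set_option linter.unusedSimpArgs false
universe u

namespace Pool.Agent.helper17.Tilt


variable {k : Type u} [CommRing k]

theorem fact43 (h2 : (2 : k) = 0) : Fs (mu k) (oA4 k) (oB4 k) (oA3 k) (oB3 k) (oW k) where
  f0 := by
    intro x y z h h'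
    have e0_1 : x 0 0 * 0 = y * 1 := (sapp1 _ 1).symm.trans (congrFun (h 0) 1)
    have e0_2 : x 0 0 * 0 = y * 1 := (sapp1 _ 2).symm.trans (congrFun (h 0) 2)
    have e0_3 : x 0 0 * 0 = y * 1 := (sapp1 _ 3).symm.trans (congrFun (h 0) 3)
    have e0_5 : x 0 0 * 0 = y * 1 := (sapp1 _ 5).symm.trans (congrFun (h 0) 5)
    have e0_6 : x 0 0 * 1 = y * 1 := (sapp1 _ 6).symm.trans (congrFun (h 0) 6)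
    have g0_0 : y * 0 = z 0 0 * 1 + z 1 0 * 1 + z 2 0 * 0 := (congrFun (h' 0) 0).trans (sapp3 _ 0)
    have g0_1 : y * 0 = z 0 0 * 1 + z 1 0 * 0 + z 2 0 * 0 := (congrFun (h' 0) 1).trans (sapp3 _ 1)
    have g0_2 : y * 1 = z 0 0 * 0 + z 1 0 * 1 + z 2 0 * 0 := (congrFun (h' 0) 2).trans (sapp3 _ 2)
    have g0_3 : y * 0 = z 0 0 * 0 + z 1 0 * 1 + z 2 0 * 0 := (congrFun (h' 0) 3).trans (sapp3 _ 3)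
    have g0_4 : y * 0 = z 0 0 * 0 + z 1 0 * 0 + z 2 0 * 1 := (congrFun (h' 0) 4).trans (sapp3 _ 4)
    have g1_0 : y * 0 = z 0 1 * 1 + z 1 1 * 1 + z 2 1 * 0 := (congrFun (h' 1) 0).trans (sapp3 _ 0)
    have g1_1 : y * 0 = z 0 1 * 1 + z 1 1 * 0 + z 2 1 * 0 := (congrFun (h' 1) 1).trans (sapp3 _ 1)
    have g1_2 : y * 0 = z 0 1 * 0 + z 1 1 * 1 + z 2 1 * 0 := (congrFun (h' 1) 2).trans (sapp3 _ 2)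
    have g1_3 : y * 1 = z 0 1 * 0 + z 1 1 * 1 + z 2 1 * 0 := (congrFun (h' 1) 3).trans (sapp3 _ 3)
    have g1_4 : y * 0 = z 0 1 * 0 + z 1 1 * 0 + z 2 1 * 1 := (congrFun (h' 1) 4).trans (sapp3 _ 4)
    have g2_0 : y * 0 = z 0 2 * 1 + z 1 2 * 1 + z 2 2 * 0 := (congrFun (h' 2) 0).trans (sapp3 _ 0)
    have g2_1 : y * 0 = z 0 2 * 1 + z 1 2 * 0 + z 2 2 * 0 := (congrFun (h' 2) 1).trans (sapp3 _ 1)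
    have g2_2 : y * 0 = z 0 2 * 0 + z 1 2 * 1 + z 2 2 * 0 := (congrFun (h' 2) 2).trans (sapp3 _ 2)
    have g2_3 : y * 0 = z 0 2 * 0 + z 1 2 * 1 + z 2 2 * 0 := (congrFun (h' 2) 3).trans (sapp3 _ 3)
    have g2_4 : y * 1 = z 0 2 * 0 + z 1 2 * 0 + z 2 2 * 1 := (congrFun (h' 2) 4).trans (sapp3 _ 4)
    refine ⟨fun i i' => ?_, ?_, fun j j' => ?_⟩
    · match i, i' with
      | 0, 0 =>
        show x 0 0 = (0 : k)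
        linear_combination e0_1 + e0_6 + (y) * h2
    · linear_combination e0_1 + (y) * h2
    · match j, j' with
      | 0, 0 =>
        show z 0 0 = (0 : k)
        linear_combination g0_1 + (z 0 0) * h2
      | 0, 1 =>
        show z 0 1 = (0 : k)
        linear_combination g1_1 + (z 0 1) * h2
      | 0, 2 =>
        show z 0 2 = (0 : k)
        linear_combination g2_1 + (z 0 2) * h2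
      | 1, 0 =>
        show z 1 0 = (0 : k)
        linear_combination g0_0 + g0_1 + (z 1 0 + z 0 0) * h2
      | 1, 1 =>
        show z 1 1 = (0 : k)
        linear_combination g1_0 + g1_1 + (z 1 1 + z 0 1) * h2
      | 1, 2 =>
        show z 1 2 = (0 : k)
        linear_combination g2_0 + g2_1 + (z 1 2 + z 0 2) * h2
      | 2, 0 =>
        show z 2 0 = (0 : k)
        linear_combination g0_4 + (z 2 0) * h2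
      | 2, 1 =>
        show z 2 1 = (0 : k)
        linear_combination g1_4 + (z 2 1) * h2
      | 2, 2 =>
        show z 2 2 = (0 : k)
        linear_combination e0_1 + g2_4 + (z 2 2) * h2
  f1 := by
    intro α β h
    have e0_0_0 : α 0 0 * 0 + α 0 2 * 0 + α 0 5 * 1 + α 0 6 * 0 = 0 * β 0 4 + 1 * β 0 1 + 1 * β 0 2 + 1 * β 0 0 := congrFun (h 0 0) 0
    have e0_0_1 : α 0 0 * 0 + α 0 3 * 0 + α 0 3 * 1 + α 0 3 * 0 + α 0 6 * 0 = 0 * β 0 1 + 1 * β 0 0 + 1 * β 0 2 + 1 * β 0 3 + 1 * β 0 0 := congrFun (h 0 0) 1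
    have e0_0_2 : α 0 1 * 0 + α 0 2 * 0 + α 0 4 * 0 + α 0 5 * 0 + α 0 6 * 0 + α 0 6 * 0 = 1 * β 0 3 + 1 * β 0 4 + 0 * β 0 3 + 1 * β 0 4 + 1 * β 0 0 + 1 * β 0 1 := congrFun (h 0 0) 2
    have e0_0_3 : α 0 1 * 0 + α 0 1 * 1 + α 0 4 * 1 + α 0 4 * 0 + α 0 6 * 0 = 1 * β 0 0 + 1 * β 0 2 + 0 * β 0 2 + 0 * β 0 3 + 1 * β 0 1 := congrFun (h 0 0) 3
    have e0_1_0 : α 0 0 * 0 + α 0 2 * 0 + α 0 5 * 0 + α 0 6 * 0 = 0 * β 1 4 + 1 * β 1 1 + 1 * β 1 2 + 1 * β 1 0 := congrFun (h 0 1) 0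
    have e0_1_1 : α 0 0 * 0 + α 0 3 * 0 + α 0 3 * 0 + α 0 3 * 1 + α 0 6 * 0 = 0 * β 1 1 + 1 * β 1 0 + 1 * β 1 2 + 1 * β 1 3 + 1 * β 1 0 := congrFun (h 0 1) 1
    have e0_1_2 : α 0 1 * 1 + α 0 2 * 0 + α 0 4 * 1 + α 0 5 * 0 + α 0 6 * 0 + α 0 6 * 0 = 1 * β 1 3 + 1 * β 1 4 + 0 * β 1 3 + 1 * β 1 4 + 1 * β 1 0 + 1 * β 1 1 := congrFun (h 0 1) 2
    have e0_1_3 : α 0 1 * 0 + α 0 1 * 0 + α 0 4 * 0 + α 0 4 * 1 + α 0 6 * 0 = 1 * β 1 0 + 1 * β 1 2 + 0 * β 1 2 + 0 * β 1 3 + 1 * β 1 1 := congrFun (h 0 1) 3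
    have e0_2_0 : α 0 0 * 1 + α 0 2 * 0 + α 0 5 * 0 + α 0 6 * 0 = 0 * β 2 4 + 1 * β 2 1 + 1 * β 2 2 + 1 * β 2 0 := congrFun (h 0 2) 0
    have e0_2_1 : α 0 0 * 0 + α 0 3 * 0 + α 0 3 * 0 + α 0 3 * 0 + α 0 6 * 0 = 0 * β 2 1 + 1 * β 2 0 + 1 * β 2 2 + 1 * β 2 3 + 1 * β 2 0 := congrFun (h 0 2) 1
    have e0_2_2 : α 0 1 * 0 + α 0 2 * 1 + α 0 4 * 0 + α 0 5 * 1 + α 0 6 * 0 + α 0 6 * 0 = 1 * β 2 3 + 1 * β 2 4 + 0 * β 2 3 + 1 * β 2 4 + 1 * β 2 0 + 1 * β 2 1 := congrFun (h 0 2) 2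
    have e0_2_3 : α 0 1 * 0 + α 0 1 * 0 + α 0 4 * 0 + α 0 4 * 0 + α 0 6 * 0 = 1 * β 2 0 + 1 * β 2 2 + 0 * β 2 2 + 0 * β 2 3 + 1 * β 2 1 := congrFun (h 0 2) 3
    refine ⟨![![α 0 1 + α 0 6]], α 0 1, ![![β 0 1, β 1 1, β 2 1], ![β 0 3, β 1 2, β 2 2], ![β 0 4, β 1 4, α 0 1 + β 2 4]], fun i => ?_, fun j' => ?_⟩
    · funext c
      match i, c with
      | 0, 0 =>
        have e : α 0 0 = ((α 0 1 + α 0 6) * 0) + (α 0 1) * 0 := by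
          linear_combination e0_2_0 + e0_2_3 + (β 2 1 + β 2 2 + β 2 0) * h2
        refine gx1 ?_
        exact e
      | 0, 1 =>
        have e : α 0 1 = ((α 0 1 + α 0 6) * 0) + (α 0 1) * 1 := by
          linear_combination (0 : k) * h2
        refine gx1 ?_
        exact e
      | 0, 2 =>
        have e : α 0 2 = ((α 0 1 + α 0 6) * 0) + (α 0 1) * 1 := by
          linear_combination e0_0_0 + e0_0_3 + e0_1_0 + e0_1_3 + e0_2_1 + e0_2_2 + e0_2_3 + ((-1)*α 0 1 + (-1)*α 0 5 + β 0 1 + β 0 2 + β 0 0 + (-1)*α 0 4 + β 1 1 + β 1 2 + β 1 0 + (2)*β 2 0 + β 2 2 + β 2 3 + β 2 4 + β 2 1) * h2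
        refine gx1 ?_
        exact e
      | 0, 3 =>
        have e : α 0 3 = ((α 0 1 + α 0 6) * 0) + (α 0 1) * 1 := by
          linear_combination e0_0_1 + e0_0_2 + e0_0_3 + e0_1_0 + e0_1_3 + ((-1)*α 0 1 + (2)*β 0 0 + β 0 2 + β 0 3 + β 0 4 + β 0 1 + (-1)*α 0 4 + β 1 1 + β 1 2 + β 1 0) * h2
        refine gx1 ?_
        exact e
      | 0, 4 =>
        have e : α 0 4 = ((α 0 1 + α 0 6) * 0) + (α 0 1) * 0 := by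
          linear_combination e0_1_0 + e0_1_3 + (β 1 1 + β 1 2 + β 1 0) * h2
        refine gx1 ?_
        exact e
      | 0, 5 =>
        have e : α 0 5 = ((α 0 1 + α 0 6) * 0) + (α 0 1) * 1 := by
          linear_combination e0_0_0 + e0_0_3 + e0_1_0 + e0_1_3 + ((-1)*α 0 1 + β 0 1 + β 0 2 + β 0 0 + (-1)*α 0 4 + β 1 1 + β 1 2 + β 1 0) * h2
        refine gx1 ?_
        exact e
      | 0, 6 =>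
        have e : α 0 6 = ((α 0 1 + α 0 6) * 1) + (α 0 1) * 1 := by
          linear_combination ((-1)*α 0 1) * h2
        refine gx1 ?_
        exact e
    · funext c
      match j', c with
      | 0, 0 =>
        have e : β 0 0 = (α 0 1) * 0 + ((β 0 1) * 1 + (β 0 3) * 1 + (β 0 4) * 0) := by
          linear_combination e0_0_2 + (β 0 0 + β 0 4) * h2
        refine gz3 ?_
        exact e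
      | 0, 1 =>
        have e : β 0 1 = (α 0 1) * 0 + ((β 0 1) * 1 + (β 0 3) * 0 + (β 0 4) * 0) := by
          linear_combination (0 : k) * h2
        refine gz3 ?_
        exact e
      | 0, 2 =>
        have e : β 0 2 = (α 0 1) * 1 + ((β 0 1) * 0 + (β 0 3) * 1 + (β 0 4) * 0) := by
          linear_combination e0_0_2 + e0_0_3 + e0_1_0 + e0_1_3 + (β 0 2 + (-1)*α 0 1 + β 0 4 + β 0 0 + β 0 1 + (-1)*α 0 4 + β 1 1 + β 1 2 + β 1 0) * h2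
        refine gz3 ?_
        exact e
      | 0, 3 =>
        have e : β 0 3 = (α 0 1) * 0 + ((β 0 1) * 0 + (β 0 3) * 1 + (β 0 4) * 0) := by
          linear_combination (0 : k) * h2
        refine gz3 ?_
        exact e
      | 0, 4 =>
        have e : β 0 4 = (α 0 1) * 0 + ((β 0 1) * 0 + (β 0 3) * 0 + (β 0 4) * 1) := by
          linear_combination (0 : k) * h2
        refine gz3 ?_
        exact e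
      | 1, 0 =>
        have e : β 1 0 = (α 0 1) * 0 + ((β 1 1) * 1 + (β 1 2) * 1 + (β 1 4) * 0) := by
          linear_combination e0_1_0 + (β 1 0) * h2
        refine gz3 ?_
        exact e
      | 1, 1 =>
        have e : β 1 1 = (α 0 1) * 0 + ((β 1 1) * 1 + (β 1 2) * 0 + (β 1 4) * 0) := by
          linear_combination (0 : k) * h2
        refine gz3 ?_
        exact e
      | 1, 2 =>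
        have e : β 1 2 = (α 0 1) * 0 + ((β 1 1) * 0 + (β 1 2) * 1 + (β 1 4) * 0) := by
          linear_combination (0 : k) * h2
        refine gz3 ?_
        exact e
      | 1, 3 =>
        have e : β 1 3 = (α 0 1) * 1 + ((β 1 1) * 0 + (β 1 2) * 1 + (β 1 4) * 0) := by
          linear_combination e0_0_1 + e0_0_2 + e0_0_3 + e0_1_0 + e0_1_1 + e0_1_3 + (β 1 3 + (-1)*α 0 1 + (-1)*α 0 3 + (2)*β 0 0 + β 0 2 + β 0 3 + β 0 4 + β 0 1 + (-1)*α 0 4 + β 1 1 + (2)*β 1 0 + β 1 2) * h2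
        refine gz3 ?_
        exact e
      | 1, 4 =>
        have e : β 1 4 = (α 0 1) * 0 + ((β 1 1) * 0 + (β 1 2) * 0 + (β 1 4) * 1) := by
          linear_combination (0 : k) * h2
        refine gz3 ?_
        exact e
      | 2, 0 =>
        have e : β 2 0 = (α 0 1) * 0 + ((β 2 1) * 1 + (β 2 2) * 1 + (α 0 1 + β 2 4) * 0) := by
          linear_combination e0_2_3 + (β 2 0) * h2
        refine gz3 ?_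
        exact e
      | 2, 1 =>
        have e : β 2 1 = (α 0 1) * 0 + ((β 2 1) * 1 + (β 2 2) * 0 + (α 0 1 + β 2 4) * 0) := by
          linear_combination (0 : k) * h2
        refine gz3 ?_
        exact e
      | 2, 2 =>
        have e : β 2 2 = (α 0 1) * 0 + ((β 2 1) * 0 + (β 2 2) * 1 + (α 0 1 + β 2 4) * 0) := by
          linear_combination (0 : k) * h2
        refine gz3 ?_
        exact e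
      | 2, 3 =>
        have e : β 2 3 = (α 0 1) * 0 + ((β 2 1) * 0 + (β 2 2) * 1 + (α 0 1 + β 2 4) * 0) := by
          linear_combination e0_2_1 + (β 2 3 + β 2 0) * h2
        refine gz3 ?_
        exact e
      | 2, 4 =>
        have e : β 2 4 = (α 0 1) * 1 + ((β 2 1) * 0 + (β 2 2) * 0 + (α 0 1 + β 2 4) * 1) := by
          linear_combination ((-1)*α 0 1) * h2
        refine gz3 ?_
        exact e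
  f2 := by
    intro ζ
    refine ⟨ζ 0 0 1 + ζ 0 0 2 + ζ 0 0 3 + ζ 0 1 0 + ζ 0 1 1 + ζ 0 1 2, ![![ζ 0 2 0 + ζ 0 2 3, ζ 0 1 2 + ζ 0 1 3, ζ 0 0 0 + ζ 0 0 3 + ζ 0 1 0 + ζ 0 1 2 + ζ 0 2 1 + ζ 0 2 2 + ζ 0 2 3, ζ 0 1 1, ζ 0 1 0 + ζ 0 1 3, ζ 0 0 0 + ζ 0 0 3 + ζ 0 1 0 + ζ 0 1 2, 0]], ![![ζ 0 0 2, 0, ζ 0 0 2 + ζ 0 0 3 + ζ 0 1 0 + ζ 0 1 2, 0, 0], ![ζ 0 1 0, 0, 0, 0, 0], ![ζ 0 2 1 + ζ 0 2 3, 0, ζ 0 2 1, 0, 0]], fun i j' => ?_⟩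
    funext c
    match i, j', c with
    | 0, 0, 0 =>
      show ζ 0 0 0 = (ζ 0 0 1 + ζ 0 0 2 + ζ 0 0 3 + ζ 0 1 0 + ζ 0 1 1 + ζ 0 1 2) * 0 + (((ζ 0 2 0 + ζ 0 2 3) * 0 + (ζ 0 0 0 + ζ 0 0 3 + ζ 0 1 0 + ζ 0 1 2 + ζ 0 2 1 + ζ 0 2 2 + ζ 0 2 3) * 0 + (ζ 0 0 0 + ζ 0 0 3 + ζ 0 1 0 + ζ 0 1 2) * 1 + (0) * 0) + (0 * (0) + 1 * (0) + 1 * (ζ 0 0 2 + ζ 0 0 3 + ζ 0 1 0 + ζ 0 1 2) + 1 * (ζ 0 0 2)))
      linear_combination ((-1)*ζ 0 0 3 + (-1)*ζ 0 1 0 + (-1)*ζ 0 1 2 + (-1)*ζ 0 0 2) * h2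
    | 0, 0, 1 =>
      show ζ 0 0 1 = (ζ 0 0 1 + ζ 0 0 2 + ζ 0 0 3 + ζ 0 1 0 + ζ 0 1 1 + ζ 0 1 2) * 1 + (((ζ 0 2 0 + ζ 0 2 3) * 0 + (ζ 0 1 1) * 0 + (ζ 0 1 1) * 1 + (ζ 0 1 1) * 0 + (0) * 0) + (0 * (0) + 1 * (ζ 0 0 2) + 1 * (ζ 0 0 2 + ζ 0 0 3 + ζ 0 1 0 + ζ 0 1 2) + 1 * (0) + 1 * (ζ 0 0 2)))
      linear_combination ((-1)*ζ 0 1 1 + (-2)*ζ 0 0 2 + (-1)*ζ 0 0 3 + (-1)*ζ 0 1 0 + (-1)*ζ 0 1 2) * h2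
    | 0, 0, 2 =>
      show ζ 0 0 2 = (ζ 0 0 1 + ζ 0 0 2 + ζ 0 0 3 + ζ 0 1 0 + ζ 0 1 1 + ζ 0 1 2) * 0 + (((ζ 0 1 2 + ζ 0 1 3) * 0 + (ζ 0 0 0 + ζ 0 0 3 + ζ 0 1 0 + ζ 0 1 2 + ζ 0 2 1 + ζ 0 2 2 + ζ 0 2 3) * 0 + (ζ 0 1 0 + ζ 0 1 3) * 0 + (ζ 0 0 0 + ζ 0 0 3 + ζ 0 1 0 + ζ 0 1 2) * 0 + (0) * 0 + (0) * 0) + (1 * (0) + 1 * (0) + 0 * (0) + 1 * (0) + 1 * (ζ 0 0 2) + 1 * (0)))
      linear_combination (0 : k) * h2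
    | 0, 0, 3 =>
      show ζ 0 0 3 = (ζ 0 0 1 + ζ 0 0 2 + ζ 0 0 3 + ζ 0 1 0 + ζ 0 1 1 + ζ 0 1 2) * 0 + (((ζ 0 1 2 + ζ 0 1 3) * 0 + (ζ 0 1 2 + ζ 0 1 3) * 1 + (ζ 0 1 0 + ζ 0 1 3) * 1 + (ζ 0 1 0 + ζ 0 1 3) * 0 + (0) * 0) + (1 * (ζ 0 0 2) + 1 * (ζ 0 0 2 + ζ 0 0 3 + ζ 0 1 0 + ζ 0 1 2) + 0 * (ζ 0 0 2 + ζ 0 0 3 + ζ 0 1 0 + ζ 0 1 2) + 0 * (0) + 1 * (0)))
      linear_combination ((-1)*ζ 0 1 2 + (-1)*ζ 0 1 3 + (-1)*ζ 0 1 0 + (-1)*ζ 0 0 2) * h2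
    | 0, 1, 0 =>
      show ζ 0 1 0 = (ζ 0 0 1 + ζ 0 0 2 + ζ 0 0 3 + ζ 0 1 0 + ζ 0 1 1 + ζ 0 1 2) * 0 + (((ζ 0 2 0 + ζ 0 2 3) * 0 + (ζ 0 0 0 + ζ 0 0 3 + ζ 0 1 0 + ζ 0 1 2 + ζ 0 2 1 + ζ 0 2 2 + ζ 0 2 3) * 0 + (ζ 0 0 0 + ζ 0 0 3 + ζ 0 1 0 + ζ 0 1 2) * 0 + (0) * 0) + (0 * (0) + 1 * (0) + 1 * (0) + 1 * (ζ 0 1 0)))
      linear_combination (0 : k) * h2
    | 0, 1, 1 =>
      show ζ 0 1 1 = (ζ 0 0 1 + ζ 0 0 2 + ζ 0 0 3 + ζ 0 1 0 + ζ 0 1 1 + ζ 0 1 2) * 0 + (((ζ 0 2 0 + ζ 0 2 3) * 0 + (ζ 0 1 1) * 0 + (ζ 0 1 1) * 0 + (ζ 0 1 1) * 1 + (0) * 0) + (0 * (0) + 1 * (ζ 0 1 0) + 1 * (0) + 1 * (0) + 1 * (ζ 0 1 0)))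
      linear_combination ((-1)*ζ 0 1 0) * h2
    | 0, 1, 2 =>
      show ζ 0 1 2 = (ζ 0 0 1 + ζ 0 0 2 + ζ 0 0 3 + ζ 0 1 0 + ζ 0 1 1 + ζ 0 1 2) * 0 + (((ζ 0 1 2 + ζ 0 1 3) * 1 + (ζ 0 0 0 + ζ 0 0 3 + ζ 0 1 0 + ζ 0 1 2 + ζ 0 2 1 + ζ 0 2 2 + ζ 0 2 3) * 0 + (ζ 0 1 0 + ζ 0 1 3) * 1 + (ζ 0 0 0 + ζ 0 0 3 + ζ 0 1 0 + ζ 0 1 2) * 0 + (0) * 0 + (0) * 0) + (1 * (0) + 1 * (0) + 0 * (0) + 1 * (0) + 1 * (ζ 0 1 0) + 1 * (0)))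
      linear_combination ((-1)*ζ 0 1 3 + (-1)*ζ 0 1 0) * h2
    | 0, 1, 3 =>
      show ζ 0 1 3 = (ζ 0 0 1 + ζ 0 0 2 + ζ 0 0 3 + ζ 0 1 0 + ζ 0 1 1 + ζ 0 1 2) * 0 + (((ζ 0 1 2 + ζ 0 1 3) * 0 + (ζ 0 1 2 + ζ 0 1 3) * 0 + (ζ 0 1 0 + ζ 0 1 3) * 0 + (ζ 0 1 0 + ζ 0 1 3) * 1 + (0) * 0) + (1 * (ζ 0 1 0) + 1 * (0) + 0 * (0) + 0 * (0) + 1 * (0)))
      linear_combination ((-1)*ζ 0 1 0) * h2
    | 0, 2, 0 =>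
      show ζ 0 2 0 = (ζ 0 0 1 + ζ 0 0 2 + ζ 0 0 3 + ζ 0 1 0 + ζ 0 1 1 + ζ 0 1 2) * 0 + (((ζ 0 2 0 + ζ 0 2 3) * 1 + (ζ 0 0 0 + ζ 0 0 3 + ζ 0 1 0 + ζ 0 1 2 + ζ 0 2 1 + ζ 0 2 2 + ζ 0 2 3) * 0 + (ζ 0 0 0 + ζ 0 0 3 + ζ 0 1 0 + ζ 0 1 2) * 0 + (0) * 0) + (0 * (0) + 1 * (0) + 1 * (ζ 0 2 1) + 1 * (ζ 0 2 1 + ζ 0 2 3)))
      linear_combination ((-1)*ζ 0 2 3 + (-1)*ζ 0 2 1) * h2
    | 0, 2, 1 =>
      show ζ 0 2 1 = (ζ 0 0 1 + ζ 0 0 2 + ζ 0 0 3 + ζ 0 1 0 + ζ 0 1 1 + ζ 0 1 2) * 0 + (((ζ 0 2 0 + ζ 0 2 3) * 0 + (ζ 0 1 1) * 0 + (ζ 0 1 1) * 0 + (ζ 0 1 1) * 0 + (0) * 0) + (0 * (0) + 1 * (ζ 0 2 1 + ζ 0 2 3) + 1 * (ζ 0 2 1) + 1 * (0) + 1 * (ζ 0 2 1 + ζ 0 2 3)))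
      linear_combination ((-1)*ζ 0 2 1 + (-1)*ζ 0 2 3) * h2
    | 0, 2, 2 =>
      show ζ 0 2 2 = (ζ 0 0 1 + ζ 0 0 2 + ζ 0 0 3 + ζ 0 1 0 + ζ 0 1 1 + ζ 0 1 2) * 0 + (((ζ 0 1 2 + ζ 0 1 3) * 0 + (ζ 0 0 0 + ζ 0 0 3 + ζ 0 1 0 + ζ 0 1 2 + ζ 0 2 1 + ζ 0 2 2 + ζ 0 2 3) * 1 + (ζ 0 1 0 + ζ 0 1 3) * 0 + (ζ 0 0 0 + ζ 0 0 3 + ζ 0 1 0 + ζ 0 1 2) * 1 + (0) * 0 + (0) * 0) + (1 * (0) + 1 * (0) + 0 * (0) + 1 * (0) + 1 * (ζ 0 2 1 + ζ 0 2 3) + 1 * (0)))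
      linear_combination ((-1)*ζ 0 0 0 + (-1)*ζ 0 0 3 + (-1)*ζ 0 1 0 + (-1)*ζ 0 1 2 + (-1)*ζ 0 2 1 + (-1)*ζ 0 2 3) * h2
    | 0, 2, 3 =>
      show ζ 0 2 3 = (ζ 0 0 1 + ζ 0 0 2 + ζ 0 0 3 + ζ 0 1 0 + ζ 0 1 1 + ζ 0 1 2) * 0 + (((ζ 0 1 2 + ζ 0 1 3) * 0 + (ζ 0 1 2 + ζ 0 1 3) * 0 + (ζ 0 1 0 + ζ 0 1 3) * 0 + (ζ 0 1 0 + ζ 0 1 3) * 0 + (0) * 0) + (1 * (ζ 0 2 1 + ζ 0 2 3) + 1 * (ζ 0 2 1) + 0 * (ζ 0 2 1) + 0 * (0) + 1 * (0)))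
      linear_combination ((-1)*ζ 0 2 1) * h2
  f3 := by
    intro c α β h
    have e0_0_0 : c * 0 = (α 0 0 * 0 + α 0 2 * 0 + α 0 5 * 1 + α 0 6 * 0) + (0 * β 0 4 + 1 * β 0 1 + 1 * β 0 2 + 1 * β 0 0) := congrFun (h 0 0) 0
    have e0_0_1 : c * 1 = (α 0 0 * 0 + α 0 3 * 0 + α 0 3 * 1 + α 0 3 * 0 + α 0 6 * 0) + (0 * β 0 1 + 1 * β 0 0 + 1 * β 0 2 + 1 * β 0 3 + 1 * β 0 0) := congrFun (h 0 0) 1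
    have e0_0_2 : c * 0 = (α 0 1 * 0 + α 0 2 * 0 + α 0 4 * 0 + α 0 5 * 0 + α 0 6 * 0 + α 0 6 * 0) + (1 * β 0 3 + 1 * β 0 4 + 0 * β 0 3 + 1 * β 0 4 + 1 * β 0 0 + 1 * β 0 1) := congrFun (h 0 0) 2
    have e0_0_3 : c * 0 = (α 0 1 * 0 + α 0 1 * 1 + α 0 4 * 1 + α 0 4 * 0 + α 0 6 * 0) + (1 * β 0 0 + 1 * β 0 2 + 0 * β 0 2 + 0 * β 0 3 + 1 * β 0 1) := congrFun (h 0 0) 3
    have e0_1_0 : c * 0 = (α 0 0 * 0 + α 0 2 * 0 + α 0 5 * 0 + α 0 6 * 0) + (0 * β 1 4 + 1 * β 1 1 + 1 * β 1 2 + 1 * β 1 0) := congrFun (h 0 1) 0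
    have e0_1_1 : c * 0 = (α 0 0 * 0 + α 0 3 * 0 + α 0 3 * 0 + α 0 3 * 1 + α 0 6 * 0) + (0 * β 1 1 + 1 * β 1 0 + 1 * β 1 2 + 1 * β 1 3 + 1 * β 1 0) := congrFun (h 0 1) 1
    have e0_1_2 : c * 0 = (α 0 1 * 1 + α 0 2 * 0 + α 0 4 * 1 + α 0 5 * 0 + α 0 6 * 0 + α 0 6 * 0) + (1 * β 1 3 + 1 * β 1 4 + 0 * β 1 3 + 1 * β 1 4 + 1 * β 1 0 + 1 * β 1 1) := congrFun (h 0 1) 2
    have e0_1_3 : c * 0 = (α 0 1 * 0 + α 0 1 * 0 + α 0 4 * 0 + α 0 4 * 1 + α 0 6 * 0) + (1 * β 1 0 + 1 * β 1 2 + 0 * β 1 2 + 0 * β 1 3 + 1 * β 1 1) := congrFun (h 0 1) 3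
    have e0_2_0 : c * 0 = (α 0 0 * 1 + α 0 2 * 0 + α 0 5 * 0 + α 0 6 * 0) + (0 * β 2 4 + 1 * β 2 1 + 1 * β 2 2 + 1 * β 2 0) := congrFun (h 0 2) 0
    have e0_2_1 : c * 0 = (α 0 0 * 0 + α 0 3 * 0 + α 0 3 * 0 + α 0 3 * 0 + α 0 6 * 0) + (0 * β 2 1 + 1 * β 2 0 + 1 * β 2 2 + 1 * β 2 3 + 1 * β 2 0) := congrFun (h 0 2) 1
    have e0_2_2 : c * 0 = (α 0 1 * 0 + α 0 2 * 1 + α 0 4 * 0 + α 0 5 * 1 + α 0 6 * 0 + α 0 6 * 0) + (1 * β 2 3 + 1 * β 2 4 + 0 * β 2 3 + 1 * β 2 4 + 1 * β 2 0 + 1 * β 2 1) := congrFun (h 0 2) 2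
    have e0_2_3 : c * 0 = (α 0 1 * 0 + α 0 1 * 0 + α 0 4 * 0 + α 0 4 * 0 + α 0 6 * 0) + (1 * β 2 0 + 1 * β 2 2 + 0 * β 2 2 + 0 * β 2 3 + 1 * β 2 1) := congrFun (h 0 2) 3
    linear_combination e0_0_1 + e0_0_2 + e0_0_3 + e0_1_0 + e0_1_1 + e0_1_2 + (α 0 3 + (2)*β 0 0 + β 0 2 + β 0 3 + β 0 4 + β 0 1 + α 0 1 + α 0 4 + β 1 1 + β 1 2 + (2)*β 1 0 + β 1 3 + β 1 4) * h2

end Pool.Agent.helper17.Tilt
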