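import Pool.Agent.helper17.Tilt.D11
import Pool.Agent.helper17.Tilt.D22
import Pool.Agent.helper17.Tilt.D33
import Pool.Agent.helper17.Tilt.D21
import Pool.Agent.helper17.Tilt.D31
import Pool.Agent.helper17.Tilt.D32
import Pool.Agent.helper17.Tilt.D41
import Pool.Agent.helper17.Tilt.D42
import Pool.Agent.helper17.Tilt.D43

/-!
The counterexample over the field with two elements.
-/

set_option autoImplicit false
universe u
open CategoryTheory

namespace Pool.Agent.helper17.Tilt

/-- the field with two elements in the universe `u` -/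
abbrev F2 : Type u := ULift.{u} (ZMod 2)

theorem F2_two : (2 : F2.{u}) = 0 := by
  apply ULift.ext
  decide

theorem F2_idem (c : F2.{u}) (_h : c * c = c) : c = 0 ∨ c = 1 := by
  obtain ⟨c⟩ := c
  have : c = 0 ∨ c = 1 := by
    revert c; decide
  rcases this with rfl | rfl
  · left; rfl
  · right; rfl

/-- the algebra of the counterexample -/
abbrev GG : Type u := Gam (Lam (mu F2.{u}))

theorem counterF2 : ¬ (∀ (T : ModuleCat.{u} GG.{u}),
    Module.Finite GG.{u} T →
    (∀ i : ℕ, 1 ≤ i → Subsingleton (CategoryTheory.Abelian.Ext.{u} T T i)) →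
    (∃ n : ℕ, ∀ i : ℕ, n < i → ∀ Y : ModuleCat.{u} GG.{u},
      Subsingleton (CategoryTheory.Abelian.Ext.{u} T Y i)) →
    Nat.card (Quot (fun (N N' : IndSummand GG.{u} T) =>
          Nonempty (N.1 ≃ₗ[GG.{u}] N'.1)))
      = Nat.card (Quot (fun (N N' : IndSummand GG.{u} GG.{u}) =>
          Nonempty (N.1 ≃ₗ[GG.{u}] N'.1))) →
    ∃ (m : ℕ) (X : CategoryTheory.ComposableArrows (ModuleCat.{u} GG.{u}) (m + 4)),
      X.Exact ∧ CategoryTheory.Limits.IsZero (X.obj 0) ∧
      CategoryTheory.Limits.IsZero (X.obj (Fin.last (m + 4))) ∧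
      Nonempty (X.obj 1 ≅ ModuleCat.of GG.{u} GG.{u}) ∧
      ∀ i : Fin (m + 5), 2 ≤ i.val → i.val ≤ m + 3 →
        ∃ (n : ℕ) (f : X.obj i ⟶ ModuleCat.of GG.{u} (Fin n → (T : Type u)))
          (g : ModuleCat.of GG.{u} (Fin n → (T : Type u)) ⟶ X.obj i), f ≫ g = 𝟙 (X.obj i)) :=
  counter.{u} (k := F2.{u}) F2_two.{u} F2_idem.{u} (orth1 F2_two) (orth2 F2_two) (orth3 F2_two) (orth4 F2_two)
    (fact11 F2_two) (fact22 F2_two) (fact33 F2_two) (fact21 F2_two) (fact31 F2_two)
    (fact32 F2_two) (fact41 F2_two) (fact42 F2_two) (fact43 F2_two)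
    (by decide) (by decide) (by decide) (by decide) (by decide) (by decide) (by decide)

end Pool.Agent.helper17.Tilt
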