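import Pool.Agent.helper17.Tilt.Cx

/-!
The abstract form of the counterexample: linear algebra facts imply the failure.
-/

set_option autoImplicit false
universe u v w
open CategoryTheory

namespace Pool.Agent.helper17.Tilt
open Gam

variable {k : Type u} [CommRing k] {X Y Z : Type u} [AddCommGroup X] [Module k X]
  [AddCommGroup Y] [Module k Y] [AddCommGroup Z] [Module k Z]
variable {μ : X →ₗ[k] Y →ₗ[k] Z}

/-- One-dimensional homomorphism space in degree two, spanned by `W`. -/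
structure Fs (μ : X →ₗ[k] Y →ₗ[k] Z) {m l m' l' : ℕ} (A : Fin m → X) (B : Fin l → Y)
    (A' : Fin m' → X) (B' : Fin l' → Y) (W : Fin m → Fin l' → Z) : Prop where
  f0 : ∀ (x : Fin m → Fin m' → k) (y : k) (z : Fin l → Fin l' → k),
    (∀ i, ∑ i', x i i' • A' i' = y • A i) → (∀ j', y • B' j' = ∑ j, z j j' • B j) →
    (∀ i i', x i i' = 0) ∧ y = 0 ∧ (∀ j j', z j j' = 0)
  f1 : ∀ (α : Fin m → X) (β : Fin l' → Y), (∀ i j', μ (α i) (B' j') = μ (A i) (β j')) →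
    ∃ (x : Fin m → Fin m' → k) (y : k) (z : Fin l → Fin l' → k),
      (∀ i, α i = ∑ i', x i i' • A' i' + y • A i) ∧
      (∀ j', β j' = y • B' j' + ∑ j, z j j' • B j)
  f2 : ∀ ζ : Fin m → Fin l' → Z, ∃ (c : k) (α : Fin m → X) (β : Fin l' → Y),
    ∀ i j', ζ i j' = c • W i j' + (μ (α i) (B' j') + μ (A i) (β j'))
  f3 : ∀ (c : k) (α : Fin m → X) (β : Fin l' → Y),
    (∀ i j', c • W i j' = μ (α i) (B' j') + μ (A i) (β j')) → c = 0

section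
variable {m l m' l' q q' : ℕ} {A : Fin m → X} {B : Fin l → Y}
    {A' : Fin m' → X} {B' : Fin l' → Y} {h : ∀ i j, μ (A i) (B j) = 0}
    {h' : ∀ i j, μ (A' i) (B' j) = 0} {W : Fin m → Fin l' → Z}

/-- the matrix of the degree two class -/
def wMat (μ : X →ₗ[k] Y →ₗ[k] Z) {m l m' l' : ℕ} (W : Fin m → Fin l' → Z) :
    Matrix (Fin m ⊕ Unit ⊕ Fin l) (Fin m' ⊕ Unit ⊕ Fin l') (Lam μ) :=
  Matrix.of (kmat μ (0 : Fin m → Fin m' → k) 0 (0 : Fin l → Fin l' → k) 0 0 W)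

theorem wMat_d : (Kx q A B h).toU.D * wMat μ (l := l) (m' := m') W +
    wMat μ (l := l) (m' := m') W * (Kx q' A' B' h').toU.D = 0 := by
  rw [wMat, kmat_D, D_kmat, kmat_add]
  ext g g'
  rcases g with i | i | i <;> rcases g' with j | j | j <;> apply Lam.ext <;>
    simp [kmat, Lam.ix, Lam.iy, Lam.iz]

theorem wMat_map (c : k) : (wMat μ (l := l) (m' := m') W).map
    (fun x => algebraMap k (Lam μ) c * x) =
    Matrix.of (kmat μ (0 : Fin m → Fin m' → k) 0 (0 : Fin l → Fin l' → k) 0 0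
      (fun i j => c • W i j)) := by
  ext g g'
  rw [Matrix.map_apply, wMat, Algebra.algebraMap_eq_smul_one]
  rcases g with i | i | i <;> rcases g' with j | j | j <;> apply Lam.ext <;>
    simp [kmat, Lam.ix, Lam.iy, Lam.iz]

/-- The cone complex. -/
abbrev Vx (A : Fin m → X) (B : Fin l → Y)
    (A' : Fin m' → X) (B' : Fin l' → Y) (h : ∀ i j, μ (A i) (B j) = 0)
    (h' : ∀ i j, μ (A' i) (B' j) = 0) (W : Fin m → Fin l' → Z) : UDat (Lam.e : Fin 3 → Lam μ) :=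
  coneU (Kx 0 A B h).toU (Kx 0 A' B' h').toU (wMat μ W) (kmat_E _ _ _ _ _ _)
    (kmat_E' _ _ _ _ _ _) wMat_d

theorem Fs.acyc (hk2 : (2 : k) = 0) (H : Fs μ A B A' B' W) (HE : Fe μ A' B') :
    Acyc (Vx A B A' B' h h' W) (Kx 0 A' B' h').toU := by
  refine cone_acyc' (Lam.neg_eq hk2) Lam.he (C := Set.range (algebraMap k (Lam μ))) ?_ HE.acycE ?_ ?_
  · rintro _ ⟨c, rfl⟩ x
    exact algebraMap_central c x
  · rintro _ n ⟨c, rfl⟩ h1 h2 h3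
    obtain ⟨x, y, z, α, β, ζ, rfl⟩ := exists_kmat (q := 0) (q' := 0) (h := h) (h' := h') n h1 h2
    rw [wMat_map, kmat_D, D_kmat, kmat_add] at h3
    obtain ⟨-, -, -, -, -, h4⟩ := kmat_inj h3
    have := H.f3 c α β h4
    rw [this]
    simp
  · intro n h1 h2 h3
    obtain ⟨x, y, z, α, β, ζ, rfl⟩ := exists_kmat (q := 0) (q' := 0) (h := h) (h' := h') n h1 h2
    rw [kmat_D, D_kmat] at h3
    obtain ⟨-, -, -, h4, h5, h6⟩ := kmat_inj h3
    obtain ⟨hx, hy, hz⟩ := H.f0 x y z h4 h5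
    obtain ⟨x', y', z', h7, h8⟩ := H.f1 α β h6
    obtain ⟨c, α', β', h9⟩ := H.f2 ζ
    refine ⟨Matrix.of (kmat μ x' y' z' α' β' 0), algebraMap k (Lam μ) c, kmat_E _ _ _ _ _ _,
      kmat_E' _ _ _ _ _ _, ⟨c, rfl⟩, ?_⟩
    rw [wMat_map, kmat_D, D_kmat, kmat_add, kmat_add]
    refine kmat_congr ?_ ?_ ?_ ?_ ?_ ?_
    · simpa using hx
    · simpa using hy
    · simpa using hz
    · simpa using h7
    · simpa using h8
    · intro i j
      rw [h9]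
      simp [add_assoc]

end

/-- The regular module is not acyclic. -/
theorem not_HVz_reg [Nontrivial k] {m l m' l' : ℕ} {A : Fin m → X} {B : Fin l → Y}
    {A' : Fin m' → X} {B' : Fin l' → Y} {h : ∀ i j, μ (A i) (B j) = 0}
    {h' : ∀ i j, μ (A' i) (B' j) = 0} {W : Fin m → Fin l' → Z} (hm : 0 < m) :
    ¬ HVz (Vx A B A' B' h h' W) (Gam (Lam μ)) := by
  intro H
  have hd0 : ∀ g, (Vx A B A' B' h h' W).d g (.inl (.inl ⟨0, hm⟩)) = 0 := by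
    rintro ((i | i | i) | (i | i | i)) <;> rfl
  have hr : ∀ g g', ((Vx A B A' B' h h' W).d g g').r1 = 0 := by
    rintro ((i | i | i) | (i | i | i)) ((j | j | j) | (j | j | j)) <;> first
      | rfl
      | exact zero_mul _
  obtain ⟨n, -, hn⟩ := H (fun g => if g = .inl (.inl ⟨0, hm⟩) then diag (Lam.e 0) * f 6 else 0)
    (by
      intro g
      by_cases hg : g = .inl (.inl ⟨0, hm⟩)
      · subst hg
        simp only [if_true]
        show diag (Lam.e 0) * (diag (Lam.e 0) * f 6) = diag (Lam.e 0) * f 6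
        rw [← mul_assoc, ← map_mul, Lam.he]
      · simp only [if_neg hg, smul_zero])
    (by
      intro g
      rw [del, Finset.sum_eq_zero, add_zero]
      · by_cases hg : g = .inl (.inl ⟨0, hm⟩)
        · rw [if_pos hg]
          show s * (diag (Lam.e 0) * f 6) = 0
          rw [← mul_assoc, s_mul_diag, mul_assoc, s_mul_f, f_gt (by omega), zero_mul, mul_zero]
        · rw [if_neg hg, smul_zero]
      · intro g' _
        by_cases hg : g' = .inl (.inl ⟨0, hm⟩)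
        · subst hg
          rw [hd0, map_zero, zero_smul]
        · rw [if_neg hg, smul_zero])
  have h1 := hn (.inl (.inl ⟨0, hm⟩))
  rw [if_pos rfl, del] at h1
  have ha : ∀ {ι : Type} (s : Finset ι) (F : ι → Gam (Lam μ)), (∑ i ∈ s, F i).a 6 =
      ∑ i ∈ s, (F i).a 6 := fun s F =>
    map_sum (⟨⟨fun x : Gam (Lam μ) => x.a 6, rfl⟩, fun _ _ => rfl⟩ : Gam (Lam μ) →+ Lam μ) F s
  have h2 := congrArg (fun x : Gam (Lam μ) => Lam.r1 (x.a 6)) h1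
  simp only [smul_eq_mul, a_mul, a_add, Pi.add_apply, a_s, Pi.zero_apply, zero_mul, zero_add,
    a_diag, a_f, ha, Lam.r1_sum, Lam.r1_mul] at h2
  have h3 : ∀ x : (Vx A B A' B' h h' W).G,
      ((if 6 ≤ 6 then (Vx A B A' B' h h' W).d (.inl (.inl ⟨0, hm⟩)) x else 0 : Lam μ).r1) *
        ((n x).a 6).r1 = 0 := by
    intro x
    rw [if_pos le_rfl, hr, zero_mul]
  rw [Finset.sum_eq_zero fun x _ => h3 x] at h2
  simp [Lam.e0] at h2

/-- the summands of the presilting module -/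
@[reducible] def UT {m1 l1 m2 l2 m3 l3 : ℕ} (A1 : Fin m1 → X) (B1 : Fin l1 → Y) (A2 : Fin m2 → X)
    (B2 : Fin l2 → Y) (A3 : Fin m3 → X) (B3 : Fin l3 → Y) (h1 : ∀ i j, μ (A1 i) (B1 j) = 0)
    (h2 : ∀ i j, μ (A2 i) (B2 j) = 0) (h3 : ∀ i j, μ (A3 i) (B3 j) = 0) :
    Unit ⊕ Unit ⊕ Unit ⊕ (Fin 6 × Fin 3) → Dat (Lam.e : Fin 3 → Lam μ)
  | .inl _ => Kx 4 A1 B1 h1
  | .inr (.inl _) => Kx 2 A2 B2 h2
  | .inr (.inr (.inl _)) => Kx 0 A3 B3 h3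
  | .inr (.inr (.inr x)) => Dx μ x.1 x.2

/-- supports -/
def sT : Unit ⊕ Unit ⊕ Unit ⊕ (Fin 6 × Fin 3) → Fin 3 → ℕ → Bool
  | .inl _, i, q => (decide (4 = q) && decide (i ≤ 0)) || ((decide (5 = q) && decide (i ≤ 1)) ||
      (decide (6 = q) && decide (i ≤ 2)))
  | .inr (.inl _), i, q => (decide (2 = q) && decide (i ≤ 0)) ||
      ((decide (3 = q) && decide (i ≤ 1)) || (decide (4 = q) && decide (i ≤ 2)))
  | .inr (.inr (.inl _)), i, q => (decide (0 = q) && decide (i ≤ 0)) ||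
      ((decide (1 = q) && decide (i ≤ 1)) || (decide (2 = q) && decide (i ≤ 2)))
  | .inr (.inr (.inr x)), i, q =>
      (decide ((x.1 : ℕ) = q) || decide ((x.1 : ℕ) + 1 = q)) && decide (i ≤ x.2)

set_option synthInstance.maxSize 1000 in
theorem sT_inj : ∀ v w, (∀ (i : Fin 3) (q : Fin 8), sT v i q = sT w i q) → v = w := by
  decide +kernel

section final

variable {m1 l1 m2 l2 m3 l3 m4 l4 : ℕ} {A1 : Fin m1 → X} {B1 : Fin l1 → Y} {A2 : Fin m2 → X}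
    {B2 : Fin l2 → Y} {A3 : Fin m3 → X} {B3 : Fin l3 → Y} {A4 : Fin m4 → X} {B4 : Fin l4 → Y}
    {h1 : ∀ i j, μ (A1 i) (B1 j) = 0} {h2 : ∀ i j, μ (A2 i) (B2 j) = 0}
    {h3 : ∀ i j, μ (A3 i) (B3 j) = 0} {h4 : ∀ i j, μ (A4 i) (B4 j) = 0}
    {W : Fin m4 → Fin l3 → Z}

theorem spt_UT [Nontrivial k] [Nontrivial X] [Nontrivial Y] [Nontrivial Z]
    (hm1 : 0 < m1) (hl1 : 0 < l1) (hm2 : 0 < m2) (hl2 : 0 < l2) (hm3 : 0 < m3) (hl3 : 0 < l3)
    (v : Unit ⊕ Unit ⊕ Unit ⊕ (Fin 6 × Fin 3)) (i : Fin 3) (q : ℕ) :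
    Spt (UT A1 B1 A2 B2 A3 B3 h1 h2 h3 v) i q ↔ sT v i q = true := by
  rcases v with _ | _ | _ | ⟨a, j⟩
  · rw [UT, spt_Kx hm1 hl1]
    simp only [sT, Bool.and_eq_true, Bool.or_eq_true, decide_eq_true_eq]
  · rw [UT, spt_Kx hm2 hl2]
    simp only [sT, Bool.and_eq_true, Bool.or_eq_true, decide_eq_true_eq]
  · rw [UT, spt_Kx hm3 hl3]
    simp only [sT, Bool.and_eq_true, Bool.or_eq_true, decide_eq_true_eq, zero_add]
  · rw [UT, spt_Dx]
    simp only [sT, Bool.and_eq_true, Bool.or_eq_true, decide_eq_true_eq]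
    tauto

theorem UT_pos (v : Unit ⊕ Unit ⊕ Unit ⊕ (Fin 6 × Fin 3))
    (g : (UT A1 B1 A2 B2 A3 B3 h1 h2 h3 v).G) : (UT A1 B1 A2 B2 A3 B3 h1 h2 h3 v).p g ≤ 6 := by
  rcases v with _ | _ | _ | ⟨a, j⟩
  · rcases g with g | g | g
    · show 4 ≤ 6; omega
    · show 5 ≤ 6; omega
    · show 6 ≤ 6; omega
  · rcases g with g | g | g
    · show 2 ≤ 6; omega
    · show 3 ≤ 6; omega
    · show 4 ≤ 6; omega
  · rcases g with g | g | g
    · show 0 ≤ 6; omega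
    · show 1 ≤ 6; omega
    · show 2 ≤ 6; omega
  · rcases g with _ | _
    · show (a : ℕ) ≤ 6; omega
    · show (a : ℕ) + 1 ≤ 6; omega

theorem UT_ext (E1 : Fe μ A1 B1) (E2 : Fe μ A2 B2) (E3 : Fe μ A3 B3)
    (F21 : Fx μ A2 B2 A1 B1) (F31 : Fx μ A3 B3 A1 B1) (F32 : Fx μ A3 B3 A2 B2)
    (v v' : Unit ⊕ Unit ⊕ Unit ⊕ (Fin 6 × Fin 3)) (i : ℕ) :
    ExtM (UT A1 B1 A2 B2 A3 B3 h1 h2 h3 v) (UT A1 B1 A2 B2 A3 B3 h1 h2 h3 v') i := by
  rcases v with _ | _ | _ | ⟨a, j⟩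
  · rcases v' with _ | _ | _ | ⟨a', j'⟩
    · exact ExtM.of_acycE (E1.acycE (h := h1)) i
    · refine ExtM.of_pos ?_
      rintro (g | g | g) (g' | g' | g') <;> simp only [kp] <;> omega
    · refine ExtM.of_pos ?_
      rintro (g | g | g) (g' | g' | g') <;> simp only [kp] <;> omega
    · exact ExtM.of_acyc (Dx_contr _ _).right i
  · rcases v' with _ | _ | _ | ⟨a', j'⟩
    · exact ExtM.of_acyc (F21.acyc (h := h2) (h' := h1)) i
    · exact ExtM.of_acycE (E2.acycE (h := h2)) i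
    · refine ExtM.of_pos ?_
      rintro (g | g | g) (g' | g' | g') <;> simp only [kp] <;> omega
    · exact ExtM.of_acyc (Dx_contr _ _).right i
  · rcases v' with _ | _ | _ | ⟨a', j'⟩
    · exact ExtM.of_acyc (F31.acyc (h := h3) (h' := h1)) i
    · exact ExtM.of_acyc (F32.acyc (h := h3) (h' := h2)) i
    · exact ExtM.of_acycE (E3.acycE (h := h3)) i
    · exact ExtM.of_acyc (Dx_contr _ _).right i
  · exact ExtM.of_acyc (Dx_contr _ _).left i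

theorem UT_acyc (hk2 : (2 : k) = 0) (E3 : Fe μ A3 B3) (F31 : Fx μ A3 B3 A1 B1)
    (F32 : Fx μ A3 B3 A2 B2) (F41 : Fx μ A4 B4 A1 B1) (F42 : Fx μ A4 B4 A2 B2)
    (F43 : Fs μ A4 B4 A3 B3 W) (v : Unit ⊕ Unit ⊕ Unit ⊕ (Fin 6 × Fin 3)) :
    Acyc (Vx A4 B4 A3 B3 h4 h3 W) (UT A1 B1 A2 B2 A3 B3 h1 h2 h3 v).toU := by
  rcases v with _ | _ | _ | ⟨a, j⟩
  · exact cone_acyc (Lam.neg_eq hk2) (F41.acyc (h := h4) (h' := h1)) (F31.acyc (h := h3) (h' := h1))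
  · exact cone_acyc (Lam.neg_eq hk2) (F42.acyc (h := h4) (h' := h2)) (F32.acyc (h := h3) (h' := h2))
  · exact F43.acyc hk2 E3
  · exact (Dx_contr _ _).right

theorem counter [Finite k] [Finite X] [Finite Y] [Finite Z]
    [Nontrivial k] [Nontrivial X] [Nontrivial Y] [Nontrivial Z]
    (hk2 : (2 : k) = 0) (hk : ∀ c : k, c * c = c → c = 0 ∨ c = 1)
    (h1 : ∀ i j, μ (A1 i) (B1 j) = 0) (h2 : ∀ i j, μ (A2 i) (B2 j) = 0)
    (h3 : ∀ i j, μ (A3 i) (B3 j) = 0) (h4 : ∀ i j, μ (A4 i) (B4 j) = 0)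
    (E1 : Fe μ A1 B1) (E2 : Fe μ A2 B2) (E3 : Fe μ A3 B3)
    (F21 : Fx μ A2 B2 A1 B1) (F31 : Fx μ A3 B3 A1 B1) (F32 : Fx μ A3 B3 A2 B2)
    (F41 : Fx μ A4 B4 A1 B1) (F42 : Fx μ A4 B4 A2 B2) (F43 : Fs μ A4 B4 A3 B3 W)
    (hm1 : 0 < m1) (hl1 : 0 < l1) (hm2 : 0 < m2) (hl2 : 0 < l2) (hm3 : 0 < m3) (hl3 : 0 < l3)
    (hm4 : 0 < m4)
    [CategoryTheory.HasExt.{u} (ModuleCat.{u} (Gam (Lam μ)))] :
    ¬ (∀ (T : ModuleCat.{u} (Gam (Lam μ))),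
    Module.Finite (Gam (Lam μ)) T →
    (∀ i : ℕ, 1 ≤ i → Subsingleton (CategoryTheory.Abelian.Ext.{u} T T i)) →
    (∃ n : ℕ, ∀ i : ℕ, n < i → ∀ Y : ModuleCat.{u} (Gam (Lam μ)),
      Subsingleton (CategoryTheory.Abelian.Ext.{u} T Y i)) →
    Nat.card (Quot (fun (N N' : IndSummand (Gam (Lam μ)) T) =>
          Nonempty (N.1 ≃ₗ[(Gam (Lam μ))] N'.1)))
      = Nat.card (Quot (fun (N N' : IndSummand (Gam (Lam μ)) (Gam (Lam μ))) =>
          Nonempty (N.1 ≃ₗ[(Gam (Lam μ))] N'.1))) →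
    ∃ (m : ℕ) (X : CategoryTheory.ComposableArrows (ModuleCat.{u} (Gam (Lam μ))) (m + 4)),
      X.Exact ∧ CategoryTheory.Limits.IsZero (X.obj 0) ∧
      CategoryTheory.Limits.IsZero (X.obj (Fin.last (m + 4))) ∧
      Nonempty (X.obj 1 ≅ ModuleCat.of (Gam (Lam μ)) (Gam (Lam μ))) ∧
      ∀ i : Fin (m + 5), 2 ≤ i.val → i.val ≤ m + 3 →
        ∃ (n : ℕ) (f : X.obj i ⟶ ModuleCat.of (Gam (Lam μ)) (Fin n → (T : Type u)))
          (g : ModuleCat.of (Gam (Lam μ)) (Fin n → (T : Type u)) ⟶ X.obj i), f ≫ g = 𝟙 (X.obj i)) := by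
  intro H
  have hfact : Fact (∀ t, (Lam.e t : Lam μ) * Lam.e t = Lam.e t) := ⟨Lam.he⟩
  have hL := Lam.neg_eq (μ := μ) hk2
  have hfin : Module.Finite (Gam (Lam μ))
      (ModuleCat.of (Gam (Lam μ)) (MU (sig (UT A1 B1 A2 B2 A3 B3 h1 h2 h3)))) := MU.finite_inst
  have hext : ∀ i : ℕ, 1 ≤ i → Subsingleton (CategoryTheory.Abelian.Ext.{u}
      (ModuleCat.of (Gam (Lam μ)) (MU (sig (UT A1 B1 A2 B2 A3 B3 h1 h2 h3))))
      (ModuleCat.of (Gam (Lam μ)) (MU (sig (UT A1 B1 A2 B2 A3 B3 h1 h2 h3)))) i) := by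
    intro i hi
    obtain ⟨j, rfl⟩ : ∃ j, i = j + 1 := ⟨i - 1, by omega⟩
    refine ext_vanish Lam.he hL _ j _ (ExtV.of_ExtM ?_ (fun x => UT_pos x.1 x.2))
    exact ExtM.sig fun v v' => UT_ext E1 E2 E3 F21 F31 F32 v v' j
  have hcard : Nat.card (Quot (fun (N N' : IndSummand (Gam (Lam μ))
      (MU (sig (UT A1 B1 A2 B2 A3 B3 h1 h2 h3)))) => Nonempty (N.1 ≃ₗ[(Gam (Lam μ))] N'.1))) =
      Nat.card (Quot (fun (N N' : IndSummand (Gam (Lam μ)) (Gam (Lam μ))) =>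
          Nonempty (N.1 ≃ₗ[(Gam (Lam μ))] N'.1))) := by
    rw [card_reg hk]
    refine (card_blocks Lam.he (UT A1 B1 A2 B2 A3 B3 h1 h2 h3) UT_pos ?_ ?_ ?_).trans rfl
    · rintro (_ | _ | _ | ⟨a, j⟩)
      · exact ⟨.inl ⟨0, hm1⟩, Lam.e_ne _⟩
      · exact ⟨.inl ⟨0, hm2⟩, Lam.e_ne _⟩
      · exact ⟨.inl ⟨0, hm3⟩, Lam.e_ne _⟩
      · exact ⟨false, Lam.e_ne _⟩
    · rintro (_ | _ | _ | ⟨a, j⟩)
      · exact E1.endI (h := h1) hk
      · exact E2.endI (h := h2) hk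
      · exact E3.endI (h := h3) hk
      · exact Dx_endI hk _ _
    · intro v w h
      apply sT_inj
      intro i q
      have := h i q
      rw [spt_UT hm1 hl1 hm2 hl2 hm3 hl3, spt_UT hm1 hl1 hm2 hl2 hm3 hl3] at this
      exact Bool.eq_iff_iff.2 this
  obtain ⟨m, X', hX, h0, hlast, ⟨iso⟩, hadd⟩ := H
    (ModuleCat.of (Gam (Lam μ)) (MU (sig (UT A1 B1 A2 B2 A3 B3 h1 h2 h3)))) hfin hext
    ⟨6, fun i hi N => ext_gt Lam.he hL N _ i hi⟩ hcard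
  have h5 : HVz (Vx A4 B4 A3 B3 h4 h3 W) (MU (sig (UT A1 B1 A2 B2 A3 B3 h1 h2 h3))) :=
    HVz.of_acyc hL (Acyc.sig (UT_acyc hk2 E3 F31 F32 F41 F42 F43)) (fun x => UT_pos x.1 x.2)
  have h6 := descent hL Lam.he _ _ h5 m X' hX h0 hlast hadd
  refine not_HVz_reg hm4 (h6.retract iso.inv.hom iso.hom.hom fun x => ?_)
  exact congrArg (fun φ => φ.hom x) iso.inv_hom_id

end final

end Pool.Agent.helper17.Tilt
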