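import Mathlib

/-!
Counting isomorphism classes of indecomposable direct summands of a module of finite length that is
written as a direct sum of pairwise non-isomorphic summands whose endomorphisms have only trivial
idempotents (a small piece of the Krull–Schmidt theorem).
-/

set_option autoImplicit false
universe u v

namespace Pool.Agent.helper17.Tilt

section KS

variable {A : Type u} [Ring A] {M : Type v} [AddCommGroup M] [Module A M]

/-- The submodules of the frozen statement: nonzero, complemented, indecomposable. -/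
abbrev IndSummand (A : Type u) [Ring A] (M : Type v) [AddCommGroup M] [Module A M] : Type v :=
  {N : Submodule A M // N ≠ ⊥ ∧ (∃ N' : Submodule A M, IsCompl N N') ∧
        ∀ A' B : Submodule A M, A' ⊔ B = N → A' ⊓ B = ⊥ → A' = ⊥ ∨ B = ⊥}

theorem map_sub_bot (N : Submodule A M) (K : Submodule A N) (h : K.map N.subtype = ⊥) : K = ⊥ := by
  rw [eq_bot_iff]
  intro x hx
  have h1 : (x : M) ∈ K.map N.subtype := ⟨x, hx, rfl⟩
  rw [h] at h1
  simpa using h1

theorem unit_or_nilp (N : Submodule A M) [IsArtinian A N] [IsNoetherian A N]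
    (h : ∀ A' B : Submodule A M, A' ⊔ B = N → A' ⊓ B = ⊥ → A' = ⊥ ∨ B = ⊥)
    (f : Module.End A N) : IsUnit f ∨ IsNilpotent f := by
  obtain ⟨n, hn⟩ := (Filter.eventually_atTop.mp (LinearMap.eventually_isCompl_ker_pow_range_pow f))
  have hc := hn (n+1) (by omega)
  have h1 := h ((LinearMap.ker (f^(n+1))).map N.subtype) ((LinearMap.range (f^(n+1))).map N.subtype)
    (by rw [← Submodule.map_sup, hc.sup_eq_top, Submodule.map_subtype_top])
    (by rw [← Submodule.map_inf _ N.injective_subtype, hc.inf_eq_bot, Submodule.map_bot])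
  rcases h1 with h1 | h1
  · left
    have hk : LinearMap.ker (f^(n+1)) = ⊥ :=
      map_sub_bot N _ h1
    have hr : LinearMap.range (f^(n+1)) = ⊤ := by
      have := hc.sup_eq_top
      rwa [hk, bot_sup_eq] at this
    have hu : IsUnit (f^(n+1)) := by
      rw [Module.End.isUnit_iff]
      exact ⟨LinearMap.ker_eq_bot.1 hk, LinearMap.range_eq_top.1 hr⟩
    exact (isUnit_pow_iff (by omega)).1 hu
  · right
    have hk : LinearMap.range (f^(n+1)) = ⊥ :=
      map_sub_bot N _ h1
    exact ⟨n+1, LinearMap.range_eq_bot.1 hk⟩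

theorem exists_unit_of_sum {E : Type v} [Ring E] [Nontrivial E]
    (h : ∀ f : E, IsUnit f ∨ IsNilpotent f) {ι : Type*} [DecidableEq ι] (s : Finset ι) (g : ι → E)
    (hs : IsUnit (∑ i ∈ s, g i)) : ∃ i ∈ s, IsUnit (g i) := by
  induction s using Finset.induction with
  | empty => simp at hs
  | insert a s ha ih =>
    rw [Finset.sum_insert ha] at hs
    obtain ⟨w, hw⟩ := hs
    rcases h ((↑w⁻¹ : E) * g a) with h1 | h1
    · refine ⟨a, by simp, ?_⟩
      have : g a = (w : E) * ((↑w⁻¹ : E) * g a) := by simp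
      rw [this]
      exact w.isUnit.mul h1
    · have h2 := h1.isUnit_one_sub
      have h3 : (1 : E) - (↑w⁻¹ : E) * g a = (↑w⁻¹ : E) * ∑ i ∈ s, g i := by
        have : (1 : E) = (↑w⁻¹ : E) * (g a + ∑ i ∈ s, g i) := by rw [← hw]; simp
        rw [mul_add] at this
        rw [sub_eq_iff_eq_add, add_comm]; exact this
      rw [h3] at h2
      have h4 : IsUnit (∑ i ∈ s, g i) := by
        have : ∑ i ∈ s, g i = (w : E) * ((↑w⁻¹ : E) * ∑ i ∈ s, g i) := by simp
        rw [this]
        exact w.isUnit.mul h2
      obtain ⟨i, hi, hu⟩ := ih h4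
      exact ⟨i, by simp [hi], hu⟩

variable {ι : Type*} [Fintype ι] [DecidableEq ι]

theorem range_indec (π : Module.End A M) (h_idem : π * π = π)
    (h_end : ∀ f : Module.End A M, (π * f * π) * (π * f * π) = π * f * π →
      π * f * π = 0 ∨ π * f * π = π) (P Q : Submodule A M)
    (hs : P ⊔ Q = LinearMap.range π) (hi : P ⊓ Q = ⊥) : P = ⊥ ∨ Q = ⊥ := by
  have hP : P ≤ LinearMap.range π := hs ▸ le_sup_left
  have hQ : Q ≤ LinearMap.range π := hs ▸ le_sup_right
  have hfix : ∀ x ∈ LinearMap.range π, π x = x := by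
    rintro _ ⟨y, rfl⟩
    have := LinearMap.congr_fun h_idem y
    simpa using this
  have hc : IsCompl P (Q ⊔ LinearMap.ker π) := by
    constructor
    · rw [Submodule.disjoint_def]
      intro x hx hx2
      obtain ⟨q, hq, k, hk, rfl⟩ := Submodule.mem_sup.1 hx2
      have h1 := hfix _ (hP hx)
      have h2 := hfix _ (hQ hq)
      rw [map_add, h2, LinearMap.mem_ker.1 hk, add_zero] at h1
      have hk0 : k = 0 := by
        have := h1
        exact (add_eq_left.1 this.symm)
      subst hk0
      rw [add_zero] at hx ⊢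
      have : q ∈ P ⊓ Q := ⟨hx, hq⟩
      rw [hi] at this
      simpa using this
    · rw [codisjoint_iff, ← sup_assoc, hs, eq_top_iff]
      intro x _
      rw [Submodule.mem_sup]
      refine ⟨π x, ⟨x, rfl⟩, x - π x, ?_, by abel⟩
      rw [LinearMap.mem_ker, map_sub]
      have := hfix (π x) ⟨x, rfl⟩
      rw [this, sub_self]
  let e : Module.End A M := P.subtype ∘ₗ (Submodule.projectionOnto P (Q ⊔ LinearMap.ker π) hc)
  have he1 : ∀ x ∈ P, e x = x := by
    intro x hx
    have h1 := Submodule.projectionOnto_apply_left hc ⟨x, hx⟩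
    exact congrArg Subtype.val h1
  have he2 : ∀ x, e x ∈ P := fun x => (Submodule.projectionOnto P (Q ⊔ LinearMap.ker π) hc x).2
  have he3 : ∀ x ∈ Q ⊔ LinearMap.ker π, e x = 0 := by
    intro x hx
    have h1 := Submodule.projectionOnto_apply_right hc ⟨x, hx⟩
    exact congrArg Subtype.val h1
  have hee : π * e * π = e := by
    ext x
    simp only [Module.End.mul_apply]
    rw [hfix _ (hP (he2 _))]
    have : e (x - π x) = 0 := by
      apply he3
      apply Submodule.mem_sup_right
      rw [LinearMap.mem_ker, map_sub, hfix (π x) ⟨x, rfl⟩, sub_self]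
    rw [map_sub, sub_eq_zero] at this
    exact this.symm
  have hidem : e * e = e := by
    ext x
    simp only [Module.End.mul_apply]
    exact he1 _ (he2 _)
  rcases h_end e (by rw [hee]; exact hidem) with h | h
  · left
    rw [hee] at h
    rw [eq_bot_iff]
    intro x hx
    have := he1 x hx
    rw [h] at this
    simpa using this.symm
  · right
    rw [hee] at h
    rw [eq_bot_iff]
    intro x hx
    have h1 := he3 x (Submodule.mem_sup_left hx)
    have h2 := hfix x (hQ hx)
    rw [h, h2] at h1
    simpa using h1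

theorem card_quot [IsArtinian A M] [IsNoetherian A M] (π : ι → Module.End A M)
    (h_idem : ∀ v, π v * π v = π v) (h_sum : ∑ v, π v = 1) (h_ne : ∀ v, π v ≠ 0)
    (h_end : ∀ v (f : Module.End A M), (π v * f * π v) * (π v * f * π v) = π v * f * π v →
      π v * f * π v = 0 ∨ π v * f * π v = π v)
    (h_iso : ∀ v w, v ≠ w → IsEmpty (LinearMap.range (π v) ≃ₗ[A] LinearMap.range (π w))) :
    Nat.card (Quot (fun (N N' : IndSummand A M) => Nonempty (N.1 ≃ₗ[A] N'.1))) =
      Fintype.card ι := by
  have hfix : ∀ v, ∀ x ∈ LinearMap.range (π v), π v x = x := by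
    rintro v _ ⟨y, rfl⟩
    have := LinearMap.congr_fun (h_idem v) y
    simpa using this
  have hcompl : ∀ v, IsCompl (LinearMap.range (π v)) (LinearMap.ker (π v)) := by
    intro v
    constructor
    · rw [Submodule.disjoint_def]
      intro x hx hx2
      rw [← hfix v x hx]
      exact hx2
    · rw [codisjoint_iff, eq_top_iff]
      intro x _
      rw [Submodule.mem_sup]
      refine ⟨π v x, ⟨x, rfl⟩, x - π v x, ?_, by abel⟩
      rw [LinearMap.mem_ker, map_sub, hfix v (π v x) ⟨x, rfl⟩, sub_self]
  let F0 : ι → IndSummand A M := fun v => ⟨LinearMap.range (π v), by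
      intro h
      exact h_ne v (LinearMap.range_eq_bot.1 h), ⟨_, hcompl v⟩,
      fun P Q hs hi => range_indec (π v) (h_idem v) (h_end v) P Q hs hi⟩
  let R : IndSummand A M → IndSummand A M → Prop := fun N N' => Nonempty (N.1 ≃ₗ[A] N'.1)
  have hR : Equivalence R := ⟨fun N => ⟨LinearEquiv.refl _ _⟩, fun ⟨e⟩ => ⟨e.symm⟩,
    fun ⟨e⟩ ⟨e'⟩ => ⟨e.trans e'⟩⟩
  let F : ι → Quot R := fun v => Quot.mk _ (F0 v)
  have hinj : Function.Injective F := by
    intro v w h
    by_contra hne
    have h1 := Quot.eqvGen_exact h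
    rw [hR.eqvGen_iff] at h1
    obtain ⟨e⟩ := h1
    exact (h_iso v w hne).false e
  have hsurj : Function.Surjective F := by
    intro q
    obtain ⟨N, rfl⟩ := Quot.exists_rep q
    obtain ⟨N, hN0, ⟨N', hNN'⟩, hN⟩ := N
    have hnt : Nontrivial N := (Submodule.nontrivial_iff_ne_bot).2 hN0
    let e0 : M →ₗ[A] N := Submodule.projectionOnto N N' hNN'
    have he0 : ∀ x : N, e0 (x : M) = x := fun x => Submodule.projectionOnto_apply_left hNN' x
    let g : ι → Module.End A N := fun v => e0 ∘ₗ (π v) ∘ₗ N.subtype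
    have hg : ∑ v, g v = 1 := by
      ext x
      have h1 : (∑ v, g v) x = e0 ((∑ v, π v) (x : M)) := by
        simp [g, LinearMap.sum_apply, map_sum]
      rw [h1, h_sum]
      simp [he0]
    have : Nontrivial (Module.End A N) := by
      obtain ⟨x, hx⟩ := exists_ne (0 : N)
      exact ⟨⟨0, 1, fun h => hx (by simpa using (LinearMap.congr_fun h x).symm)⟩⟩
    obtain ⟨v, -, hv⟩ := exists_unit_of_sum (unit_or_nilp N hN) Finset.univ g
      (by rw [hg]; exact isUnit_one)
    refine ⟨v, ?_⟩
    obtain ⟨w, hw⟩ := hv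
    have hw1 : ∀ x, (↑w⁻¹ : Module.End A N) (g v x) = x := by
      intro x
      rw [← hw, ← Module.End.mul_apply]; simp
    have hw2 : ∀ x, g v ((↑w⁻¹ : Module.End A N) x) = x := by
      intro x
      rw [← hw, ← Module.End.mul_apply]; simp
    let f : Module.End A M := N.subtype ∘ₗ (↑w⁻¹ : Module.End A N) ∘ₗ e0
    have hf : ∀ x, (π v * f * π v) x = π v ((↑w⁻¹ : Module.End A N) (e0 (π v x)) : M) := by
      intro x; simp [f]
    have hgv : ∀ x : N, e0 (π v (x : M)) = g v x := fun x => rfl
    have hidem : (π v * f * π v) * (π v * f * π v) = π v * f * π v := by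
      ext x
      rw [Module.End.mul_apply, hf, hf]
      have h1 : π v (π v ((↑w⁻¹ : Module.End A N) (e0 (π v x)) : M)) =
          π v ((↑w⁻¹ : Module.End A N) (e0 (π v x)) : M) := hfix v _ ⟨_, rfl⟩
      rw [h1, hgv, hw2]
    rcases h_end v f hidem with h | h
    · exfalso
      have h2 : ∀ x : N, g v x = 0 := by
        intro x
        have h3 := LinearMap.congr_fun h (x : M)
        rw [hf] at h3
        have h4 := congrArg e0 h3
        rw [hgv, hgv, hw1] at h4
        simpa using h4
      obtain ⟨x, hx⟩ := exists_ne (0 : N)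
      apply hx
      rw [← hw1 x, h2 x, map_zero]
    · apply Quot.sound
      refine ⟨LinearEquiv.symm ?_⟩
      let fwd : N →ₗ[A] LinearMap.range (π v) := (LinearMap.rangeRestrict (π v)) ∘ₗ N.subtype
      let bwd : LinearMap.range (π v) →ₗ[A] N :=
        (↑w⁻¹ : Module.End A N) ∘ₗ e0 ∘ₗ (LinearMap.range (π v)).subtype
      refine LinearEquiv.ofLinearMap fwd bwd ?_ ?_
      · ext y
        obtain ⟨y, z, rfl⟩ := y
        have h3 := LinearMap.congr_fun h z
        rw [hf] at h3
        simpa [fwd, bwd] using h3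
      · ext x
        have := hw1 x
        simp only [fwd, bwd, LinearMap.comp_apply, Submodule.subtype_apply, LinearMap.id_apply]
        rw [← hgv] at this
        exact congrArg Subtype.val this
  have := Nat.card_congr (Equiv.ofBijective F ⟨hinj, hsurj⟩)
  rw [Nat.card_eq_fintype_card] at this
  exact this.symm

end KS

end Pool.Agent.helper17.Tilt
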