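import Pool.Agent.helper17.Tilt.Sig
import Pool.Agent.helper17.Tilt.KS

/-!
Counting the indecomposable summands of a direct sum of complexes.
-/

set_option autoImplicit false
universe u v w
open CategoryTheory

namespace Pool.Agent.helper17.Tilt
open Gam

variable {L : Type u} [Ring L] {e : Fin 3 → L}

variable {ι : Type} [Fintype ι] [DecidableEq ι]

/-- Idempotent endomorphisms are trivial. -/
def EndI (U : Dat e) : Prop :=
  ∀ n : Matrix U.G U.G L, U.toU.E * n = n → n * U.toU.E = n → n * U.toU.D = U.toU.D * n →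
    (∀ g h, n g h ≠ 0 → U.p h = U.p g) → n * n = n → n = 0 ∨ n = U.toU.E

/-- the support -/
def Spt (U : Dat e) (i : Fin 3) (q : ℕ) : Prop :=
  ∃ g, U.p g = q ∧ ∃ x : L, e i * x * e (U.t g) ≠ 0

/-- block projection -/
def blk (U : ι → Dat e) (v : ι) : MU (sig U) →ₗ[Gam L] MU (sig U) where
  toFun x := MU.mk' (fun y => if y.1 = v then x y else 0)
    (fun y => by
      show (if y.1 = v then x y else 0) * e ((sig U).t y) = if y.1 = v then x y else 0
      rw [ite_mul, MU.mul_e, zero_mul])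
    (fun y hy => by
      show (if y.1 = v then x y else 0) = 0
      rw [MU.gt x hy, ite_self])
  map_add' x y := by
    apply MU.ext'
    intro z
    rw [MU.add_apply]
    simp only [MU.mk'_apply, MU.add_apply]
    split_ifs <;> simp
  map_smul' γ x := by
    apply MU.ext'
    intro z
    rw [RingHom.id_apply, MU.smul_apply, MU.mk'_apply, MU.mk'_apply, MU.smul_apply, MU.coe_mk']
    obtain ⟨v', g⟩ := z
    have h1 : MU.dd (sig U) (fun y => if y.1 = v then x y else 0) ⟨v', g⟩ =
        if v' = v then MU.dd (sig U) x.c ⟨v', g⟩ else 0 := by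
      rw [MU.dd, MU.dd]
      have h2 := sum_sigD_right U (fun y => if y.1 = v then x y else 0) v' g
      have h3 := sum_sigD_right U (fun y => x y) v' g
      refine h2.trans ?_
      split_ifs with hv
      · exact h3.symm
      · simp
    rw [h1]
    split_ifs <;> simp

theorem blk_apply (U : ι → Dat e) (v : ι) (x : MU (sig U)) (y : (sig U).G) :
    blk U v x y = if y.1 = v then x y else 0 := rfl

theorem blk_apply_same (U : ι → Dat e) (v : ι) (x : MU (sig U)) (g : (U v).G) :
    blk U v x ⟨v, g⟩ = x ⟨v, g⟩ := by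
  rw [blk_apply, if_pos rfl]

theorem blk_apply_ne (U : ι → Dat e) {v v' : ι} (h : v' ≠ v) (x : MU (sig U)) (g : (U v').G) :
    blk U v x ⟨v', g⟩ = 0 := by
  rw [blk_apply, if_neg h]

theorem blk_idem (U : ι → Dat e) (v : ι) : blk U v * blk U v = blk U v := by
  ext x
  apply MU.ext'
  intro y
  rw [Module.End.mul_apply, blk_apply, blk_apply]
  split_ifs <;> rfl

theorem blk_sum (U : ι → Dat e) : ∑ v, blk U v = 1 := by
  ext x
  rw [LinearMap.sum_apply, Module.End.one_apply]
  apply MU.ext'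
  intro y
  rw [MU.sum_apply]
  simp [blk_apply]

variable (he : ∀ t, e t * e t = e t)

include he in
theorem blk_ne (U : ι → Dat e) (hp : ∀ v g, (U v).p g ≤ 6) (v : ι) (g : (U v).G)
    (hg : e ((U v).t g) ≠ 0) : blk U v ≠ 0 := by
  intro h
  have h1 : blk U v (MU.gen he ⟨v, g⟩) ⟨v, g⟩ = 0 := by rw [h]; rfl
  rw [blk_apply_same, MU.gen_apply, if_pos ⟨rfl, hp v g⟩] at h1
  exact hg h1

include he in
theorem blk_end (U : ι → Dat e) (hp : ∀ v g, (U v).p g ≤ 6) (v : ι) (hend : EndI (U v))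
    (φ : Module.End (Gam L) (MU (sig U))) (h1 : blk U v * φ = φ) (h2 : φ * blk U v = φ)
    (h3 : φ * φ = φ) : φ = 0 ∨ φ = blk U v := by
  set n : Matrix (U v).G (U v).G L := Matrix.of fun g g' => φ (MU.gen he ⟨v, g⟩) ⟨v, g'⟩ with hn
  have hn1 : ∀ g g', n g g' = φ (MU.gen he ⟨v, g⟩) ⟨v, g'⟩ := fun g g' => rfl
  have hφ : ∀ (v' : ι) (g : (U v').G), v' ≠ v → φ (MU.gen he ⟨v', g⟩) = 0 := by
    intro v' g hne
    rw [← h2, Module.End.mul_apply]
    have : blk U v (MU.gen he ⟨v', g⟩) = 0 := by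
      apply MU.ext'
      rintro ⟨v'', g'⟩
      by_cases h : v'' = v
      · subst h
        rw [blk_apply_same, MU.gen_apply, if_neg]
        · rfl
        · rintro ⟨h, -⟩
          exact hne (congrArg Sigma.fst h).symm
      · rw [blk_apply_ne U h]
        rfl
    rw [this, map_zero]
  have hval : ∀ x, ∀ g', φ x ⟨v, g'⟩ = ∑ g, x ⟨v, g⟩ * n g g' := by
    intro x g'
    rw [MU.map_eq_sum he, MU.sum_apply, Fintype.sum_sigma, Finset.sum_eq_single v]
    · refine Finset.sum_congr rfl fun g _ => ?_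
      rw [MU.diag_smul]
      rfl
    · intro v' _ hne
      refine Finset.sum_eq_zero fun g _ => ?_
      rw [hφ v' g hne, smul_zero]
      rfl
    · simp
  have hval' : ∀ x, ∀ (v' : ι) (g' : (U v').G), v' ≠ v → φ x ⟨v', g'⟩ = 0 := by
    intro x v' g' hne
    rw [← h1, Module.End.mul_apply, blk_apply_ne U hne]
  have hE1 : ∀ g g', e ((U v).t g) * n g g' = n g g' := fun g g' => by
    rw [hn1, ← MU.diag_smul, ← map_smul, MU.diag_e_gen (U := sig U) he ⟨v, g⟩]
  have hE2 : ∀ g g', n g g' * e ((U v).t g') = n g g' := fun g g' => by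
    rw [hn1]
    exact MU.mul_e (U := sig U) _ ⟨v, g'⟩
  rcases hend n (by
    ext g g'
    rw [UDat.E, Matrix.diagonal_mul]
    exact hE1 g g') (by
    ext g g'
    rw [UDat.E, Matrix.mul_diagonal]
    exact hE2 g g') (by
    ext g g'
    have h4 := MU.s_gen (U := sig U) he ⟨v, g⟩
    have h5 := congrArg (fun x => φ x ⟨v, g'⟩) h4
    simp only [map_smul, map_sum, MU.sum_apply, MU.diag_smul] at h5
    rw [MU.s_smul (U := sig U) _ ⟨v, g'⟩ (hp v g'), MU.dd] at h5
    have h6 := sum_sigD_right U (fun x => φ (MU.gen he ⟨v, g⟩) x) v g'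
    have h7 := sum_sigD_left U (fun x => φ (MU.gen he x) ⟨v, g'⟩) v g
    rw [h6, h7] at h5
    exact h5) (by
    intro g g' hne
    by_contra hc
    apply hne
    have h4 := MU.f_gen (U := sig U) he ⟨v, g⟩
    rw [hn1, ← h4, map_smul, MU.f_smul, if_neg hc]) (by
    ext g g'
    have h5 : φ (φ (MU.gen he ⟨v, g⟩)) ⟨v, g'⟩ = φ (MU.gen he ⟨v, g⟩) ⟨v, g'⟩ := by
      rw [← Module.End.mul_apply, h3]
    rw [hval] at h5
    exact h5) with h | h
  · left
    ext x
    apply MU.ext'
    rintro ⟨v', g'⟩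
    by_cases hv : v' = v
    · subst hv
      rw [hval, h]
      simp
    · rw [hval' x v' g' hv]
      rfl
  · right
    ext x
    apply MU.ext'
    rintro ⟨v', g'⟩
    by_cases hv : v' = v
    · subst hv
      rw [hval, h, blk_apply_same]
      rw [Finset.sum_eq_single g']
      · rw [UDat.E, Matrix.diagonal_apply_eq]
        exact MU.mul_e (U := sig U) x ⟨v', g'⟩
      · intro g _ hne
        rw [UDat.E, Matrix.diagonal_apply_ne _ hne, mul_zero]
      · simp
    · rw [hval' x v' g' hv, blk_apply_ne U hv]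

include he in
theorem spt_iff (U : ι → Dat e) (hp : ∀ v g, (U v).p g ≤ 6) (v : ι) (i : Fin 3) (q : ℕ) :
    Spt (U v) i q ↔ ∃ m : LinearMap.range (blk U v), (diag (e i) * f q : Gam L) • m ≠ 0 := by
  constructor
  · rintro ⟨g, hg, x, hx⟩
    refine ⟨⟨blk U v (diag x • MU.gen (U := sig U) he ⟨v, g⟩), _, rfl⟩, fun h => hx ?_⟩
    have h1 := congrArg (fun m : LinearMap.range (blk U v) => MU.c (U := sig U) m ⟨v, g⟩) h
    simp only [Submodule.coe_smul, Submodule.coe_zero, MU.zero_apply] at h1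
    rw [mul_smul, MU.diag_smul, MU.f_smul, if_pos hg, blk_apply_same, MU.diag_smul, MU.gen_apply,
      if_pos ⟨rfl, hp v g⟩, ← mul_assoc] at h1
    exact h1
  · rintro ⟨⟨m, m', rfl⟩, hm⟩
    by_contra hc
    apply hm
    apply Subtype.ext
    simp only [Submodule.coe_smul, Submodule.coe_zero]
    apply MU.ext'
    rintro ⟨v', g⟩
    rw [mul_smul, MU.diag_smul, MU.f_smul]
    split_ifs with hg
    · by_cases hv : v' = v
      · subst hv
        rw [blk_apply_same]
        have h1 : m' ⟨v', g⟩ = m' ⟨v', g⟩ * e ((U v').t g) :=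
          (MU.mul_e (U := sig U) m' ⟨v', g⟩).symm
        by_contra h2
        apply hc
        refine ⟨g, hg, m' ⟨v', g⟩, ?_⟩
        rw [mul_assoc, ← h1]
        exact h2
      · rw [blk_apply_ne U hv, mul_zero]
        rfl
    · rw [mul_zero]
      rfl

include he in
theorem card_blocks (U : ι → Dat e) (hp : ∀ v g, (U v).p g ≤ 6)
    (hne : ∀ v, ∃ g, e ((U v).t g) ≠ 0) (hend : ∀ v, EndI (U v))
    (hsep : ∀ v w, (∀ i q, Spt (U v) i q ↔ Spt (U w) i q) → v = w)
    [IsArtinian (Gam L) (MU (sig U))] [IsNoetherian (Gam L) (MU (sig U))] :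
    Nat.card (Quot (fun (N N' : IndSummand (Gam L) (MU (sig U))) =>
      Nonempty (N.1 ≃ₗ[Gam L] N'.1))) = Fintype.card ι := by
  refine card_quot (blk U) (blk_idem U) (blk_sum U) ?_ ?_ ?_
  · intro v
    obtain ⟨g, hg⟩ := hne v
    exact blk_ne he U hp v g hg
  · intro v f hf
    refine blk_end he U hp v (hend v) _ ?_ ?_ hf
    · rw [← mul_assoc, ← mul_assoc, blk_idem]
    · rw [mul_assoc, blk_idem]
  · intro v w hvw
    refine ⟨fun φ => hvw (hsep v w fun i q => ?_)⟩
    rw [spt_iff he U hp, spt_iff he U hp]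
    constructor
    · rintro ⟨m, hm⟩
      refine ⟨φ m, fun h => hm ?_⟩
      rw [← map_smul] at h
      exact φ.map_eq_zero_iff.1 h
    · rintro ⟨m, hm⟩
      refine ⟨φ.symm m, fun h => hm ?_⟩
      rw [← map_smul] at h
      exact φ.symm.map_eq_zero_iff.1 h

end Pool.Agent.helper17.Tilt
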