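import Pool.Agent.helper17.Tilt.Kx

/-!
Contractible complexes, the regular module, and the cone.
-/

set_option autoImplicit false
universe u v w
open CategoryTheory

namespace Pool.Agent.helper17.Tilt
open Gam

section transport

variable {A : Type u} [Ring A] {M : Type v} [AddCommGroup M] [Module A M]
  {M' : Type w} [AddCommGroup M'] [Module A M']

theorem indP_of_iso {P Q : Type*} [Lattice P] [BoundedOrder P] [Lattice Q] [BoundedOrder Q]
    (o : P ≃o Q) (N : P) (h : N ≠ ⊥ ∧ (∃ N' : P, IsCompl N N') ∧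
        ∀ A' B : P, A' ⊔ B = N → A' ⊓ B = ⊥ → A' = ⊥ ∨ B = ⊥) :
    o N ≠ ⊥ ∧ (∃ N' : Q, IsCompl (o N) N') ∧
        ∀ A' B : Q, A' ⊔ B = o N → A' ⊓ B = ⊥ → A' = ⊥ ∨ B = ⊥ := by
  obtain ⟨h1, ⟨N', h2⟩, h3⟩ := h
  refine ⟨fun h => h1 ?_, ⟨o N', ?_⟩, fun A' B hA hB => ?_⟩
  · rw [← map_bot o] at h
    exact o.injective h
  · exact (OrderIso.isCompl_iff o).1 h2
  · have h4 := h3 (o.symm A') (o.symm B) (by rw [← map_sup, hA, o.symm_apply_apply])
      (by rw [← map_inf, hB, map_bot])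
    rcases h4 with h4 | h4
    · left
      rw [← o.apply_symm_apply A', h4, map_bot]
    · right
      rw [← o.apply_symm_apply B, h4, map_bot]

/-- transport of indecomposable summands -/
def indEquiv (φ : M ≃ₗ[A] M') : IndSummand A M ≃ IndSummand A M' where
  toFun N := ⟨Submodule.orderIsoMapComap φ N.1, indP_of_iso _ _ N.2⟩
  invFun N := ⟨(Submodule.orderIsoMapComap φ).symm N.1, indP_of_iso _ _ N.2⟩
  left_inv N := by
    apply Subtype.ext
    exact (Submodule.orderIsoMapComap φ).symm_apply_apply _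
  right_inv N := by
    apply Subtype.ext
    exact (Submodule.orderIsoMapComap φ).apply_symm_apply _

theorem card_congr (φ : M ≃ₗ[A] M') :
    Nat.card (Quot (fun (N N' : IndSummand A M) => Nonempty (N.1 ≃ₗ[A] N'.1))) =
      Nat.card (Quot (fun (N N' : IndSummand A M') => Nonempty (N.1 ≃ₗ[A] N'.1))) := by
  refine Nat.card_congr (Quot.congr (indEquiv φ) ?_)
  intro N N'
  have e1 : N.1 ≃ₗ[A] (indEquiv φ N).1 := φ.submoduleMap N.1
  have e2 : N'.1 ≃ₗ[A] (indEquiv φ N').1 := φ.submoduleMap N'.1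
  constructor
  · rintro ⟨f⟩
    exact ⟨(e1.symm.trans f).trans e2⟩
  · rintro ⟨f⟩
    exact ⟨(e1.trans f).trans e2.symm⟩

end transport

variable {k : Type u} [CommRing k] {X Y Z : Type u} [AddCommGroup X] [Module k X]
  [AddCommGroup Y] [Module k Y] [AddCommGroup Z] [Module k Z]
variable {μ : X →ₗ[k] Y →ₗ[k] Z}

/-- contractible complex -/
abbrev Dx (μ : X →ₗ[k] Y →ₗ[k] Z) (i : ℕ) (j : Fin 3) : Dat (Lam.e : Fin 3 → Lam μ) where
  G := Bool
  t := fun _ => j
  p := fun b => bif b then i + 1 else i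
  d := fun a b => bif (!a && b) then Lam.e j else 0
  d_left := by
    rintro (_ | _) (_ | _) <;> simp [Lam.he]
  d_right := by
    rintro (_ | _) (_ | _) <;> simp [Lam.he]
  d_pos := by
    rintro (_ | _) (_ | _) <;> simp
  d_sq := by
    rintro (_ | _) (_ | _) <;> simp

/-- one-term complex -/
abbrev Ex (μ : X →ₗ[k] Y →ₗ[k] Z) (i : ℕ) (j : Fin 3) : Dat (Lam.e : Fin 3 → Lam μ) where
  G := Unit
  t := fun _ => j
  p := fun _ => i
  d := fun _ _ => 0
  d_left := by simp
  d_right := by simp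
  d_pos := by simp
  d_sq := by simp

theorem Dx_contr (i : ℕ) (j : Fin 3) : Contr (Dx μ i j).toU := by
  refine ⟨Matrix.of fun a b => bif (a && !b) then Lam.e j else 0, ?_, ?_, ?_⟩
  · ext a b
    rw [UDat.E, Matrix.diagonal_mul]
    rcases a with _ | _ <;> rcases b with _ | _ <;> simp [Lam.he]
  · ext a b
    rw [UDat.E, Matrix.mul_diagonal]
    rcases a with _ | _ <;> rcases b with _ | _ <;> simp [Lam.he]
  · ext a b
    rw [Matrix.add_apply, Matrix.mul_apply, Matrix.mul_apply, Fintype.sum_bool, Fintype.sum_bool]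
    rcases a with _ | _ <;> rcases b with _ | _ <;> simp [Lam.he, UDat.D, UDat.E]

theorem idem_e (hk : ∀ c : k, c * c = c → c = 0 ∨ c = 1) (j : Fin 3) (a : Lam μ)
    (h1 : Lam.e j * a = a) (h2 : a * Lam.e j = a) (h3 : a * a = a) : a = 0 ∨ a = Lam.e j := by
  fin_cases j
  · have h4 := congrArg Lam.r1 h3
    have h5 : a = Lam.mk a.r1 0 0 0 0 0 := by
      conv_lhs => rw [← h2, ← h1]
      apply Lam.ext <;> simp [Lam.e0]
    rcases hk a.r1 h4 with h6 | h6
    · left; rw [h5, h6]; rfl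
    · right; rw [h5, h6]; rfl
  · have h4 := congrArg Lam.r2 h3
    have h5 : a = Lam.mk 0 a.r2 0 0 0 0 := by
      conv_lhs => rw [← h2, ← h1]
      apply Lam.ext <;> simp [Lam.e1]
    rcases hk a.r2 h4 with h6 | h6
    · left; rw [h5, h6]; rfl
    · right; rw [h5, h6]; rfl
  · have h4 := congrArg Lam.r3 h3
    have h5 : a = Lam.mk 0 0 a.r3 0 0 0 := by
      conv_lhs => rw [← h2, ← h1]
      apply Lam.ext <;> simp [Lam.e2]
    rcases hk a.r3 h4 with h6 | h6
    · left; rw [h5, h6]; rfl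
    · right; rw [h5, h6]; rfl

theorem Dx_endI (hk : ∀ c : k, c * c = c → c = 0 ∨ c = 1) (i : ℕ) (j : Fin 3) :
    EndI (Dx μ i j) := by
  intro n h1 h2 h3 h4 h5
  have h1' : ∀ g g', Lam.e j * n g g' = n g g' := fun g g' => by
    have := congrFun (congrFun h1 g) g'
    rwa [UDat.E, Matrix.diagonal_mul] at this
  have h2' : ∀ g g', n g g' * Lam.e j = n g g' := fun g g' => by
    have := congrFun (congrFun h2 g) g'
    rwa [UDat.E, Matrix.mul_diagonal] at this
  have hft : n false true = 0 := by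
    by_contra hc
    have := h4 _ _ hc
    simp at this
  have htf : n true false = 0 := by
    by_contra hc
    have := h4 _ _ hc
    simp at this
  have heq : n false false = n true true := by
    have := congrFun (congrFun h3 false) true
    rw [Matrix.mul_apply, Matrix.mul_apply, Fintype.sum_bool, Fintype.sum_bool] at this
    simpa [UDat.D, h1', h2'] using this
  have hid : n true true * n true true = n true true := by
    have := congrFun (congrFun h5 true) true
    rw [Matrix.mul_apply, Fintype.sum_bool] at this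
    simpa [htf] using this
  rcases idem_e hk j _ (h1' true true) (h2' true true) hid with h | h
  · left
    ext a b
    rcases a with _ | _ <;> rcases b with _ | _ <;> simp [hft, htf, heq, h]
  · right
    ext a b
    rcases a with _ | _ <;> rcases b with _ | _ <;> simp [hft, htf, heq, h, UDat.E]

theorem Ex_endI (hk : ∀ c : k, c * c = c → c = 0 ∨ c = 1) (i : ℕ) (j : Fin 3) :
    EndI (Ex μ i j) := by
  intro n h1 h2 h3 h4 h5
  have h1' : ∀ g g', Lam.e j * n g g' = n g g' := fun g g' => by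
    have := congrFun (congrFun h1 g) g'
    rwa [UDat.E, Matrix.diagonal_mul] at this
  have h2' : ∀ g g', n g g' * Lam.e j = n g g' := fun g g' => by
    have := congrFun (congrFun h2 g) g'
    rwa [UDat.E, Matrix.mul_diagonal] at this
  have hid : n () () * n () () = n () () := by
    have := congrFun (congrFun h5 ()) ()
    rw [Matrix.mul_apply] at this
    simpa using this
  rcases idem_e hk j _ (h1' () ()) (h2' () ()) hid with h | h
  · left
    ext a b
    exact h
  · right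
    ext a b
    rw [UDat.E, Matrix.diagonal_apply_eq]
    exact h

theorem ne_iff [Nontrivial k] [Nontrivial X] [Nontrivial Y] [Nontrivial Z] (i j : Fin 3) :
    (∃ x : Lam μ, Lam.e i * x * Lam.e j ≠ 0) ↔ i ≤ j := by
  obtain ⟨tx, hx⟩ := exists_ne (0 : X)
  obtain ⟨ty, hy⟩ := exists_ne (0 : Y)
  obtain ⟨tz, hz⟩ := exists_ne (0 : Z)
  constructor
  · rintro ⟨x, hx⟩
    by_contra hc
    apply hx
    fin_cases i <;> fin_cases j <;> first
      | (exfalso; revert hc; decide)
      | (apply Lam.ext <;> simp [Lam.e0, Lam.e1, Lam.e2])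
  · intro h
    fin_cases i <;> fin_cases j
    · refine ⟨Lam.e 0, fun h => ?_⟩
      have := congrArg Lam.r1 h
      simp [Lam.e0] at this
    · refine ⟨Lam.ix tx, fun h => hx ?_⟩
      have := congrArg Lam.x h
      simpa [Lam.e0, Lam.e1, Lam.ix] using this
    · refine ⟨Lam.iz tz, fun h => hz ?_⟩
      have := congrArg Lam.z h
      simpa [Lam.e0, Lam.e2, Lam.iz] using this
    · exact absurd h (by decide)
    · refine ⟨Lam.e 1, fun h => ?_⟩
      have := congrArg Lam.r2 h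
      simp [Lam.e1] at this
    · refine ⟨Lam.iy ty, fun h => hy ?_⟩
      have := congrArg Lam.y h
      simpa [Lam.e1, Lam.e2, Lam.iy] using this
    · exact absurd h (by decide)
    · exact absurd h (by decide)
    · refine ⟨Lam.e 2, fun h => ?_⟩
      have := congrArg Lam.r3 h
      simp [Lam.e2] at this

section spt
variable [Nontrivial k] [Nontrivial X] [Nontrivial Y] [Nontrivial Z]

theorem spt_Kx {m l q : ℕ} {A : Fin m → X} {B : Fin l → Y} {h : ∀ i j, μ (A i) (B j) = 0}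
    (hm : 0 < m) (hl : 0 < l) (i : Fin 3) (r : ℕ) :
    Spt (Kx q A B h) i r ↔ (q = r ∧ i ≤ 0) ∨ (q + 1 = r ∧ i ≤ 1) ∨ (q + 2 = r ∧ i ≤ 2) := by
  constructor
  · rintro ⟨g, h1, h2⟩
    rw [ne_iff] at h2
    rcases g with g | g | g
    · exact Or.inl ⟨h1, h2⟩
    · exact Or.inr (Or.inl ⟨h1, h2⟩)
    · exact Or.inr (Or.inr ⟨h1, h2⟩)
  · rintro (⟨h1, h2⟩ | ⟨h1, h2⟩ | ⟨h1, h2⟩)
    · exact ⟨.inl ⟨0, hm⟩, h1, (ne_iff _ _).2 h2⟩
    · exact ⟨.inr (.inl ()), h1, (ne_iff _ _).2 h2⟩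
    · exact ⟨.inr (.inr ⟨0, hl⟩), h1, (ne_iff _ _).2 h2⟩

theorem spt_Dx (a : ℕ) (j : Fin 3) (i : Fin 3) (r : ℕ) :
    Spt (Dx μ a j) i r ↔ (a = r ∧ i ≤ j) ∨ (a + 1 = r ∧ i ≤ j) := by
  constructor
  · rintro ⟨g, h1, h2⟩
    rw [ne_iff] at h2
    rcases g with _ | _
    · exact Or.inl ⟨h1, h2⟩
    · exact Or.inr ⟨h1, h2⟩
  · rintro (⟨h1, h2⟩ | ⟨h1, h2⟩)
    · exact ⟨false, h1, (ne_iff _ _).2 h2⟩
    · exact ⟨true, h1, (ne_iff _ _).2 h2⟩

theorem spt_Ex (a : ℕ) (j : Fin 3) (i : Fin 3) (r : ℕ) :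
    Spt (Ex μ a j) i r ↔ (a = r ∧ i ≤ j) := by
  constructor
  · rintro ⟨g, h1, h2⟩
    rw [ne_iff] at h2
    exact ⟨h1, h2⟩
  · rintro ⟨h1, h2⟩
    exact ⟨(), h1, (ne_iff _ _).2 h2⟩

end spt

theorem Lam.sum_e : ∑ j, (Lam.e j : Lam μ) = 1 := by
  rw [Fin.sum_univ_three]
  apply Lam.ext <;> simp [Lam.e0, Lam.e1, Lam.e2]

theorem Lam.e_orth {i j : Fin 3} (h : i ≠ j) : (Lam.e i : Lam μ) * Lam.e j = 0 := by
  fin_cases i <;> fin_cases j <;> first
    | (exfalso; exact h rfl)
    | (apply Lam.ext <;> simp [Lam.e0, Lam.e1, Lam.e2])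

/-- the regular module -/
@[reducible] def UGam (μ : X →ₗ[k] Y →ₗ[k] Z) :
    (Fin 6 × Fin 3) ⊕ Fin 3 → Dat (Lam.e : Fin 3 → Lam μ)
  | .inl x => Dx μ x.1 x.2
  | .inr j => Ex μ 6 j

/-- coordinates of the generator -/
def genFun (μ : X →ₗ[k] Y →ₗ[k] Z) : (sig (UGam μ)).G → Lam μ
  | ⟨.inl x, b⟩ => bif b then 0 else Lam.e x.2
  | ⟨.inr j, _⟩ => Lam.e j

/-- the generator -/
def genG (μ : X →ₗ[k] Y →ₗ[k] Z) : MU (sig (UGam μ)) := MU.mk' (genFun μ)
  (by
    rintro ⟨(⟨i, j⟩ | j), g⟩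
    · rcases g with _ | _ <;> simp [genFun, Lam.he]
    · simp [genFun, Lam.he])
  (by
    rintro ⟨(⟨i, j⟩ | j), g⟩ hg
    · exfalso
      rcases g with _ | _
      · have h1 : 6 < (i : ℕ) := hg
        omega
      · have h1 : 6 < (i : ℕ) + 1 := hg
        omega
    · exfalso
      exact absurd hg (lt_irrefl 6))

theorem smul_genG_false (γ : Gam (Lam μ)) (i : Fin 6) (j : Fin 3) :
    (γ • genG μ) ⟨.inl (i, j), false⟩ = γ.a i * Lam.e j := by
  rw [MU.smul_apply, MU.dd]
  have := sum_sigD_right (UGam μ) (fun x => (genG μ) x) (.inl (i, j)) false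
  rw [this, Fintype.sum_bool]
  simp [genG, genFun]

theorem smul_genG_true (γ : Gam (Lam μ)) (i : Fin 6) (j : Fin 3) :
    (γ • genG μ) ⟨.inl (i, j), true⟩ = γ.b (i+1) * Lam.e j := by
  rw [MU.smul_apply, MU.dd]
  have := sum_sigD_right (UGam μ) (fun x => (genG μ) x) (.inl (i, j)) true
  rw [this, Fintype.sum_bool]
  simp [genG, genFun, Lam.he]

theorem smul_genG_inr (γ : Gam (Lam μ)) (j : Fin 3) :
    (γ • genG μ) ⟨.inr j, ()⟩ = γ.a 6 * Lam.e j := by
  rw [MU.smul_apply, MU.dd]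
  have := sum_sigD_right (UGam μ) (fun x => (genG μ) x) (.inr j) ()
  rw [this]
  simp [genG, genFun]

theorem eq_sum_e (a : Lam μ) : a = ∑ j, a * Lam.e j := by
  rw [← Finset.mul_sum, Lam.sum_e, mul_one]

theorem sum_mul_e {F : Fin 3 → Lam μ} (hF : ∀ j, F j * Lam.e j = F j) (j : Fin 3) :
    (∑ j', F j') * Lam.e j = F j := by
  rw [Finset.sum_mul, Finset.sum_eq_single j]
  · exact hF j
  · intro j' _ hne
    rw [← hF j', mul_assoc, Lam.e_orth hne, mul_zero]
  · simp

/-- The regular module is `MU`. -/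
noncomputable def regIso (μ : X →ₗ[k] Y →ₗ[k] Z) : Gam (Lam μ) ≃ₗ[Gam (Lam μ)] MU (sig (UGam μ)) :=
  LinearEquiv.ofBijective (LinearMap.toSpanSingleton (Gam (Lam μ)) _ (genG μ)) (by
    constructor
    · intro γ γ' h
      rw [LinearMap.toSpanSingleton_apply, LinearMap.toSpanSingleton_apply] at h
      apply Gam.ext'
      · funext q
        rcases lt_trichotomy q 6 with hq | rfl | hq
        · rw [eq_sum_e (γ.a q), eq_sum_e (γ'.a q)]
          refine Finset.sum_congr rfl fun j _ => ?_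
          have h1 := smul_genG_false γ ⟨q, hq⟩ j
          have h2 := smul_genG_false γ' ⟨q, hq⟩ j
          exact h1.symm.trans ((congrArg (fun x => MU.c x _) h).trans h2)
        · rw [eq_sum_e (γ.a 6), eq_sum_e (γ'.a 6)]
          refine Finset.sum_congr rfl fun j _ => ?_
          rw [← smul_genG_inr γ j, ← smul_genG_inr γ' j, h]
        · rw [a_gt _ hq, a_gt _ hq]
      · funext q
        rcases Nat.eq_zero_or_pos q with rfl | hq0
        · rw [b_zero, b_zero]
        · obtain ⟨q, rfl⟩ : ∃ r, q = r + 1 := ⟨q - 1, by omega⟩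
          by_cases hq : q < 6
          · rw [eq_sum_e (γ.b (q+1)), eq_sum_e (γ'.b (q+1))]
            refine Finset.sum_congr rfl fun j _ => ?_
            have h1 := smul_genG_true γ ⟨q, hq⟩ j
            have h2 := smul_genG_true γ' ⟨q, hq⟩ j
            exact h1.symm.trans ((congrArg (fun x => MU.c x _) h).trans h2)
          · rw [b_gt _ (by omega), b_gt _ (by omega)]
    · intro x
      let γ : Gam (Lam μ) := Gam.mk'
        (fun q => if h : q < 6 then ∑ j, x ⟨.inl (⟨q, h⟩, j), false⟩ else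
          if q = 6 then ∑ j, x ⟨.inr j, ()⟩ else 0)
        (fun q => if h : 1 ≤ q ∧ q ≤ 6 then ∑ j, x ⟨.inl (⟨q-1, by omega⟩, j), true⟩ else 0)
        (fun q hq => by rw [dif_neg (by omega), if_neg (by omega)])
        (fun q hq => by rw [dif_neg (by omega)])
        (by simp)
      refine ⟨γ, ?_⟩
      rw [LinearMap.toSpanSingleton_apply]
      apply MU.ext'
      rintro ⟨(⟨i, j⟩ | j), g⟩
      · rcases g with _ | _
        · rw [smul_genG_false]
          show (if h : (i : ℕ) < 6 then ∑ j, x ⟨.inl (⟨i, h⟩, j), false⟩ else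
            if (i : ℕ) = 6 then ∑ j, x ⟨.inr j, ()⟩ else 0) * Lam.e j = _
          rw [dif_pos i.2]
          exact sum_mul_e (F := fun j => x ⟨.inl (i, j), false⟩)
            (fun j => MU.mul_e x ⟨.inl (i, j), false⟩) j
        · rw [smul_genG_true]
          show (if h : 1 ≤ (i : ℕ) + 1 ∧ (i : ℕ) + 1 ≤ 6 then
            ∑ j, x ⟨.inl (⟨(i : ℕ) + 1 - 1, by omega⟩, j), true⟩ else 0) * Lam.e j = _
          rw [dif_pos (by omega)]
          exact sum_mul_e (F := fun j => x ⟨.inl (i, j), true⟩)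
            (fun j => MU.mul_e x ⟨.inl (i, j), true⟩) j
      · rw [smul_genG_inr]
        show (if h : 6 < 6 then ∑ j, x ⟨.inl (⟨6, h⟩, j), false⟩ else
            if 6 = 6 then ∑ j, x ⟨.inr j, ()⟩ else 0) * Lam.e j = _
        rw [dif_neg (by omega), if_pos rfl]
        exact sum_mul_e (F := fun j => x ⟨.inr j, ()⟩) (fun j => MU.mul_e x ⟨.inr j, ()⟩) j)

instance MU.finite' {L : Type u} [Ring L] [Finite L] {e : Fin 3 → L} (U : Dat e) :
    Finite (MU U) := inferInstanceAs (Finite (modCarrier U))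

/-- supports -/
def sG : (Fin 6 × Fin 3) ⊕ Fin 3 → Fin 3 → ℕ → Bool
  | .inl x, i, q => (decide ((x.1 : ℕ) = q) || decide ((x.1 : ℕ) + 1 = q)) && decide (i ≤ x.2)
  | .inr j, i, q => decide (6 = q) && decide (i ≤ j)

theorem sG_inj : ∀ v w, (∀ (i : Fin 3) (q : Fin 8), sG v i q = sG w i q) → v = w := by
  decide +kernel

theorem spt_UGam [Nontrivial k] [Nontrivial X] [Nontrivial Y] [Nontrivial Z]
    (v : (Fin 6 × Fin 3) ⊕ Fin 3) (i : Fin 3) (q : ℕ) :
    Spt (UGam μ v) i q ↔ sG v i q = true := by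
  rcases v with ⟨a, j⟩ | j
  · rw [UGam, spt_Dx]
    simp only [sG, Bool.and_eq_true, Bool.or_eq_true, decide_eq_true_eq]
    tauto
  · rw [UGam, spt_Ex]
    simp only [sG, Bool.and_eq_true, decide_eq_true_eq]

theorem Lam.e_ne [Nontrivial k] [Nontrivial X] [Nontrivial Y] [Nontrivial Z] (j : Fin 3) :
    (Lam.e j : Lam μ) ≠ 0 := by
  intro h
  obtain ⟨x, hx⟩ := (ne_iff (μ := μ) j j).2 le_rfl
  rw [h] at hx
  simp at hx

theorem card_reg [Nontrivial k] [Nontrivial X] [Nontrivial Y] [Nontrivial Z]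
    (hk : ∀ c : k, c * c = c → c = 0 ∨ c = 1) [Finite k] [Finite X] [Finite Y] [Finite Z] :
    Nat.card (Quot (fun (N N' : IndSummand (Gam (Lam μ)) (Gam (Lam μ))) =>
      Nonempty (N.1 ≃ₗ[Gam (Lam μ)] N'.1))) = 21 := by
  rw [card_congr (regIso μ), card_blocks Lam.he (UGam μ)]
  · rfl
  · rintro (⟨i, j⟩ | j) g
    · rcases g with _ | _
      · show (i : ℕ) ≤ 6
        omega
      · show (i : ℕ) + 1 ≤ 6
        omega
    · exact le_rfl
  · rintro (⟨i, j⟩ | j)
    · exact ⟨false, Lam.e_ne _⟩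
    · exact ⟨(), Lam.e_ne _⟩
  · rintro (⟨i, j⟩ | j)
    · exact Dx_endI hk _ _
    · exact Ex_endI hk _ _
  · intro v w h
    apply sG_inj
    intro i q
    have := h i q
    rw [spt_UGam, spt_UGam] at this
    exact Bool.eq_iff_iff.2 this

end Pool.Agent.helper17.Tilt
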