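import Pool.Agent.helper17.Tilt.Abs

/-!
The linear algebra facts (generated).
-/

set_option autoImplicit false
set_option linter.unusedVariables false
set_option linter.unusedSimpArgs false
universe u

namespace Pool.Agent.helper17.Tilt


variable {k : Type u} [CommRing k]

/-- the bilinear map, on coordinates -/
def muF (a : Fin 7 → k) (b : Fin 5 → k) : Fin 4 → k :=
  ![a 0 * b 4 + a 2 * b 1 + a 5 * b 2 + a 6 * b 0,
    a 0 * b 1 + a 3 * b 0 + a 3 * b 2 + a 3 * b 3 + a 6 * b 0,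
    a 1 * b 3 + a 2 * b 4 + a 4 * b 3 + a 5 * b 4 + a 6 * b 0 + a 6 * b 1,
    a 1 * b 0 + a 1 * b 2 + a 4 * b 2 + a 4 * b 3 + a 6 * b 1]

theorem muF_add_left (a a' : Fin 7 → k) (b : Fin 5 → k) : muF (a + a') b = muF a b + muF a' b := by
  funext c
  fin_cases c <;> simp [muF] <;> ring

theorem muF_smul_left (r : k) (a : Fin 7 → k) (b : Fin 5 → k) : muF (r • a) b = r • muF a b := by
  funext c
  fin_cases c <;> simp [muF] <;> ring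

theorem muF_add_right (a : Fin 7 → k) (b b' : Fin 5 → k) : muF a (b + b') = muF a b + muF a b' := by
  funext c
  fin_cases c <;> simp [muF] <;> ring

theorem muF_smul_right (r : k) (a : Fin 7 → k) (b : Fin 5 → k) : muF a (r • b) = r • muF a b := by
  funext c
  fin_cases c <;> simp [muF] <;> ring

/-- the bilinear map -/
def mu (k : Type u) [CommRing k] : (Fin 7 → k) →ₗ[k] (Fin 5 → k) →ₗ[k] (Fin 4 → k) :=
  LinearMap.mk₂ k muF muF_add_left muF_smul_left muF_add_right muF_smul_right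

/-- object 1, left part -/
def oA1 (k : Type u) [CommRing k] : Fin 4 → Fin 7 → k := ![![1, 0, 0, 0, 0, 0, 0], ![0, 1, 0, 0, 0, 0, 0], ![0, 0, 1, 0, 0, 0, 0], ![0, 0, 0, 1, 0, 0, 0]]
/-- object 1, right part -/
def oB1 (k : Type u) [CommRing k] : Fin 1 → Fin 5 → k := ![![1, 0, 1, 0, 0]]

/-- object 2, left part -/
def oA2 (k : Type u) [CommRing k] : Fin 2 → Fin 7 → k := ![![0, 0, 0, 0, 1, 0, 0], ![0, 0, 0, 0, 0, 1, 0]]
/-- object 2, right part -/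
def oB2 (k : Type u) [CommRing k] : Fin 2 → Fin 5 → k := ![![1, 0, 0, 0, 0], ![0, 1, 0, 0, 0]]

/-- object 3, left part -/
def oA3 (k : Type u) [CommRing k] : Fin 1 → Fin 7 → k := ![![0, 0, 0, 0, 0, 0, 1]]
/-- object 3, right part -/
def oB3 (k : Type u) [CommRing k] : Fin 3 → Fin 5 → k := ![![0, 0, 1, 0, 0], ![0, 0, 0, 1, 0], ![0, 0, 0, 0, 1]]

/-- object 4, left part -/
def oA4 (k : Type u) [CommRing k] : Fin 1 → Fin 7 → k := ![![0, 1, 1, 1, 0, 1, 1]]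
/-- object 4, right part -/
def oB4 (k : Type u) [CommRing k] : Fin 3 → Fin 5 → k := ![![1, 1, 0, 0, 0], ![1, 0, 1, 1, 0], ![0, 0, 0, 0, 1]]

theorem sapp1 {N : ℕ} (f : Fin 1 → Fin N → k) (c : Fin N) : (∑ i, f i) c = f 0 c := by
  simp [Finset.sum_apply, Fin.sum_univ_succ]

theorem gx1 {N : ℕ} {f : Fin 1 → Fin N → k} {b : Fin N → k} {c : Fin N} {a : k}
    (e : a = (f 0 c) + b c) : a = (∑ i, f i + b) c := by
  rw [Pi.add_apply, sapp1]; exact e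

theorem gz1 {N : ℕ} {f : Fin 1 → Fin N → k} {b : Fin N → k} {c : Fin N} {a : k}
    (e : a = b c + (f 0 c)) : a = (b + ∑ i, f i) c := by
  rw [Pi.add_apply, sapp1]; exact e

theorem sapp2 {N : ℕ} (f : Fin 2 → Fin N → k) (c : Fin N) : (∑ i, f i) c = f 0 c + f 1 c := by
  simp [Finset.sum_apply, Fin.sum_univ_succ]

theorem gx2 {N : ℕ} {f : Fin 2 → Fin N → k} {b : Fin N → k} {c : Fin N} {a : k}
    (e : a = (f 0 c + f 1 c) + b c) : a = (∑ i, f i + b) c := by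
  rw [Pi.add_apply, sapp2]; exact e

theorem gz2 {N : ℕ} {f : Fin 2 → Fin N → k} {b : Fin N → k} {c : Fin N} {a : k}
    (e : a = b c + (f 0 c + f 1 c)) : a = (b + ∑ i, f i) c := by
  rw [Pi.add_apply, sapp2]; exact e

theorem sapp3 {N : ℕ} (f : Fin 3 → Fin N → k) (c : Fin N) : (∑ i, f i) c = f 0 c + f 1 c + f 2 c := by
  simp [Finset.sum_apply, Fin.sum_univ_succ, add_assoc]

theorem gx3 {N : ℕ} {f : Fin 3 → Fin N → k} {b : Fin N → k} {c : Fin N} {a : k}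
    (e : a = (f 0 c + f 1 c + f 2 c) + b c) : a = (∑ i, f i + b) c := by
  rw [Pi.add_apply, sapp3]; exact e

theorem gz3 {N : ℕ} {f : Fin 3 → Fin N → k} {b : Fin N → k} {c : Fin N} {a : k}
    (e : a = b c + (f 0 c + f 1 c + f 2 c)) : a = (b + ∑ i, f i) c := by
  rw [Pi.add_apply, sapp3]; exact e

theorem sapp4 {N : ℕ} (f : Fin 4 → Fin N → k) (c : Fin N) : (∑ i, f i) c = f 0 c + f 1 c + f 2 c + f 3 c := by
  simp [Finset.sum_apply, Fin.sum_univ_succ, add_assoc]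

theorem gx4 {N : ℕ} {f : Fin 4 → Fin N → k} {b : Fin N → k} {c : Fin N} {a : k}
    (e : a = (f 0 c + f 1 c + f 2 c + f 3 c) + b c) : a = (∑ i, f i + b) c := by
  rw [Pi.add_apply, sapp4]; exact e

theorem gz4 {N : ℕ} {f : Fin 4 → Fin N → k} {b : Fin N → k} {c : Fin N} {a : k}
    (e : a = b c + (f 0 c + f 1 c + f 2 c + f 3 c)) : a = (b + ∑ i, f i) c := by
  rw [Pi.add_apply, sapp4]; exact e

/-- the degree two class -/
def oW (k : Type u) [CommRing k] : Fin 1 → Fin 3 → Fin 4 → k := ![![![0, 1, 0, 0], ![0, 0, 0, 0], ![0, 0, 0, 0]]]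

theorem orth1 (h2 : (2 : k) = 0) : ∀ i j, mu k (oA1 k i) (oB1 k j) = 0 := by
  intro i j
  funext c
  match i, j, c with
  | 0, 0, 0 =>
    show 1 * 0 + 0 * 0 + 0 * 1 + 0 * 1 = (0 : k)
    linear_combination (0 : k) * h2
  | 0, 0, 1 =>
    show 1 * 0 + 0 * 1 + 0 * 1 + 0 * 0 + 0 * 1 = (0 : k)
    linear_combination (0 : k) * h2
  | 0, 0, 2 =>
    show 0 * 0 + 0 * 0 + 0 * 0 + 0 * 0 + 0 * 1 + 0 * 0 = (0 : k)
    linear_combination (0 : k) * h2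
  | 0, 0, 3 =>
    show 0 * 1 + 0 * 1 + 0 * 1 + 0 * 0 + 0 * 0 = (0 : k)
    linear_combination (0 : k) * h2
  | 1, 0, 0 =>
    show 0 * 0 + 0 * 0 + 0 * 1 + 0 * 1 = (0 : k)
    linear_combination (0 : k) * h2
  | 1, 0, 1 =>
    show 0 * 0 + 0 * 1 + 0 * 1 + 0 * 0 + 0 * 1 = (0 : k)
    linear_combination (0 : k) * h2
  | 1, 0, 2 =>
    show 1 * 0 + 0 * 0 + 0 * 0 + 0 * 0 + 0 * 1 + 0 * 0 = (0 : k)
    linear_combination (0 : k) * h2
  | 1, 0, 3 =>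
    show 1 * 1 + 1 * 1 + 0 * 1 + 0 * 0 + 0 * 0 = (0 : k)
    linear_combination (1 : k) * h2
  | 2, 0, 0 =>
    show 0 * 0 + 1 * 0 + 0 * 1 + 0 * 1 = (0 : k)
    linear_combination (0 : k) * h2
  | 2, 0, 1 =>
    show 0 * 0 + 0 * 1 + 0 * 1 + 0 * 0 + 0 * 1 = (0 : k)
    linear_combination (0 : k) * h2
  | 2, 0, 2 =>
    show 0 * 0 + 1 * 0 + 0 * 0 + 0 * 0 + 0 * 1 + 0 * 0 = (0 : k)
    linear_combination (0 : k) * h2
  | 2, 0, 3 =>
    show 0 * 1 + 0 * 1 + 0 * 1 + 0 * 0 + 0 * 0 = (0 : k)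
    linear_combination (0 : k) * h2
  | 3, 0, 0 =>
    show 0 * 0 + 0 * 0 + 0 * 1 + 0 * 1 = (0 : k)
    linear_combination (0 : k) * h2
  | 3, 0, 1 =>
    show 0 * 0 + 1 * 1 + 1 * 1 + 1 * 0 + 0 * 1 = (0 : k)
    linear_combination (1 : k) * h2
  | 3, 0, 2 =>
    show 0 * 0 + 0 * 0 + 0 * 0 + 0 * 0 + 0 * 1 + 0 * 0 = (0 : k)
    linear_combination (0 : k) * h2
  | 3, 0, 3 =>
    show 0 * 1 + 0 * 1 + 0 * 1 + 0 * 0 + 0 * 0 = (0 : k)
    linear_combination (0 : k) * h2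

theorem orth2 (h2 : (2 : k) = 0) : ∀ i j, mu k (oA2 k i) (oB2 k j) = 0 := by
  intro i j
  funext c
  match i, j, c with
  | 0, 0, 0 =>
    show 0 * 0 + 0 * 0 + 0 * 0 + 0 * 1 = (0 : k)
    linear_combination (0 : k) * h2
  | 0, 0, 1 =>
    show 0 * 0 + 0 * 1 + 0 * 0 + 0 * 0 + 0 * 1 = (0 : k)
    linear_combination (0 : k) * h2
  | 0, 0, 2 =>
    show 0 * 0 + 0 * 0 + 1 * 0 + 0 * 0 + 0 * 1 + 0 * 0 = (0 : k)
    linear_combination (0 : k) * h2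
  | 0, 0, 3 =>
    show 0 * 1 + 0 * 0 + 1 * 0 + 1 * 0 + 0 * 0 = (0 : k)
    linear_combination (0 : k) * h2
  | 0, 1, 0 =>
    show 0 * 0 + 0 * 1 + 0 * 0 + 0 * 0 = (0 : k)
    linear_combination (0 : k) * h2
  | 0, 1, 1 =>
    show 0 * 1 + 0 * 0 + 0 * 0 + 0 * 0 + 0 * 0 = (0 : k)
    linear_combination (0 : k) * h2
  | 0, 1, 2 =>
    show 0 * 0 + 0 * 0 + 1 * 0 + 0 * 0 + 0 * 0 + 0 * 1 = (0 : k)
    linear_combination (0 : k) * h2
  | 0, 1, 3 =>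
    show 0 * 0 + 0 * 0 + 1 * 0 + 1 * 0 + 0 * 1 = (0 : k)
    linear_combination (0 : k) * h2
  | 1, 0, 0 =>
    show 0 * 0 + 0 * 0 + 1 * 0 + 0 * 1 = (0 : k)
    linear_combination (0 : k) * h2
  | 1, 0, 1 =>
    show 0 * 0 + 0 * 1 + 0 * 0 + 0 * 0 + 0 * 1 = (0 : k)
    linear_combination (0 : k) * h2
  | 1, 0, 2 =>
    show 0 * 0 + 0 * 0 + 0 * 0 + 1 * 0 + 0 * 1 + 0 * 0 = (0 : k)
    linear_combination (0 : k) * h2
  | 1, 0, 3 =>
    show 0 * 1 + 0 * 0 + 0 * 0 + 0 * 0 + 0 * 0 = (0 : k)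
    linear_combination (0 : k) * h2
  | 1, 1, 0 =>
    show 0 * 0 + 0 * 1 + 1 * 0 + 0 * 0 = (0 : k)
    linear_combination (0 : k) * h2
  | 1, 1, 1 =>
    show 0 * 1 + 0 * 0 + 0 * 0 + 0 * 0 + 0 * 0 = (0 : k)
    linear_combination (0 : k) * h2
  | 1, 1, 2 =>
    show 0 * 0 + 0 * 0 + 0 * 0 + 1 * 0 + 0 * 0 + 0 * 1 = (0 : k)
    linear_combination (0 : k) * h2
  | 1, 1, 3 =>
    show 0 * 0 + 0 * 0 + 0 * 0 + 0 * 0 + 0 * 1 = (0 : k)
    linear_combination (0 : k) * h2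

theorem orth3 (h2 : (2 : k) = 0) : ∀ i j, mu k (oA3 k i) (oB3 k j) = 0 := by
  intro i j
  funext c
  match i, j, c with
  | 0, 0, 0 =>
    show 0 * 0 + 0 * 0 + 0 * 1 + 1 * 0 = (0 : k)
    linear_combination (0 : k) * h2
  | 0, 0, 1 =>
    show 0 * 0 + 0 * 0 + 0 * 1 + 0 * 0 + 1 * 0 = (0 : k)
    linear_combination (0 : k) * h2
  | 0, 0, 2 =>
    show 0 * 0 + 0 * 0 + 0 * 0 + 0 * 0 + 1 * 0 + 1 * 0 = (0 : k)
    linear_combination (0 : k) * h2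
  | 0, 0, 3 =>
    show 0 * 0 + 0 * 1 + 0 * 1 + 0 * 0 + 1 * 0 = (0 : k)
    linear_combination (0 : k) * h2
  | 0, 1, 0 =>
    show 0 * 0 + 0 * 0 + 0 * 0 + 1 * 0 = (0 : k)
    linear_combination (0 : k) * h2
  | 0, 1, 1 =>
    show 0 * 0 + 0 * 0 + 0 * 0 + 0 * 1 + 1 * 0 = (0 : k)
    linear_combination (0 : k) * h2
  | 0, 1, 2 =>
    show 0 * 1 + 0 * 0 + 0 * 1 + 0 * 0 + 1 * 0 + 1 * 0 = (0 : k)
    linear_combination (0 : k) * h2
  | 0, 1, 3 =>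
    show 0 * 0 + 0 * 0 + 0 * 0 + 0 * 1 + 1 * 0 = (0 : k)
    linear_combination (0 : k) * h2
  | 0, 2, 0 =>
    show 0 * 1 + 0 * 0 + 0 * 0 + 1 * 0 = (0 : k)
    linear_combination (0 : k) * h2
  | 0, 2, 1 =>
    show 0 * 0 + 0 * 0 + 0 * 0 + 0 * 0 + 1 * 0 = (0 : k)
    linear_combination (0 : k) * h2
  | 0, 2, 2 =>
    show 0 * 0 + 0 * 1 + 0 * 0 + 0 * 1 + 1 * 0 + 1 * 0 = (0 : k)
    linear_combination (0 : k) * h2
  | 0, 2, 3 =>
    show 0 * 0 + 0 * 0 + 0 * 0 + 0 * 0 + 1 * 0 = (0 : k)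
    linear_combination (0 : k) * h2

theorem orth4 (h2 : (2 : k) = 0) : ∀ i j, mu k (oA4 k i) (oB4 k j) = 0 := by
  intro i j
  funext c
  match i, j, c with
  | 0, 0, 0 =>
    show 0 * 0 + 1 * 1 + 1 * 0 + 1 * 1 = (0 : k)
    linear_combination (1 : k) * h2
  | 0, 0, 1 =>
    show 0 * 1 + 1 * 1 + 1 * 0 + 1 * 0 + 1 * 1 = (0 : k)
    linear_combination (1 : k) * h2
  | 0, 0, 2 =>
    show 1 * 0 + 1 * 0 + 0 * 0 + 1 * 0 + 1 * 1 + 1 * 1 = (0 : k)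
    linear_combination (1 : k) * h2
  | 0, 0, 3 =>
    show 1 * 1 + 1 * 0 + 0 * 0 + 0 * 0 + 1 * 1 = (0 : k)
    linear_combination (1 : k) * h2
  | 0, 1, 0 =>
    show 0 * 0 + 1 * 0 + 1 * 1 + 1 * 1 = (0 : k)
    linear_combination (1 : k) * h2
  | 0, 1, 1 =>
    show 0 * 0 + 1 * 1 + 1 * 1 + 1 * 1 + 1 * 1 = (0 : k)
    linear_combination (2 : k) * h2
  | 0, 1, 2 =>
    show 1 * 1 + 1 * 0 + 0 * 1 + 1 * 0 + 1 * 1 + 1 * 0 = (0 : k)
    linear_combination (1 : k) * h2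
  | 0, 1, 3 =>
    show 1 * 1 + 1 * 1 + 0 * 1 + 0 * 1 + 1 * 0 = (0 : k)
    linear_combination (1 : k) * h2
  | 0, 2, 0 =>
    show 0 * 1 + 1 * 0 + 1 * 0 + 1 * 0 = (0 : k)
    linear_combination (0 : k) * h2
  | 0, 2, 1 =>
    show 0 * 0 + 1 * 0 + 1 * 0 + 1 * 0 + 1 * 0 = (0 : k)
    linear_combination (0 : k) * h2
  | 0, 2, 2 =>
    show 1 * 0 + 1 * 1 + 0 * 0 + 1 * 1 + 1 * 0 + 1 * 0 = (0 : k)
    linear_combination (1 : k) * h2
  | 0, 2, 3 =>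
    show 1 * 0 + 1 * 0 + 0 * 0 + 0 * 0 + 1 * 0 = (0 : k)
    linear_combination (0 : k) * h2

end Pool.Agent.helper17.Tilt
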