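import Pool.Agent.helper17.Tilt.D0

/-!
The linear algebra facts (generated).
-/

set_option autoImplicit false
set_option linter.unusedVariables false
set_option linter.unusedSimpArgs false
universe u

namespace Pool.Agent.helper17.Tilt


variable {k : Type u} [CommRing k]

theorem fact11 (h2 : (2 : k) = 0) : Fe (mu k) (oA1 k) (oB1 k) where
  f0 := by
    intro x y z h h'
    have e0_0 : x 0 0 * 1 + x 0 1 * 0 + x 0 2 * 0 + x 0 3 * 0 = y * 1 := (sapp4 _ 0).symm.trans (congrFun (h 0) 0)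
    have e0_1 : x 0 0 * 0 + x 0 1 * 1 + x 0 2 * 0 + x 0 3 * 0 = y * 0 := (sapp4 _ 1).symm.trans (congrFun (h 0) 1)
    have e0_2 : x 0 0 * 0 + x 0 1 * 0 + x 0 2 * 1 + x 0 3 * 0 = y * 0 := (sapp4 _ 2).symm.trans (congrFun (h 0) 2)
    have e0_3 : x 0 0 * 0 + x 0 1 * 0 + x 0 2 * 0 + x 0 3 * 1 = y * 0 := (sapp4 _ 3).symm.trans (congrFun (h 0) 3)
    have e1_0 : x 1 0 * 1 + x 1 1 * 0 + x 1 2 * 0 + x 1 3 * 0 = y * 0 := (sapp4 _ 0).symm.trans (congrFun (h 1) 0)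
    have e1_1 : x 1 0 * 0 + x 1 1 * 1 + x 1 2 * 0 + x 1 3 * 0 = y * 1 := (sapp4 _ 1).symm.trans (congrFun (h 1) 1)
    have e1_2 : x 1 0 * 0 + x 1 1 * 0 + x 1 2 * 1 + x 1 3 * 0 = y * 0 := (sapp4 _ 2).symm.trans (congrFun (h 1) 2)
    have e1_3 : x 1 0 * 0 + x 1 1 * 0 + x 1 2 * 0 + x 1 3 * 1 = y * 0 := (sapp4 _ 3).symm.trans (congrFun (h 1) 3)
    have e2_0 : x 2 0 * 1 + x 2 1 * 0 + x 2 2 * 0 + x 2 3 * 0 = y * 0 := (sapp4 _ 0).symm.trans (congrFun (h 2) 0)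
    have e2_1 : x 2 0 * 0 + x 2 1 * 1 + x 2 2 * 0 + x 2 3 * 0 = y * 0 := (sapp4 _ 1).symm.trans (congrFun (h 2) 1)
    have e2_2 : x 2 0 * 0 + x 2 1 * 0 + x 2 2 * 1 + x 2 3 * 0 = y * 1 := (sapp4 _ 2).symm.trans (congrFun (h 2) 2)
    have e2_3 : x 2 0 * 0 + x 2 1 * 0 + x 2 2 * 0 + x 2 3 * 1 = y * 0 := (sapp4 _ 3).symm.trans (congrFun (h 2) 3)
    have e3_0 : x 3 0 * 1 + x 3 1 * 0 + x 3 2 * 0 + x 3 3 * 0 = y * 0 := (sapp4 _ 0).symm.trans (congrFun (h 3) 0)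
    have e3_1 : x 3 0 * 0 + x 3 1 * 1 + x 3 2 * 0 + x 3 3 * 0 = y * 0 := (sapp4 _ 1).symm.trans (congrFun (h 3) 1)
    have e3_2 : x 3 0 * 0 + x 3 1 * 0 + x 3 2 * 1 + x 3 3 * 0 = y * 0 := (sapp4 _ 2).symm.trans (congrFun (h 3) 2)
    have e3_3 : x 3 0 * 0 + x 3 1 * 0 + x 3 2 * 0 + x 3 3 * 1 = y * 1 := (sapp4 _ 3).symm.trans (congrFun (h 3) 3)
    have g0_0 : y * 1 = z 0 0 * 1 := (congrFun (h' 0) 0).trans (sapp1 _ 0)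
    have g0_2 : y * 1 = z 0 0 * 1 := (congrFun (h' 0) 2).trans (sapp1 _ 2)
    refine ⟨fun i i' => ?_, fun j j' => ?_⟩
    · match i, i' with
      | 0, 0 =>
        show x 0 0 = y
        linear_combination e0_0
      | 0, 1 =>
        show x 0 1 = (0 : k)
        linear_combination e0_1
      | 0, 2 =>
        show x 0 2 = (0 : k)
        linear_combination e0_2
      | 0, 3 =>
        show x 0 3 = (0 : k)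
        linear_combination e0_3
      | 1, 0 =>
        show x 1 0 = (0 : k)
        linear_combination e1_0
      | 1, 1 =>
        show x 1 1 = y
        linear_combination e1_1
      | 1, 2 =>
        show x 1 2 = (0 : k)
        linear_combination e1_2
      | 1, 3 =>
        show x 1 3 = (0 : k)
        linear_combination e1_3
      | 2, 0 =>
        show x 2 0 = (0 : k)
        linear_combination e2_0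
      | 2, 1 =>
        show x 2 1 = (0 : k)
        linear_combination e2_1
      | 2, 2 =>
        show x 2 2 = y
        linear_combination e2_2
      | 2, 3 =>
        show x 2 3 = (0 : k)
        linear_combination e2_3
      | 3, 0 =>
        show x 3 0 = (0 : k)
        linear_combination e3_0
      | 3, 1 =>
        show x 3 1 = (0 : k)
        linear_combination e3_1
      | 3, 2 =>
        show x 3 2 = (0 : k)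
        linear_combination e3_2
      | 3, 3 =>
        show x 3 3 = y
        linear_combination e3_3
    · match j, j' with
      | 0, 0 =>
        show z 0 0 = y
        linear_combination g0_0 + (z 0 0 + (-1)*y) * h2
  f1 := by
    intro α β h
    have e0_0_0 : α 0 0 * 0 + α 0 2 * 0 + α 0 5 * 1 + α 0 6 * 1 = 1 * β 0 4 + 0 * β 0 1 + 0 * β 0 2 + 0 * β 0 0 := congrFun (h 0 0) 0
    have e0_0_1 : α 0 0 * 0 + α 0 3 * 1 + α 0 3 * 1 + α 0 3 * 0 + α 0 6 * 1 = 1 * β 0 1 + 0 * β 0 0 + 0 * β 0 2 + 0 * β 0 3 + 0 * β 0 0 := congrFun (h 0 0) 1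
    have e0_0_2 : α 0 1 * 0 + α 0 2 * 0 + α 0 4 * 0 + α 0 5 * 0 + α 0 6 * 1 + α 0 6 * 0 = 0 * β 0 3 + 0 * β 0 4 + 0 * β 0 3 + 0 * β 0 4 + 0 * β 0 0 + 0 * β 0 1 := congrFun (h 0 0) 2
    have e0_0_3 : α 0 1 * 1 + α 0 1 * 1 + α 0 4 * 1 + α 0 4 * 0 + α 0 6 * 0 = 0 * β 0 0 + 0 * β 0 2 + 0 * β 0 2 + 0 * β 0 3 + 0 * β 0 1 := congrFun (h 0 0) 3
    have e1_0_0 : α 1 0 * 0 + α 1 2 * 0 + α 1 5 * 1 + α 1 6 * 1 = 0 * β 0 4 + 0 * β 0 1 + 0 * β 0 2 + 0 * β 0 0 := congrFun (h 1 0) 0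
    have e1_0_1 : α 1 0 * 0 + α 1 3 * 1 + α 1 3 * 1 + α 1 3 * 0 + α 1 6 * 1 = 0 * β 0 1 + 0 * β 0 0 + 0 * β 0 2 + 0 * β 0 3 + 0 * β 0 0 := congrFun (h 1 0) 1
    have e1_0_2 : α 1 1 * 0 + α 1 2 * 0 + α 1 4 * 0 + α 1 5 * 0 + α 1 6 * 1 + α 1 6 * 0 = 1 * β 0 3 + 0 * β 0 4 + 0 * β 0 3 + 0 * β 0 4 + 0 * β 0 0 + 0 * β 0 1 := congrFun (h 1 0) 2
    have e1_0_3 : α 1 1 * 1 + α 1 1 * 1 + α 1 4 * 1 + α 1 4 * 0 + α 1 6 * 0 = 1 * β 0 0 + 1 * β 0 2 + 0 * β 0 2 + 0 * β 0 3 + 0 * β 0 1 := congrFun (h 1 0) 3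
    have e2_0_0 : α 2 0 * 0 + α 2 2 * 0 + α 2 5 * 1 + α 2 6 * 1 = 0 * β 0 4 + 1 * β 0 1 + 0 * β 0 2 + 0 * β 0 0 := congrFun (h 2 0) 0
    have e2_0_1 : α 2 0 * 0 + α 2 3 * 1 + α 2 3 * 1 + α 2 3 * 0 + α 2 6 * 1 = 0 * β 0 1 + 0 * β 0 0 + 0 * β 0 2 + 0 * β 0 3 + 0 * β 0 0 := congrFun (h 2 0) 1
    have e2_0_2 : α 2 1 * 0 + α 2 2 * 0 + α 2 4 * 0 + α 2 5 * 0 + α 2 6 * 1 + α 2 6 * 0 = 0 * β 0 3 + 1 * β 0 4 + 0 * β 0 3 + 0 * β 0 4 + 0 * β 0 0 + 0 * β 0 1 := congrFun (h 2 0) 2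
    have e2_0_3 : α 2 1 * 1 + α 2 1 * 1 + α 2 4 * 1 + α 2 4 * 0 + α 2 6 * 0 = 0 * β 0 0 + 0 * β 0 2 + 0 * β 0 2 + 0 * β 0 3 + 0 * β 0 1 := congrFun (h 2 0) 3
    have e3_0_0 : α 3 0 * 0 + α 3 2 * 0 + α 3 5 * 1 + α 3 6 * 1 = 0 * β 0 4 + 0 * β 0 1 + 0 * β 0 2 + 0 * β 0 0 := congrFun (h 3 0) 0
    have e3_0_1 : α 3 0 * 0 + α 3 3 * 1 + α 3 3 * 1 + α 3 3 * 0 + α 3 6 * 1 = 0 * β 0 1 + 1 * β 0 0 + 1 * β 0 2 + 1 * β 0 3 + 0 * β 0 0 := congrFun (h 3 0) 1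
    have e3_0_2 : α 3 1 * 0 + α 3 2 * 0 + α 3 4 * 0 + α 3 5 * 0 + α 3 6 * 1 + α 3 6 * 0 = 0 * β 0 3 + 0 * β 0 4 + 0 * β 0 3 + 0 * β 0 4 + 0 * β 0 0 + 0 * β 0 1 := congrFun (h 3 0) 2
    have e3_0_3 : α 3 1 * 1 + α 3 1 * 1 + α 3 4 * 1 + α 3 4 * 0 + α 3 6 * 0 = 0 * β 0 0 + 0 * β 0 2 + 0 * β 0 2 + 0 * β 0 3 + 0 * β 0 1 := congrFun (h 3 0) 3
    refine ⟨![![α 0 0, α 0 1, α 0 2, α 0 3], ![α 1 0, α 1 1, α 1 2, α 1 3], ![α 2 0, α 2 1, α 2 2, α 2 3], ![α 3 0, α 3 1, α 3 2, α 3 3]], 0, ![![β 0 0]], fun i => ?_, fun j' => ?_⟩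
    · funext c
      match i, c with
      | 0, 0 =>
        have e : α 0 0 = ((α 0 0) * 1 + (α 0 1) * 0 + (α 0 2) * 0 + (α 0 3) * 0) + (0) * 1 := by
          linear_combination (0 : k) * h2
        refine gx4 ?_
        exact e
      | 0, 1 =>
        have e : α 0 1 = ((α 0 0) * 0 + (α 0 1) * 1 + (α 0 2) * 0 + (α 0 3) * 0) + (0) * 0 := by
          linear_combination (0 : k) * h2
        refine gx4 ?_
        exact e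
      | 0, 2 =>
        have e : α 0 2 = ((α 0 0) * 0 + (α 0 1) * 0 + (α 0 2) * 1 + (α 0 3) * 0) + (0) * 0 := by
          linear_combination (0 : k) * h2
        refine gx4 ?_
        exact e
      | 0, 3 =>
        have e : α 0 3 = ((α 0 0) * 0 + (α 0 1) * 0 + (α 0 2) * 0 + (α 0 3) * 1) + (0) * 0 := by
          linear_combination (0 : k) * h2
        refine gx4 ?_
        exact e
      | 0, 4 =>
        have e : α 0 4 = ((α 0 0) * 0 + (α 0 1) * 0 + (α 0 2) * 0 + (α 0 3) * 0) + (0) * 0 := by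
          linear_combination e0_0_3 + ((-1)*α 0 1) * h2
        refine gx4 ?_
        exact e
      | 0, 5 =>
        have e : α 0 5 = ((α 0 0) * 0 + (α 0 1) * 0 + (α 0 2) * 0 + (α 0 3) * 0) + (0) * 0 := by
          linear_combination e0_0_0 + e0_0_2 + e2_0_1 + e2_0_2 + ((-1)*α 0 6 + β 0 4 + (-1)*α 2 3 + (-1)*α 2 6) * h2
        refine gx4 ?_
        exact e
      | 0, 6 =>
        have e : α 0 6 = ((α 0 0) * 0 + (α 0 1) * 0 + (α 0 2) * 0 + (α 0 3) * 0) + (0) * 0 := by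
          linear_combination e0_0_2
        refine gx4 ?_
        exact e
      | 1, 0 =>
        have e : α 1 0 = ((α 1 0) * 1 + (α 1 1) * 0 + (α 1 2) * 0 + (α 1 3) * 0) + (0) * 0 := by
          linear_combination (0 : k) * h2
        refine gx4 ?_
        exact e
      | 1, 1 =>
        have e : α 1 1 = ((α 1 0) * 0 + (α 1 1) * 1 + (α 1 2) * 0 + (α 1 3) * 0) + (0) * 1 := by
          linear_combination (0 : k) * h2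
        refine gx4 ?_
        exact e
      | 1, 2 =>
        have e : α 1 2 = ((α 1 0) * 0 + (α 1 1) * 0 + (α 1 2) * 1 + (α 1 3) * 0) + (0) * 0 := by
          linear_combination (0 : k) * h2
        refine gx4 ?_
        exact e
      | 1, 3 =>
        have e : α 1 3 = ((α 1 0) * 0 + (α 1 1) * 0 + (α 1 2) * 0 + (α 1 3) * 1) + (0) * 0 := by
          linear_combination (0 : k) * h2
        refine gx4 ?_
        exact e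
      | 1, 4 =>
        have e : α 1 4 = ((α 1 0) * 0 + (α 1 1) * 0 + (α 1 2) * 0 + (α 1 3) * 0) + (0) * 0 := by
          linear_combination e1_0_1 + e1_0_2 + e1_0_3 + e3_0_1 + e3_0_2 + ((-1)*α 1 3 + (-1)*α 1 6 + β 0 3 + (-1)*α 1 1 + β 0 0 + β 0 2 + (-1)*α 3 3 + (-1)*α 3 6) * h2
        refine gx4 ?_
        exact e
      | 1, 5 =>
        have e : α 1 5 = ((α 1 0) * 0 + (α 1 1) * 0 + (α 1 2) * 0 + (α 1 3) * 0) + (0) * 0 := by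
          linear_combination e1_0_0 + e1_0_1 + ((-1)*α 1 6 + (-1)*α 1 3) * h2
        refine gx4 ?_
        exact e
      | 1, 6 =>
        have e : α 1 6 = ((α 1 0) * 0 + (α 1 1) * 0 + (α 1 2) * 0 + (α 1 3) * 0) + (0) * 0 := by
          linear_combination e1_0_1 + ((-1)*α 1 3) * h2
        refine gx4 ?_
        exact e
      | 2, 0 =>
        have e : α 2 0 = ((α 2 0) * 1 + (α 2 1) * 0 + (α 2 2) * 0 + (α 2 3) * 0) + (0) * 0 := by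
          linear_combination (0 : k) * h2
        refine gx4 ?_
        exact e
      | 2, 1 =>
        have e : α 2 1 = ((α 2 0) * 0 + (α 2 1) * 1 + (α 2 2) * 0 + (α 2 3) * 0) + (0) * 0 := by
          linear_combination (0 : k) * h2
        refine gx4 ?_
        exact e
      | 2, 2 =>
        have e : α 2 2 = ((α 2 0) * 0 + (α 2 1) * 0 + (α 2 2) * 1 + (α 2 3) * 0) + (0) * 1 := by
          linear_combination (0 : k) * h2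
        refine gx4 ?_
        exact e
      | 2, 3 =>
        have e : α 2 3 = ((α 2 0) * 0 + (α 2 1) * 0 + (α 2 2) * 0 + (α 2 3) * 1) + (0) * 0 := by
          linear_combination (0 : k) * h2
        refine gx4 ?_
        exact e
      | 2, 4 =>
        have e : α 2 4 = ((α 2 0) * 0 + (α 2 1) * 0 + (α 2 2) * 0 + (α 2 3) * 0) + (0) * 0 := by
          linear_combination e2_0_3 + ((-1)*α 2 1) * h2
        refine gx4 ?_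
        exact e
      | 2, 5 =>
        have e : α 2 5 = ((α 2 0) * 0 + (α 2 1) * 0 + (α 2 2) * 0 + (α 2 3) * 0) + (0) * 0 := by
          linear_combination e0_0_1 + e0_0_2 + e2_0_0 + e2_0_1 + ((-1)*α 0 3 + (-1)*α 0 6 + β 0 1 + (-1)*α 2 6 + (-1)*α 2 3) * h2
        refine gx4 ?_
        exact e
      | 2, 6 =>
        have e : α 2 6 = ((α 2 0) * 0 + (α 2 1) * 0 + (α 2 2) * 0 + (α 2 3) * 0) + (0) * 0 := by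
          linear_combination e2_0_1 + ((-1)*α 2 3) * h2
        refine gx4 ?_
        exact e
      | 3, 0 =>
        have e : α 3 0 = ((α 3 0) * 1 + (α 3 1) * 0 + (α 3 2) * 0 + (α 3 3) * 0) + (0) * 0 := by
          linear_combination (0 : k) * h2
        refine gx4 ?_
        exact e
      | 3, 1 =>
        have e : α 3 1 = ((α 3 0) * 0 + (α 3 1) * 1 + (α 3 2) * 0 + (α 3 3) * 0) + (0) * 0 := by
          linear_combination (0 : k) * h2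
        refine gx4 ?_
        exact e
      | 3, 2 =>
        have e : α 3 2 = ((α 3 0) * 0 + (α 3 1) * 0 + (α 3 2) * 1 + (α 3 3) * 0) + (0) * 0 := by
          linear_combination (0 : k) * h2
        refine gx4 ?_
        exact e
      | 3, 3 =>
        have e : α 3 3 = ((α 3 0) * 0 + (α 3 1) * 0 + (α 3 2) * 0 + (α 3 3) * 1) + (0) * 1 := by
          linear_combination (0 : k) * h2
        refine gx4 ?_
        exact e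
      | 3, 4 =>
        have e : α 3 4 = ((α 3 0) * 0 + (α 3 1) * 0 + (α 3 2) * 0 + (α 3 3) * 0) + (0) * 0 := by
          linear_combination e3_0_3 + ((-1)*α 3 1) * h2
        refine gx4 ?_
        exact e
      | 3, 5 =>
        have e : α 3 5 = ((α 3 0) * 0 + (α 3 1) * 0 + (α 3 2) * 0 + (α 3 3) * 0) + (0) * 0 := by
          linear_combination e3_0_0 + e3_0_2 + ((-1)*α 3 6) * h2
        refine gx4 ?_
        exact e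
      | 3, 6 =>
        have e : α 3 6 = ((α 3 0) * 0 + (α 3 1) * 0 + (α 3 2) * 0 + (α 3 3) * 0) + (0) * 0 := by
          linear_combination e3_0_2
        refine gx4 ?_
        exact e
    · funext c
      match j', c with
      | 0, 0 =>
        have e : β 0 0 = (0) * 1 + ((β 0 0) * 1) := by
          linear_combination (0 : k) * h2
        refine gz1 ?_
        exact e
      | 0, 1 =>
        have e : β 0 1 = (0) * 0 + ((β 0 0) * 0) := by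
          linear_combination e0_0_1 + e0_0_2 + (β 0 1 + (-1)*α 0 3 + (-1)*α 0 6) * h2
        refine gz1 ?_
        exact e
      | 0, 2 =>
        have e : β 0 2 = (0) * 1 + ((β 0 0) * 1) := by
          linear_combination e1_0_1 + e1_0_2 + e3_0_1 + e3_0_2 + (β 0 2 + (-1)*α 1 3 + (-1)*α 1 6 + β 0 3 + (-1)*α 3 3 + (-1)*α 3 6) * h2
        refine gz1 ?_
        exact e
      | 0, 3 =>
        have e : β 0 3 = (0) * 0 + ((β 0 0) * 0) := by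
          linear_combination e1_0_1 + e1_0_2 + (β 0 3 + (-1)*α 1 3 + (-1)*α 1 6) * h2
        refine gz1 ?_
        exact e
      | 0, 4 =>
        have e : β 0 4 = (0) * 0 + ((β 0 0) * 0) := by
          linear_combination e2_0_1 + e2_0_2 + (β 0 4 + (-1)*α 2 3 + (-1)*α 2 6) * h2
        refine gz1 ?_
        exact e
  f2 := by
    intro ζ
    refine ⟨![![0, 0, 0, 0, ζ 0 0 3, ζ 0 0 0 + ζ 0 0 2 + ζ 2 0 1 + ζ 2 0 2, ζ 0 0 2], ![0, 0, 0, 0, ζ 1 0 1 + ζ 1 0 2 + ζ 1 0 3 + ζ 3 0 1 + ζ 3 0 2, ζ 1 0 0 + ζ 1 0 1, ζ 1 0 1], ![0, 0, 0, 0, ζ 2 0 3, ζ 0 0 1 + ζ 0 0 2 + ζ 2 0 0 + ζ 2 0 1, ζ 2 0 1], ![0, 0, 0, 0, ζ 3 0 3, ζ 3 0 0 + ζ 3 0 2, ζ 3 0 2]], ![![ζ 1 0 1 + ζ 1 0 2 + ζ 3 0 1 + ζ 3 0 2, ζ 0 0 1 + ζ 0 0 2, 0, ζ 1 0 1 + ζ 1 0 2, ζ 2 0 1 + ζ 2 0 2]], fun i j' => ?_⟩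
    funext c
    match i, j', c with
    | 0, 0, 0 =>
      show ζ 0 0 0 = ((0) * 0 + (0) * 0 + (ζ 0 0 0 + ζ 0 0 2 + ζ 2 0 1 + ζ 2 0 2) * 1 + (ζ 0 0 2) * 1) + (1 * (ζ 2 0 1 + ζ 2 0 2) + 0 * (ζ 0 0 1 + ζ 0 0 2) + 0 * (0) + 0 * (ζ 1 0 1 + ζ 1 0 2 + ζ 3 0 1 + ζ 3 0 2))
      linear_combination ((-1)*ζ 0 0 2 + (-1)*ζ 2 0 1 + (-1)*ζ 2 0 2) * h2
    | 0, 0, 1 =>
      show ζ 0 0 1 = ((0) * 0 + (0) * 1 + (0) * 1 + (0) * 0 + (ζ 0 0 2) * 1) + (1 * (ζ 0 0 1 + ζ 0 0 2) + 0 * (ζ 1 0 1 + ζ 1 0 2 + ζ 3 0 1 + ζ 3 0 2) + 0 * (0) + 0 * (ζ 1 0 1 + ζ 1 0 2) + 0 * (ζ 1 0 1 + ζ 1 0 2 + ζ 3 0 1 + ζ 3 0 2))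
      linear_combination ((-1)*ζ 0 0 2) * h2
    | 0, 0, 2 =>
      show ζ 0 0 2 = ((0) * 0 + (0) * 0 + (ζ 0 0 3) * 0 + (ζ 0 0 0 + ζ 0 0 2 + ζ 2 0 1 + ζ 2 0 2) * 0 + (ζ 0 0 2) * 1 + (ζ 0 0 2) * 0) + (0 * (ζ 1 0 1 + ζ 1 0 2) + 0 * (ζ 2 0 1 + ζ 2 0 2) + 0 * (ζ 1 0 1 + ζ 1 0 2) + 0 * (ζ 2 0 1 + ζ 2 0 2) + 0 * (ζ 1 0 1 + ζ 1 0 2 + ζ 3 0 1 + ζ 3 0 2) + 0 * (ζ 0 0 1 + ζ 0 0 2))
      linear_combination (0 : k) * h2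
    | 0, 0, 3 =>
      show ζ 0 0 3 = ((0) * 1 + (0) * 1 + (ζ 0 0 3) * 1 + (ζ 0 0 3) * 0 + (ζ 0 0 2) * 0) + (0 * (ζ 1 0 1 + ζ 1 0 2 + ζ 3 0 1 + ζ 3 0 2) + 0 * (0) + 0 * (0) + 0 * (ζ 1 0 1 + ζ 1 0 2) + 0 * (ζ 0 0 1 + ζ 0 0 2))
      linear_combination (0 : k) * h2
    | 1, 0, 0 =>
      show ζ 1 0 0 = ((0) * 0 + (0) * 0 + (ζ 1 0 0 + ζ 1 0 1) * 1 + (ζ 1 0 1) * 1) + (0 * (ζ 2 0 1 + ζ 2 0 2) + 0 * (ζ 0 0 1 + ζ 0 0 2) + 0 * (0) + 0 * (ζ 1 0 1 + ζ 1 0 2 + ζ 3 0 1 + ζ 3 0 2))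
      linear_combination ((-1)*ζ 1 0 1) * h2
    | 1, 0, 1 =>
      show ζ 1 0 1 = ((0) * 0 + (0) * 1 + (0) * 1 + (0) * 0 + (ζ 1 0 1) * 1) + (0 * (ζ 0 0 1 + ζ 0 0 2) + 0 * (ζ 1 0 1 + ζ 1 0 2 + ζ 3 0 1 + ζ 3 0 2) + 0 * (0) + 0 * (ζ 1 0 1 + ζ 1 0 2) + 0 * (ζ 1 0 1 + ζ 1 0 2 + ζ 3 0 1 + ζ 3 0 2))
      linear_combination (0 : k) * h2
    | 1, 0, 2 =>
      show ζ 1 0 2 = ((0) * 0 + (0) * 0 + (ζ 1 0 1 + ζ 1 0 2 + ζ 1 0 3 + ζ 3 0 1 + ζ 3 0 2) * 0 + (ζ 1 0 0 + ζ 1 0 1) * 0 + (ζ 1 0 1) * 1 + (ζ 1 0 1) * 0) + (1 * (ζ 1 0 1 + ζ 1 0 2) + 0 * (ζ 2 0 1 + ζ 2 0 2) + 0 * (ζ 1 0 1 + ζ 1 0 2) + 0 * (ζ 2 0 1 + ζ 2 0 2) + 0 * (ζ 1 0 1 + ζ 1 0 2 + ζ 3 0 1 + ζ 3 0 2) + 0 * (ζ 0 0 1 + ζ 0 0 2))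
      linear_combination ((-1)*ζ 1 0 1) * h2
    | 1, 0, 3 =>
      show ζ 1 0 3 = ((0) * 1 + (0) * 1 + (ζ 1 0 1 + ζ 1 0 2 + ζ 1 0 3 + ζ 3 0 1 + ζ 3 0 2) * 1 + (ζ 1 0 1 + ζ 1 0 2 + ζ 1 0 3 + ζ 3 0 1 + ζ 3 0 2) * 0 + (ζ 1 0 1) * 0) + (1 * (ζ 1 0 1 + ζ 1 0 2 + ζ 3 0 1 + ζ 3 0 2) + 1 * (0) + 0 * (0) + 0 * (ζ 1 0 1 + ζ 1 0 2) + 0 * (ζ 0 0 1 + ζ 0 0 2))
      linear_combination ((-1)*ζ 1 0 1 + (-1)*ζ 1 0 2 + (-1)*ζ 3 0 1 + (-1)*ζ 3 0 2) * h2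
    | 2, 0, 0 =>
      show ζ 2 0 0 = ((0) * 0 + (0) * 0 + (ζ 0 0 1 + ζ 0 0 2 + ζ 2 0 0 + ζ 2 0 1) * 1 + (ζ 2 0 1) * 1) + (0 * (ζ 2 0 1 + ζ 2 0 2) + 1 * (ζ 0 0 1 + ζ 0 0 2) + 0 * (0) + 0 * (ζ 1 0 1 + ζ 1 0 2 + ζ 3 0 1 + ζ 3 0 2))
      linear_combination ((-1)*ζ 0 0 1 + (-1)*ζ 0 0 2 + (-1)*ζ 2 0 1) * h2
    | 2, 0, 1 =>
      show ζ 2 0 1 = ((0) * 0 + (0) * 1 + (0) * 1 + (0) * 0 + (ζ 2 0 1) * 1) + (0 * (ζ 0 0 1 + ζ 0 0 2) + 0 * (ζ 1 0 1 + ζ 1 0 2 + ζ 3 0 1 + ζ 3 0 2) + 0 * (0) + 0 * (ζ 1 0 1 + ζ 1 0 2) + 0 * (ζ 1 0 1 + ζ 1 0 2 + ζ 3 0 1 + ζ 3 0 2))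
      linear_combination (0 : k) * h2
    | 2, 0, 2 =>
      show ζ 2 0 2 = ((0) * 0 + (0) * 0 + (ζ 2 0 3) * 0 + (ζ 0 0 1 + ζ 0 0 2 + ζ 2 0 0 + ζ 2 0 1) * 0 + (ζ 2 0 1) * 1 + (ζ 2 0 1) * 0) + (0 * (ζ 1 0 1 + ζ 1 0 2) + 1 * (ζ 2 0 1 + ζ 2 0 2) + 0 * (ζ 1 0 1 + ζ 1 0 2) + 0 * (ζ 2 0 1 + ζ 2 0 2) + 0 * (ζ 1 0 1 + ζ 1 0 2 + ζ 3 0 1 + ζ 3 0 2) + 0 * (ζ 0 0 1 + ζ 0 0 2))
      linear_combination ((-1)*ζ 2 0 1) * h2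
    | 2, 0, 3 =>
      show ζ 2 0 3 = ((0) * 1 + (0) * 1 + (ζ 2 0 3) * 1 + (ζ 2 0 3) * 0 + (ζ 2 0 1) * 0) + (0 * (ζ 1 0 1 + ζ 1 0 2 + ζ 3 0 1 + ζ 3 0 2) + 0 * (0) + 0 * (0) + 0 * (ζ 1 0 1 + ζ 1 0 2) + 0 * (ζ 0 0 1 + ζ 0 0 2))
      linear_combination (0 : k) * h2
    | 3, 0, 0 =>
      show ζ 3 0 0 = ((0) * 0 + (0) * 0 + (ζ 3 0 0 + ζ 3 0 2) * 1 + (ζ 3 0 2) * 1) + (0 * (ζ 2 0 1 + ζ 2 0 2) + 0 * (ζ 0 0 1 + ζ 0 0 2) + 0 * (0) + 0 * (ζ 1 0 1 + ζ 1 0 2 + ζ 3 0 1 + ζ 3 0 2))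
      linear_combination ((-1)*ζ 3 0 2) * h2
    | 3, 0, 1 =>
      show ζ 3 0 1 = ((0) * 0 + (0) * 1 + (0) * 1 + (0) * 0 + (ζ 3 0 2) * 1) + (0 * (ζ 0 0 1 + ζ 0 0 2) + 1 * (ζ 1 0 1 + ζ 1 0 2 + ζ 3 0 1 + ζ 3 0 2) + 1 * (0) + 1 * (ζ 1 0 1 + ζ 1 0 2) + 0 * (ζ 1 0 1 + ζ 1 0 2 + ζ 3 0 1 + ζ 3 0 2))
      linear_combination ((-1)*ζ 3 0 2 + (-1)*ζ 1 0 1 + (-1)*ζ 1 0 2) * h2
    | 3, 0, 2 =>
      show ζ 3 0 2 = ((0) * 0 + (0) * 0 + (ζ 3 0 3) * 0 + (ζ 3 0 0 + ζ 3 0 2) * 0 + (ζ 3 0 2) * 1 + (ζ 3 0 2) * 0) + (0 * (ζ 1 0 1 + ζ 1 0 2) + 0 * (ζ 2 0 1 + ζ 2 0 2) + 0 * (ζ 1 0 1 + ζ 1 0 2) + 0 * (ζ 2 0 1 + ζ 2 0 2) + 0 * (ζ 1 0 1 + ζ 1 0 2 + ζ 3 0 1 + ζ 3 0 2) + 0 * (ζ 0 0 1 + ζ 0 0 2))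
      linear_combination (0 : k) * h2
    | 3, 0, 3 =>
      show ζ 3 0 3 = ((0) * 1 + (0) * 1 + (ζ 3 0 3) * 1 + (ζ 3 0 3) * 0 + (ζ 3 0 2) * 0) + (0 * (ζ 1 0 1 + ζ 1 0 2 + ζ 3 0 1 + ζ 3 0 2) + 0 * (0) + 0 * (0) + 0 * (ζ 1 0 1 + ζ 1 0 2) + 0 * (ζ 0 0 1 + ζ 0 0 2))
      linear_combination (0 : k) * h2

end Pool.Agent.helper17.Tilt
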