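import Pool.Agent.helper17.Tilt.Gam

/-!
Modules over `Gam L` given by complexes of projective `L`-modules.
-/

set_option autoImplicit false
universe u v

namespace Pool.Agent.helper17.Tilt

open Gam

variable {L : Type u} [Ring L]

/-- Combinatorial data of a complex of modules `L e_j`. -/
structure Dat (e : Fin 3 → L) where
  G : Type
  [fG : Fintype G]
  [dG : DecidableEq G]
  t : G → Fin 3
  p : G → ℕ
  d : G → G → L
  d_left : ∀ g g', e (t g) * d g g' = d g g'
  d_right : ∀ g g', d g g' * e (t g') = d g g'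
  d_pos : ∀ g g', d g g' ≠ 0 → p g' = p g + 1
  d_sq : ∀ g g'', ∑ g', d g g' * d g' g'' = 0

attribute [instance] Dat.fG Dat.dG

variable {e : Fin 3 → L}

/-- The module attached to `U`. -/
def modCarrier (U : Dat e) : AddSubgroup (U.G → L) where
  carrier := {x | (∀ g, x g * e (U.t g) = x g) ∧ ∀ g, 6 < U.p g → x g = 0}
  add_mem' := by
    rintro x y ⟨h1, h2⟩ ⟨h3, h4⟩
    exact ⟨fun g => by simp [add_mul, h1, h3], fun g hg => by simp [h2 g hg, h4 g hg]⟩
  zero_mem' := by simp
  neg_mem' := by
    rintro x ⟨h1, h2⟩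
    exact ⟨fun g => by simp [h1], fun g hg => by simp [h2 g hg]⟩

/-- The module attached to `U`. -/
def MU (U : Dat e) : Type u := modCarrier U

namespace MU

variable {U : Dat e}

instance : AddCommGroup (MU U) := inferInstanceAs (AddCommGroup (modCarrier U))

/-- coordinates -/
def c (x : MU U) : U.G → L := x.1

/-- constructor -/
def mk' (x : U.G → L) (h1 : ∀ g, x g * e (U.t g) = x g) (h2 : ∀ g, 6 < U.p g → x g = 0) : MU U :=
  ⟨x, h1, h2⟩

instance : CoeFun (MU U) (fun _ => U.G → L) := ⟨c⟩

@[simp] theorem mk'_apply (x : U.G → L) (h1) (h2) (g : U.G) : (mk' (U := U) x h1 h2) g = x g := rfl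

theorem ext' {x y : MU U} (h : ∀ g, x g = y g) : x = y := Subtype.ext (funext h)

theorem coe_mk' (x : U.G → L) (h1) (h2) : c (mk' (U := U) x h1 h2) = x := rfl

theorem mul_e (x : MU U) (g : U.G) : x g * e (U.t g) = x g := x.2.1 g
theorem gt (x : MU U) {g : U.G} (h : 6 < U.p g) : x g = 0 := x.2.2 g h

@[simp] theorem add_apply (x y : MU U) (g : U.G) : (x + y) g = x g + y g := rfl
@[simp] theorem zero_apply (g : U.G) : (0 : MU U) g = 0 := rfl
@[simp] theorem neg_apply (x : MU U) (g : U.G) : (-x) g = -x g := rfl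
@[simp] theorem sub_apply (x y : MU U) (g : U.G) : (x - y) g = x g - y g := rfl

/-- evaluation -/
def evalHom (g : U.G) : MU U →+ L where
  toFun x := x g
  map_zero' := rfl
  map_add' _ _ := rfl

theorem sum_apply {ι : Type*} (s : Finset ι) (x : ι → MU U) (g : U.G) :
    (∑ i ∈ s, x i) g = ∑ i ∈ s, x i g :=
  map_sum (evalHom g) x s

/-- The differential on coordinates. -/
def dd (U : Dat e) (x : U.G → L) (g : U.G) : L := ∑ g', x g' * U.d g' g

theorem dd_mul_e (x : U.G → L) (g : U.G) : dd U x g * e (U.t g) = dd U x g := by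
  rw [dd, Finset.sum_mul]
  exact Finset.sum_congr rfl fun g' _ => by rw [mul_assoc, U.d_right]

theorem dd_dd (x : U.G → L) (g : U.G) : dd U (dd U x) g = 0 := by
  simp only [dd, Finset.sum_mul]
  rw [Finset.sum_comm]
  refine Finset.sum_eq_zero fun g' _ => ?_
  simp only [mul_assoc]
  rw [← Finset.mul_sum, U.d_sq, mul_zero]

theorem dd_scale (c : ℕ → L) (x : U.G → L) (g : U.G) :
    dd U (fun g' => c (U.p g') * x g') g = c (U.p g - 1) * dd U x g := by
  rw [dd, dd, Finset.mul_sum]
  refine Finset.sum_congr rfl fun g' _ => ?_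
  by_cases h : U.d g' g = 0
  · simp [h]
  · have := U.d_pos _ _ h
    have h2 : U.p g - 1 = U.p g' := by omega
    rw [h2, mul_assoc]

theorem dd_add (x y : U.G → L) (g : U.G) :
    dd U (fun g' => x g' + y g') g = dd U x g + dd U y g := by
  simp [dd, add_mul, Finset.sum_add_distrib]

theorem dd_zero_pos (x : U.G → L) (g : U.G) (h : U.p g = 0) : dd U x g = 0 := by
  rw [dd]
  refine Finset.sum_eq_zero fun g' _ => ?_
  by_cases hd : U.d g' g = 0
  · simp [hd]
  · have := U.d_pos _ _ hd
    omega

instance : SMul (Gam L) (MU U) := ⟨fun γ x =>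
  mk' (fun g => γ.a (U.p g) * x g + γ.b (U.p g) * dd U x g)
    (fun g => by rw [add_mul, mul_assoc, mul_assoc, mul_e, dd_mul_e])
    (fun g hg => by rw [a_gt _ hg, b_gt _ hg]; simp)⟩

theorem smul_apply (γ : Gam L) (x : MU U) (g : U.G) :
    (γ • x) g = γ.a (U.p g) * x g + γ.b (U.p g) * dd U x g := rfl

instance : Module (Gam L) (MU U) where
  one_smul x := by
    apply ext'
    intro g
    rw [smul_apply]
    by_cases h : U.p g ≤ 6
    · simp [h]
    · simp [h, gt x (not_le.1 h)]
  mul_smul γ γ' x := by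
    apply ext'
    intro g
    have h1 : dd U (γ' • x : MU U) g = γ'.a (U.p g - 1) * dd U x g := by
      have : (γ' • x : MU U).c = fun g' => γ'.a (U.p g') * x g' + γ'.b (U.p g') * dd U x g' := rfl
      rw [this, dd_add, dd_scale, dd_scale, dd_dd, mul_zero, add_zero]
    rw [smul_apply, smul_apply, smul_apply, h1]
    simp only [a_mul, b_mul, mul_add, add_mul, mul_assoc, add_assoc]
  smul_zero γ := by
    apply ext'
    intro g
    rw [smul_apply]
    simp [dd]
  smul_add γ x y := by
    apply ext'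
    intro g
    have : dd U (x + y : MU U) g = dd U x g + dd U y g := dd_add _ _ _
    rw [smul_apply, this, add_apply, add_apply, smul_apply, smul_apply]
    simp only [mul_add]
    abel
  add_smul γ γ' x := by
    apply ext'
    intro g
    rw [add_apply, smul_apply, smul_apply, smul_apply]
    simp only [a_add, b_add, Pi.add_apply, add_mul]
    abel
  zero_smul x := by
    apply ext'
    intro g
    rw [smul_apply]
    simp

theorem diag_smul (x : L) (m : MU U) (g : U.G) : (diag x • m) g = x * m g := by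
  rw [smul_apply]
  by_cases h : U.p g ≤ 6
  · simp [h]
  · simp [h, gt m (not_le.1 h)]

theorem s_smul (m : MU U) (g : U.G) (h : U.p g ≤ 6) : ((s : Gam L) • m) g = dd U m g := by
  rw [smul_apply]
  by_cases h0 : U.p g = 0
  · rw [dd_zero_pos _ _ h0]; simp
  · have : 1 ≤ U.p g := by omega
    simp [this, h]

theorem s_smul' (m : MU U) (g : U.G) (h : U.p g = 0 ∨ 6 < U.p g) : ((s : Gam L) • m) g = 0 := by
  rw [smul_apply]
  rcases h with h | h
  · rw [dd_zero_pos _ _ h]; simp
  · rw [b_gt _ h]; simp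

theorem f_smul (q : ℕ) (m : MU U) (g : U.G) :
    ((f q : Gam L) • m) g = if U.p g = q then m g else 0 := by
  rw [smul_apply, a_f]
  by_cases h : U.p g ≤ 6
  · by_cases h2 : U.p g = q
    · simp [h2, h2 ▸ h]
    · simp [h2]
  · simp [h, gt m (not_le.1 h)]

/-- generators -/
def gen (he : ∀ t, e t * e t = e t) (g : U.G) : MU U :=
  mk' (fun g' => if g' = g ∧ U.p g ≤ 6 then e (U.t g) else 0) (fun g' => by
    by_cases h : g' = g ∧ U.p g ≤ 6
    · obtain ⟨rfl, h⟩ := h
      simp [h, he]
    · simp [h]) (fun g' hg' => by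
    by_cases h : g' = g ∧ U.p g ≤ 6
    · obtain ⟨rfl, h⟩ := h
      omega
    · simp [h])

theorem gen_apply (he : ∀ t, e t * e t = e t) (g g' : U.G) :
    gen he g g' = if g' = g ∧ U.p g ≤ 6 then e (U.t g) else 0 := rfl

theorem diag_e_gen (he : ∀ t, e t * e t = e t) (g : U.G) :
    diag (e (U.t g)) • gen he g = gen he g := by
  apply ext'
  intro g'
  rw [diag_smul, gen_apply]
  split_ifs <;> simp [he]

theorem f_gen (he : ∀ t, e t * e t = e t) (g : U.G) :
    (f (U.p g) : Gam L) • gen he g = gen he g := by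
  apply ext'
  intro g'
  rw [f_smul, gen_apply]
  by_cases h : g' = g ∧ U.p g ≤ 6
  · simp [h]
  · simp [h]

theorem s_gen (he : ∀ t, e t * e t = e t) (g : U.G) :
    (s : Gam L) • gen he g = ∑ g', diag (U.d g g') • gen he g' := by
  apply ext'
  intro h
  rw [sum_apply]
  simp only [diag_smul, gen_apply]
  have h1 : ∑ g', U.d g g' * (if h = g' ∧ U.p g' ≤ 6 then e (U.t g') else 0) =
      if U.p h ≤ 6 then U.d g h else 0 := by
    rw [Finset.sum_eq_single h]
    · by_cases hp : U.p h ≤ 6
      · simp [hp, U.d_right]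
      · simp [hp]
    · intro g' _ hne
      have : ¬ (h = g') := fun hh => hne hh.symm
      simp [this]
    · simp
  rw [h1]
  by_cases hp : U.p h ≤ 6
  · rw [s_smul _ _ hp, if_pos hp, dd, Finset.sum_eq_single g]
    · rw [gen_apply]
      by_cases hd : U.d g h = 0
      · simp [hd]
      · have := U.d_pos _ _ hd
        have h2 : U.p g ≤ 6 := by omega
        simp [h2, U.d_left]
    · intro g' _ hne
      rw [gen_apply]
      simp [hne]
    · simp
  · rw [s_smul' _ _ (Or.inr (not_le.1 hp)), if_neg hp]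

theorem eq_sum_gen (he : ∀ t, e t * e t = e t) (x : MU U) :
    x = ∑ g, diag (x g) • gen he g := by
  apply ext'
  intro h
  rw [sum_apply]
  simp only [diag_smul, gen_apply]
  rw [Finset.sum_eq_single h]
  · by_cases hp : U.p h ≤ 6
    · simp [hp, mul_e]
    · simp [hp, gt x (not_le.1 hp)]
  · intro g' _ hne
    have : ¬ (h = g') := fun hh => hne hh.symm
    simp [this]
  · simp

section Lift

variable {N : Type v} [AddCommGroup N] [Module (Gam L) N]

/-- The universal property of `MU U`. -/
def lift (n : U.G → N)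
    (hf : ∀ g, (f (U.p g) : Gam L) • n g = n g)
    (hs : ∀ g, (s : Gam L) • n g = ∑ g', diag (U.d g g') • n g') : MU U →ₗ[Gam L] N where
  toFun x := ∑ g, diag (x g) • n g
  map_add' x y := by
    simp [map_add, add_smul, Finset.sum_add_distrib]
  map_smul' γ x := by
    simp only [RingHom.id_apply]
    rw [Finset.smul_sum]
    have h1 : ∀ (g : U.G) (h : ℕ → L) (y : L), lo h • diag y • n g = diag (h (U.p g) * y) • n g := by
      intro g h y
      conv_lhs => rw [← hf g]
      conv_rhs => rw [← hf g]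
      rw [← mul_smul, ← mul_smul, ← mul_smul, ← lo_diag_f, mul_assoc]
    have h2 : ∀ g, γ • diag (x g) • n g = diag (γ.a (U.p g) * x g) • n g +
        ∑ g', diag (γ.b (U.p g') * (x g * U.d g g')) • n g' := by
      intro g
      conv_lhs => rw [decomp γ]
      rw [add_smul, h1, mul_smul, ← mul_smul s, s_mul_diag, mul_smul _ s, hs, Finset.smul_sum,
        Finset.smul_sum]
      congr 1
      refine Finset.sum_congr rfl fun g' _ => ?_
      rw [← mul_smul (diag (x g)), ← map_mul, h1]
    have h3 : ∀ g, diag ((γ • x : MU U) g) • n g = diag (γ.a (U.p g) * x g) • n g +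
        ∑ g', diag (γ.b (U.p g) * (x g' * U.d g' g)) • n g := by
      intro g
      rw [smul_apply, map_add, add_smul, dd, Finset.mul_sum, map_sum, Finset.sum_smul]
    simp only [h2, h3]
    rw [Finset.sum_add_distrib, Finset.sum_add_distrib]
    congr 1
    exact Finset.sum_comm

theorem lift_apply (n : U.G → N)
    (hf : ∀ g, (f (U.p g) : Gam L) • n g = n g)
    (hs : ∀ g, (s : Gam L) • n g = ∑ g', diag (U.d g g') • n g') (x : MU U) :
    lift n hf hs x = ∑ g, diag (x g) • n g := rfl

theorem map_eq_sum (he : ∀ t, e t * e t = e t) (φ : MU U →ₗ[Gam L] N) (x : MU U) :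
    φ x = ∑ g, diag (x g) • φ (gen he g) := by
  conv_lhs => rw [eq_sum_gen he x]
  simp [map_sum]

theorem hom_ext (he : ∀ t, e t * e t = e t) {φ ψ : MU U →ₗ[Gam L] N}
    (h : ∀ g, U.p g ≤ 6 → φ (gen he g) = ψ (gen he g)) : φ = ψ := by
  ext x
  rw [map_eq_sum he, map_eq_sum he ψ]
  refine Finset.sum_congr rfl fun g _ => ?_
  by_cases hp : U.p g ≤ 6
  · rw [h g hp]
  · rw [gt x (not_le.1 hp)]; simp

theorem lift_gen (he : ∀ t, e t * e t = e t) (n : U.G → N)
    (hf : ∀ g, (f (U.p g) : Gam L) • n g = n g)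
    (hs : ∀ g, (s : Gam L) • n g = ∑ g', diag (U.d g g') • n g')
    (ht : ∀ g, diag (e (U.t g)) • n g = n g) (g : U.G) : lift n hf hs (gen he g) = n g := by
  rw [lift_apply, Finset.sum_eq_single g]
  · rw [gen_apply]
    by_cases hp : U.p g ≤ 6
    · simp [hp, ht]
    · have := hf g
      rw [f_gt (not_le.1 hp), zero_smul] at this
      rw [← this, smul_zero]
  · intro g' _ hne
    rw [gen_apply]
    simp [hne]
  · simp

end Lift

instance finite_inst [h : Fact (∀ t, e t * e t = e t)] : Module.Finite (Gam L) (MU U) := by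
  let φ : (U.G → Gam L) →ₗ[Gam L] MU U :=
    { toFun := fun γ => ∑ g, γ g • gen h.out g
      map_add' := fun x y => by simp [add_smul, Finset.sum_add_distrib]
      map_smul' := fun c x => by simp [mul_smul, Finset.smul_sum] }
  refine Module.Finite.of_surjective φ ?_
  intro x
  exact ⟨fun g => diag (x g), (eq_sum_gen h.out x).symm⟩

end MU

end Pool.Agent.helper17.Tilt
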