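import Pool.Agent.helper17.Tilt.Dat

/-!
Vanishing of `Ext` groups of the modules `MU U`.
-/

set_option autoImplicit false
universe u v
open CategoryTheory

namespace Pool.Agent.helper17.Tilt
open Gam

variable {L : Type u} [Ring L] {e : Fin 3 → L}

/-- the shifted complex (we are in characteristic two, no signs) -/
abbrev Dat.shift (U : Dat e) : Dat e where
  G := U.G
  t := U.t
  p := fun g => U.p g + 1
  d := U.d
  d_left := U.d_left
  d_right := U.d_right
  d_pos := fun g g' h => by rw [U.d_pos g g' h]
  d_sq := U.d_sq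

/-- the sum of the contractible complexes on the generators -/
abbrev Dat.contr (he : ∀ t, e t * e t = e t) (U : Dat e) : Dat e where
  G := U.G ⊕ U.G
  t := Sum.elim U.t U.t
  p := Sum.elim U.p (fun g => U.p g + 1)
  d := fun x y => Sum.elim (fun _ => 0)
    (fun g' => Sum.elim (fun g => if g = g' then e (U.t g) else 0) (fun _ => 0) x) y
  d_left := by
    rintro (g | g) (g' | g') <;> simp [he]
  d_right := by
    rintro (g | g) (g' | g') <;> simp
    by_cases h : g = g'
    · subst h; simp [he]
    · simp [h]
  d_pos := by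
    rintro (g | g) (g' | g') h <;> simp at h ⊢
    rw [h.1]
  d_sq := by
    rintro (g | g) (g' | g') <;> simp

variable (he : ∀ t, e t * e t = e t)

theorem contr_d_lr (U : Dat e) (g g' : U.G) :
    (U.contr he).d (Sum.inl g) (Sum.inr g') = if g = g' then e (U.t g) else 0 := rfl
theorem contr_d_ll (U : Dat e) (g g' : U.G) :
    (U.contr he).d (Sum.inl g) (Sum.inl g') = 0 := rfl
theorem contr_d_rr (U : Dat e) (g g' : U.G) :
    (U.contr he).d (Sum.inr g) (Sum.inr g') = 0 := rfl
theorem contr_d_rl (U : Dat e) (g g' : U.G) :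
    (U.contr he).d (Sum.inr g) (Sum.inl g') = 0 := rfl

section maps
variable {N : Type v} [AddCommGroup N] [Module (Gam L) N]

/-- Maps out of a contractible complex. -/
def contrLift (U : Dat e) (h : U.G → N) (ht : ∀ g, diag (e (U.t g)) • h g = h g)
    (hf : ∀ g, (f (U.p g) : Gam L) • h g = h g) : MU (U.contr he) →ₗ[Gam L] N :=
  MU.lift (U := U.contr he) (fun x => Sum.elim (fun g => h g) (fun g => (s : Gam L) • h g) x)
    (by
      rintro (g | g)
      · exact hf g
      · show (f (U.p g + 1) : Gam L) • (s : Gam L) • h g = (s : Gam L) • h g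
        rw [← mul_smul, ← s_mul_f, mul_smul, hf])
    (by
      rintro (g | g)
      · rw [Fintype.sum_sum_type]
        simp only [map_zero, zero_smul, Finset.sum_const_zero, zero_add,
          Sum.elim_inl, Sum.elim_inr]
        rw [Finset.sum_eq_single g]
        · rw [if_pos rfl, ← mul_smul, ← s_mul_diag, mul_smul, ht]
        · intro g' _ hne
          rw [if_neg (fun hh => hne hh.symm)]; simp
        · simp
      · rw [Fintype.sum_sum_type]
        simp [← mul_smul, s_mul_s])

theorem contrLift_apply (U : Dat e) (h : U.G → N) (ht : ∀ g, diag (e (U.t g)) • h g = h g)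
    (hf : ∀ g, (f (U.p g) : Gam L) • h g = h g) (x : MU (U.contr he)) :
    contrLift he U h ht hf x = ∑ g, diag (x (Sum.inl g)) • h g +
      ∑ g, diag (x (Sum.inr g)) • (s : Gam L) • h g := by
  rw [contrLift, MU.lift_apply, Fintype.sum_sum_type]
  rfl

end maps

/-- the projection from the contractible complex -/
def piMap (U : Dat e) : MU (U.contr he) →ₗ[Gam L] MU U :=
  contrLift he U (MU.gen he) (MU.diag_e_gen he) (MU.f_gen he)

theorem piMap_apply (U : Dat e) (x : MU (U.contr he)) (h : U.G) (hp : U.p h ≤ 6) :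
    piMap he U x h = x (Sum.inl h) + ∑ g, x (Sum.inr g) * U.d g h := by
  rw [piMap, contrLift_apply, MU.add_apply, MU.sum_apply, MU.sum_apply]
  congr 1
  · simp only [MU.diag_smul, MU.gen_apply]
    rw [Finset.sum_eq_single h]
    · simp only [true_and, hp, if_true]
      exact MU.mul_e x (Sum.inl h)
    · intro g' _ hne
      have : ¬ (h = g') := fun hh => hne hh.symm
      simp [this]
    · simp
  · refine Finset.sum_congr rfl fun g _ => ?_
    rw [MU.diag_smul, MU.s_smul _ _ hp, MU.dd, Finset.sum_eq_single g]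
    · rw [MU.gen_apply]
      by_cases hd : U.d g h = 0
      · simp [hd]
      · have := U.d_pos _ _ hd
        have h2 : U.p g ≤ 6 := by omega
        simp [h2, U.d_left]
    · intro g' _ hne
      rw [MU.gen_apply]
      simp [hne]
    · simp

theorem piMap_apply' (U : Dat e) (x : MU (U.contr he)) (h : U.G) :
    piMap he U x h = x (Sum.inl h) + ∑ g, x (Sum.inr g) * U.d g h := by
  by_cases hp : U.p h ≤ 6
  · exact piMap_apply he U x h hp
  · rw [MU.gt _ (not_le.1 hp)]
    have h1 : x (Sum.inl h) = 0 := MU.gt x (g := Sum.inl h) (not_le.1 hp)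
    rw [h1, zero_add]
    symm
    refine Finset.sum_eq_zero fun g _ => ?_
    by_cases hd : U.d g h = 0
    · simp [hd]
    · have := U.d_pos _ _ hd
      have h2 : x (Sum.inr g) = 0 := MU.gt x (g := Sum.inr g) (by
        show 6 < U.p g + 1
        omega)
      rw [h2, zero_mul]

theorem piMap_surj (U : Dat e) : Function.Surjective (piMap he U) := by
  intro y
  let x : MU (U.contr he) := MU.mk' (fun z => Sum.elim (fun g => y g) (fun _ => 0) z)
    (by rintro (g | g)
        · exact MU.mul_e y g
        · simp)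
    (by rintro (g | g) hg
        · exact MU.gt y hg
        · simp)
  refine ⟨x, ?_⟩
  apply MU.ext'
  intro h
  rw [piMap_apply']
  have h1 : x (Sum.inl h) = y h := rfl
  have h2 : ∀ g, x (Sum.inr g) = 0 := fun g => rfl
  simp [h1, h2]

variable (hL : ∀ x : L, -x = x)

theorem dd_scale' (U : Dat e) (c : ℕ → L) (x : U.G → L) (g : U.G) :
    MU.dd U (fun g' => c (U.p g' + 1) * x g') g = c (U.p g) * MU.dd U x g := by
  rw [MU.dd, MU.dd, Finset.mul_sum]
  refine Finset.sum_congr rfl fun g' _ => ?_
  by_cases h : U.d g' g = 0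
  · simp [h]
  · rw [← U.d_pos _ _ h, mul_assoc]

/-- the kernel of `piMap`, coordinates -/
def kapFun (U : Dat e) (y : U.G → L) : U.G ⊕ U.G → L :=
  Sum.elim (fun g => MU.dd U y g) (fun g => y g)

theorem dd_kapFun_inl (U : Dat e) (y : U.G → L) (g : U.G) :
    MU.dd (U.contr he) (kapFun U y) (Sum.inl g) = 0 := by
  rw [MU.dd]
  simp

theorem dd_kapFun_inr (U : Dat e) (y : U.G → L) (g : U.G) :
    MU.dd (U.contr he) (kapFun U y) (Sum.inr g) = MU.dd U y g := by
  rw [MU.dd, Fintype.sum_sum_type]
  simp only [Sum.elim_inl, Sum.elim_inr, mul_zero, Finset.sum_const_zero, add_zero]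
  rw [Finset.sum_eq_single g]
  · rw [if_pos rfl]
    exact MU.dd_mul_e y g
  · intro g' _ hne
    simp [hne]
  · simp

/-- the kernel of `piMap` -/
def kapMap (U : Dat e) : MU U.shift →ₗ[Gam L] MU (U.contr he) where
  toFun y := MU.mk' (kapFun U y.c)
    (by rintro (g | g)
        · exact MU.dd_mul_e (U := U) y.c g
        · exact MU.mul_e y g)
    (by rintro (g | g) hg
        · show MU.dd U y.c g = 0
          rw [MU.dd]
          refine Finset.sum_eq_zero fun g' _ => ?_
          by_cases hd : U.d g' g = 0
          · simp [hd]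
          · have := U.d_pos _ _ hd
            have h2 : y.c g' = 0 := MU.gt y (g := g') (by
              show 6 < U.p g' + 1
              have : 6 < U.p g := hg
              omega)
            rw [h2, zero_mul]
        · exact MU.gt y hg)
  map_add' x y := by
    apply MU.ext'
    rintro (g | g)
    · exact MU.dd_add (U := U) _ _ _
    · rfl
  map_smul' γ y := by
    apply MU.ext'
    rintro (g | g)
    · rw [RingHom.id_apply, MU.smul_apply]
      simp only [MU.mk'_apply, MU.coe_mk']
      rw [dd_kapFun_inl, mul_zero, add_zero]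
      show MU.dd U (fun g => γ.a (U.p g + 1) * y.c g + γ.b (U.p g + 1) * MU.dd U y.c g) g = _
      rw [MU.dd_add, dd_scale', dd_scale', MU.dd_dd, mul_zero, add_zero]
      rfl
    · rw [RingHom.id_apply, MU.smul_apply]
      simp only [MU.mk'_apply, MU.coe_mk']
      rw [dd_kapFun_inr]
      rfl

theorem kapMap_inl (U : Dat e) (y : MU U.shift) (g : U.G) :
    kapMap he U y (Sum.inl g) = MU.dd U y.c g := rfl
theorem kapMap_inr (U : Dat e) (y : MU U.shift) (g : U.G) :
    kapMap he U y (Sum.inr g) = y g := rfl

theorem kapMap_inj (U : Dat e) : Function.Injective (kapMap he U) := by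
  intro x y h
  apply MU.ext'
  intro g
  rw [← kapMap_inr he U x, ← kapMap_inr he U y, h]

include hL in
theorem kap_pi_exact (U : Dat e) : Function.Exact (kapMap he U) (piMap he U) := by
  intro x
  constructor
  · intro hx
    let y : MU U.shift := MU.mk' (fun g => x (Sum.inr g)) (fun g => MU.mul_e x (Sum.inr g))
      (fun g hg => MU.gt x (g := Sum.inr g) hg)
    refine ⟨y, ?_⟩
    apply MU.ext'
    rintro (g | g)
    · rw [kapMap_inl]
      have h1 := piMap_apply' he U x g
      rw [hx] at h1
      have h2 : x (Sum.inl g) = - ∑ g', x (Sum.inr g') * U.d g' g := by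
        rw [eq_neg_iff_add_eq_zero]; exact h1.symm
      rw [h2, hL]
      rfl
    · rfl
  · rintro ⟨y, rfl⟩
    apply MU.ext'
    intro g
    rw [piMap_apply', kapMap_inl]
    exact add_eq_zero_iff_eq_neg.2 (hL _).symm

/-- the short exact sequence -/
abbrev ses (U : Dat e) : ShortComplex (ModuleCat.{u} (Gam L)) :=
  ShortComplex.mk (ModuleCat.ofHom (kapMap he U)) (ModuleCat.ofHom (piMap he U)) (by
    rw [← ModuleCat.ofHom_comp, (kap_pi_exact he hL U).linearMap_comp_eq_zero]
    rfl)

theorem ses_shortExact (U : Dat e) : (ses he hL U).ShortExact :=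
  { exact := by
      rw [CategoryTheory.ShortComplex.ShortExact.moduleCat_exact_iff_function_exact]
      exact kap_pi_exact he hL U
    mono_f := by
      rw [ModuleCat.mono_iff_injective]
      exact kapMap_inj he U
    epi_g := by
      rw [ModuleCat.epi_iff_surjective]
      exact piMap_surj he U }

theorem contr_projective (U : Dat e) :
    Projective (ModuleCat.of (Gam L) (MU (U.contr he)) : ModuleCat.{u} (Gam L)) := by
  constructor
  intro E X φ ε hε
  rw [ModuleCat.epi_iff_surjective] at hε
  have h1 : ∀ g, ∃ a : E, ε a = φ (MU.gen he (Sum.inl g)) := fun g => hε _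
  choose a ha using h1
  refine ⟨ModuleCat.ofHom (contrLift he U (fun g => (diag (e (U.t g)) * f (U.p g)) • a g)
    (fun g => ?_) (fun g => ?_)), ?_⟩
  · rw [← mul_smul, ← mul_assoc, ← map_mul, he]
  · rw [← mul_smul, ← mul_assoc, f_mul_diag, mul_assoc, f_mul_f]
  · ext x
    simp only [ModuleCat.hom_comp, LinearMap.comp_apply, ModuleCat.hom_ofHom]
    rw [contrLift_apply, map_add, map_sum, map_sum]
    conv_rhs => rw [MU.map_eq_sum he, Fintype.sum_sum_type]
    have h2 : ∀ g, ε.hom ((diag (e (U.t g)) * f (U.p g)) • a g) = φ.hom (MU.gen he (Sum.inl g)) := by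
      intro g
      rw [map_smul]
      have : ε.hom (a g) = φ.hom (MU.gen he (Sum.inl g)) := ha g
      rw [this, mul_smul, ← map_smul, ← map_smul]
      have h3 := MU.f_gen (U := U.contr he) he (Sum.inl g)
      have h4 := MU.diag_e_gen (U := U.contr he) he (Sum.inl g)
      simp only [Sum.elim_inl] at h3 h4
      rw [h3, h4]
    congr 1
    · refine Finset.sum_congr rfl fun g _ => ?_
      rw [map_smul, h2]
    · refine Finset.sum_congr rfl fun g _ => ?_
      rw [map_smul, map_smul, h2, ← map_smul φ.hom s, MU.s_gen, Fintype.sum_sum_type]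
      congr 1
      congr 1
      simp only [Sum.elim_inl, Sum.elim_inr, map_zero, zero_smul, Finset.sum_const_zero, zero_add]
      rw [Finset.sum_eq_single g]
      · rw [if_pos rfl]
        exact MU.diag_e_gen (U := U.contr he) he (Sum.inr g)
      · intro g' _ hne
        rw [if_neg (fun hh => hne hh.symm)]; simp
      · simp

/-- The combinatorial form of the vanishing of `Ext^i`, `i ≥ 1`. -/
def ExtV (U : Dat e) (N : Type v) [AddCommGroup N] [Module (Gam L) N] (i : ℕ) : Prop :=
  ∀ n : U.G → N, (∀ g, diag (e (U.t g)) • n g = n g) →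
    (∀ g, (f (U.p g + i + 1) : Gam L) • n g = n g) →
    (∀ g, (s : Gam L) • n g = ∑ g', diag (U.d g g') • n g') →
    ∃ h : U.G → N, (∀ g, diag (e (U.t g)) • h g = h g) ∧
      (∀ g, (f (U.p g + i) : Gam L) • h g = h g) ∧
      ∀ g, n g = (s : Gam L) • h g + ∑ g', diag (U.d g g') • h g'

include he hL in
theorem ext_vanish (N : ModuleCat.{u} (Gam L)) [HasExt.{u} (ModuleCat.{u} (Gam L))] (i : ℕ) :
    ∀ (U : Dat e), ExtV U N i →
      Subsingleton (Abelian.Ext.{u} (ModuleCat.of (Gam L) (MU U) : ModuleCat.{u} (Gam L)) N (i+1)) := by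
  induction i with
  | zero =>
    intro U hU
    have hP := contr_projective he U
    refine subsingleton_of_forall_eq 0 fun x => ?_
    obtain ⟨x₁, hx₁⟩ := Abelian.Ext.contravariant_sequence_exact₃ (ses_shortExact he hL U) N x
      (by
        have : Subsingleton (Abelian.Ext.{u} (ses he hL U).X₂ N (0+1)) :=
          Abelian.Ext.subsingleton_of_projective _ _ _
        exact Subsingleton.elim _ _) (n₀ := 0) (by rfl)
    obtain ⟨ψ, rfl⟩ := Abelian.Ext.mk₀_bijective _ _ |>.2 x₁
    have he2 : ∀ g, diag (e (U.t g)) • ψ.hom (MU.gen (U := U.shift) he g) =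
        ψ.hom (MU.gen (U := U.shift) he g) := fun g => by
      rw [← map_smul, MU.diag_e_gen (U := U.shift) he g]
    have hf2 : ∀ g, (f (U.p g + 0 + 1) : Gam L) • ψ.hom (MU.gen (U := U.shift) he g) =
        ψ.hom (MU.gen (U := U.shift) he g) := fun g => by
      rw [← map_smul, add_zero, MU.f_gen (U := U.shift) he g]
    have hs2 : ∀ g, (s : Gam L) • ψ.hom (MU.gen (U := U.shift) he g) =
        ∑ g', diag (U.d g g') • ψ.hom (MU.gen (U := U.shift) he g') := fun g => by
      rw [← map_smul, MU.s_gen (U := U.shift) he g, map_sum]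
      exact Finset.sum_congr rfl fun g' _ => by rw [map_smul]
    obtain ⟨h, ht, hf, hh⟩ := hU (fun g => ψ.hom (MU.gen (U := U.shift) he g)) he2 hf2 hs2
    have hf' : ∀ g, (f (U.p g) : Gam L) • h g = h g := fun g => by
      have := hf g
      rwa [add_zero] at this
    have key : ψ = ModuleCat.ofHom (kapMap he U) ≫ ModuleCat.ofHom (contrLift he U h ht hf') := by
      ext x
      simp only [ModuleCat.hom_comp, LinearMap.comp_apply, ModuleCat.hom_ofHom]
      rw [contrLift_apply, MU.map_eq_sum (U := U.shift) he]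
      simp only [hh, kapMap_inl, kapMap_inr, MU.dd, map_sum, smul_add, Finset.smul_sum,
        Finset.sum_add_distrib, Finset.sum_smul]
      rw [add_comm]
      congr 1
      rw [Finset.sum_comm]
      refine Finset.sum_congr rfl fun g _ => Finset.sum_congr rfl fun g' _ => ?_
      rw [← mul_smul, ← map_mul]
    rw [← hx₁, key, ← Abelian.Ext.mk₀_comp_mk₀]
    exact (ses_shortExact he hL U).extClass_comp_assoc _
  | succ i ih =>
    intro U hU
    have hP := contr_projective he U
    refine subsingleton_of_forall_eq 0 fun x => ?_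
    obtain ⟨x₁, hx₁⟩ := Abelian.Ext.contravariant_sequence_exact₃ (ses_shortExact he hL U) N x
      (by
        have : Subsingleton (Abelian.Ext.{u} (ses he hL U).X₂ N (i+1+1)) :=
          Abelian.Ext.subsingleton_of_projective _ _ _
        exact Subsingleton.elim _ _) (n₀ := i+1) (by omega)
    have h1 : ExtV U.shift N i := by
      intro n h1 h2 h3
      have := hU n h1 (fun g => by
        rw [← add_assoc]
        have := h2 g
        rw [show U.p g + 1 + i + 1 = U.p g + i + 1 + 1 by omega] at this
        exact this) h3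
      obtain ⟨h, h4, h5, h6⟩ := this
      refine ⟨h, h4, fun g => ?_, h6⟩
      have := h5 g
      rw [show U.p g + (i + 1) = U.p g + 1 + i by omega] at this
      exact this
    have := ih U.shift h1
    rw [← hx₁, Subsingleton.elim x₁ 0, Abelian.Ext.comp_zero]

include he hL in
/-- projective dimension at most six -/
theorem ext_gt (N : ModuleCat.{u} (Gam L)) [HasExt.{u} (ModuleCat.{u} (Gam L))] (U : Dat e)
    (i : ℕ) (hi : 6 < i) :
      Subsingleton (Abelian.Ext.{u} (ModuleCat.of (Gam L) (MU U) : ModuleCat.{u} (Gam L)) N i) := by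
  obtain ⟨j, rfl⟩ : ∃ j, i = j + 1 := ⟨i - 1, by omega⟩
  refine ext_vanish he hL N j U ?_
  intro n h1 h2 h3
  have h0 : ∀ g, n g = 0 := fun g => by
    rw [← h2 g, f_gt (by omega), zero_smul]
  exact ⟨0, by simp, by simp, by simp [h0]⟩

end Pool.Agent.helper17.Tilt
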