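import Mathlib

/-!
The ring `Gam L`: the tensor product of a ring `L` with the path algebra of the linear quiver with
seven vertices modulo paths of length two.  Its modules are complexes of `L`-modules concentrated in
seven consecutive degrees.
-/

set_option autoImplicit false
universe u v

namespace Pool.Agent.helper17.Tilt

variable (L : Type u) [Ring L]

/-- The underlying group: pairs of sequences `a, b` supported on `{0..6}`, `b 0 = 0`. -/
def gamCarrier : AddSubgroup ((ℕ → L) × (ℕ → L)) where
  carrier := {x | (∀ q, 6 < q → x.1 q = 0) ∧ (∀ q, 6 < q → x.2 q = 0) ∧ x.2 0 = 0}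
  add_mem' := by
    rintro x y ⟨h1, h2, h3⟩ ⟨h4, h5, h6⟩
    refine ⟨fun q hq => ?_, fun q hq => ?_, ?_⟩
    · simp [h1 q hq, h4 q hq]
    · simp [h2 q hq, h5 q hq]
    · simp [h3, h6]
  zero_mem' := by simp
  neg_mem' := by
    rintro x ⟨h1, h2, h3⟩
    refine ⟨fun q hq => ?_, fun q hq => ?_, ?_⟩
    · simp [h1 q hq]
    · simp [h2 q hq]
    · simp [h3]

/-- The ring of the counterexample over `L`. -/
def Gam : Type u := gamCarrier L

variable {L}

namespace Gam

/-- diagonal part -/
def a (x : Gam L) : ℕ → L := x.1.1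
/-- arrow part; `b q` is the arrow from position `q-1` to position `q` -/
def b (x : Gam L) : ℕ → L := x.1.2

theorem a_gt (x : Gam L) {q : ℕ} (h : 6 < q) : x.a q = 0 := x.2.1 q h
theorem b_gt (x : Gam L) {q : ℕ} (h : 6 < q) : x.b q = 0 := x.2.2.1 q h
theorem b_zero (x : Gam L) : x.b 0 = 0 := x.2.2.2

theorem ext' {x y : Gam L} (h1 : x.a = y.a) (h2 : x.b = y.b) : x = y :=
  Subtype.ext (Prod.ext h1 h2)

/-- constructor -/
def mk' (a b : ℕ → L) (h1 : ∀ q, 6 < q → a q = 0) (h2 : ∀ q, 6 < q → b q = 0) (h3 : b 0 = 0) :
    Gam L := ⟨(a, b), h1, h2, h3⟩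

instance : AddCommGroup (Gam L) := inferInstanceAs (AddCommGroup (gamCarrier L))

@[simp] theorem a_mk' (a b : ℕ → L) (h1 h2 h3) : (mk' a b h1 h2 h3).a = a := rfl
@[simp] theorem b_mk' (a b : ℕ → L) (h1 h2 h3) : (mk' a b h1 h2 h3).b = b := rfl
@[simp] theorem a_add (x y : Gam L) : (x + y).a = x.a + y.a := rfl
@[simp] theorem b_add (x y : Gam L) : (x + y).b = x.b + y.b := rfl
@[simp] theorem a_zero' : (0 : Gam L).a = 0 := rfl
@[simp] theorem b_zero' : (0 : Gam L).b = 0 := rfl
@[simp] theorem a_neg (x : Gam L) : (-x).a = -x.a := rfl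
@[simp] theorem b_neg (x : Gam L) : (-x).b = -x.b := rfl

instance : Mul (Gam L) := ⟨fun x y => mk' (fun q => x.a q * y.a q)
  (fun q => x.a q * y.b q + x.b q * y.a (q-1))
  (fun q hq => by rw [a_gt x hq, zero_mul]) (fun q hq => by rw [a_gt x hq, b_gt x hq]; simp)
  (by rw [b_zero, b_zero]; simp)⟩

instance : One (Gam L) := ⟨mk' (fun q => if q ≤ 6 then 1 else 0) 0
  (fun q hq => by simp; omega) (fun q hq => by simp) (by simp)⟩

@[simp] theorem a_mul (x y : Gam L) (q : ℕ) : (x * y).a q = x.a q * y.a q := rfl
@[simp] theorem b_mul (x y : Gam L) (q : ℕ) :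
    (x * y).b q = x.a q * y.b q + x.b q * y.a (q-1) := rfl
@[simp] theorem a_one (q : ℕ) : (1 : Gam L).a q = if q ≤ 6 then 1 else 0 := rfl
@[simp] theorem b_one : (1 : Gam L).b = 0 := rfl

instance : Ring (Gam L) :=
  { (inferInstanceAs (AddCommGroup (Gam L)) : AddCommGroup (Gam L)) with
    mul := (· * ·)
    one := 1
    mul_assoc := by
      intro x y z
      apply ext'
      · funext q; simp [mul_assoc]
      · funext q; simp [mul_assoc, mul_add, add_mul, add_assoc]
    one_mul := by
      intro x
      apply ext'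
      · funext q
        by_cases hq : q ≤ 6
        · simp [hq]
        · simp [hq, a_gt x (not_le.1 hq)]
      · funext q
        by_cases hq : q ≤ 6
        · simp [hq]
        · simp [hq, b_gt x (not_le.1 hq)]
    mul_one := by
      intro x
      apply ext'
      · funext q
        by_cases hq : q ≤ 6
        · simp [hq]
        · simp [hq, a_gt x (not_le.1 hq)]
      · funext q
        by_cases hq : q ≤ 6
        · have : q - 1 ≤ 6 := by omega
          simp [this]
        · simp [b_gt x (not_le.1 hq)]
    left_distrib := by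
      intro x y z
      apply ext'
      · funext q; simp [mul_add]
      · funext q; simp [mul_add]; abel
    right_distrib := by
      intro x y z
      apply ext'
      · funext q; simp [add_mul]
      · funext q; simp [add_mul]; abel
    zero_mul := by
      intro x
      apply ext'
      · funext q; simp
      · funext q; simp
    mul_zero := by
      intro x
      apply ext'
      · funext q; simp
      · funext q; simp }

/-- embedding of sequences -/
def lo (f : ℕ → L) : Gam L := mk' (fun q => if q ≤ 6 then f q else 0) 0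
  (fun q hq => by simp; omega) (fun q hq => by simp) (by simp)

@[simp] theorem a_lo (f : ℕ → L) (q : ℕ) : (lo f).a q = if q ≤ 6 then f q else 0 := rfl
@[simp] theorem b_lo (f : ℕ → L) : (lo f).b = 0 := rfl

/-- diagonal embedding of `L`. -/
def diag : L →+* Gam L where
  toFun x := lo (fun _ => x)
  map_one' := by apply ext' <;> rfl
  map_mul' x y := by
    apply ext'
    · funext q; by_cases hq : q ≤ 6 <;> simp [hq]
    · funext q; simp
  map_zero' := by
    apply ext'
    · funext q; simp
    · rfl
  map_add' x y := by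
    apply ext'
    · funext q; by_cases hq : q ≤ 6 <;> simp [hq]
    · funext q; simp

@[simp] theorem a_diag (x : L) (q : ℕ) : (diag x).a q = if q ≤ 6 then x else 0 := rfl
@[simp] theorem b_diag (x : L) : (diag x).b = 0 := rfl

/-- the differential -/
def s : Gam L := mk' 0 (fun q => if 1 ≤ q ∧ q ≤ 6 then 1 else 0)
  (fun q hq => by simp) (fun q hq => by simp; omega) (by simp)

@[simp] theorem a_s : (s : Gam L).a = 0 := rfl
@[simp] theorem b_s (q : ℕ) : (s : Gam L).b q = if 1 ≤ q ∧ q ≤ 6 then 1 else 0 := rfl

/-- position idempotents -/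
def f (p : ℕ) : Gam L := lo (Pi.single p 1)

theorem a_f (p q : ℕ) : (f p : Gam L).a q = if q = p ∧ q ≤ 6 then 1 else 0 := by
  by_cases h : q = p
  · subst h; simp [f]
  · simp [f, h]

@[simp] theorem b_f (p : ℕ) : (f p : Gam L).b = 0 := rfl

theorem f_gt {p : ℕ} (hp : 6 < p) : (f p : Gam L) = 0 := by
  apply ext'
  · funext q; rw [a_f]; simp; omega
  · rfl

theorem s_mul_s : (s * s : Gam L) = 0 := by
  apply ext'
  · funext q; simp
  · funext q; simp

theorem s_mul_diag (x : L) : s * diag x = diag x * s := by
  apply ext'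
  · funext q; simp
  · funext q
    by_cases h : 1 ≤ q ∧ q ≤ 6
    · have h1 : q - 1 ≤ 6 := by omega
      simp [h, h1]
    · simp [h]

theorem f_mul_diag (p : ℕ) (x : L) : f p * diag x = diag x * f p := by
  apply ext'
  · funext q
    by_cases h : q ≤ 6 <;> simp [a_f, h]
  · funext q; simp

theorem f_mul_f (p : ℕ) : (f p * f p : Gam L) = f p := by
  apply ext'
  · funext q
    rw [a_mul, a_f]
    split_ifs <;> simp
  · funext q; simp

theorem f_mul_f_ne {p p' : ℕ} (h : p ≠ p') : (f p * f p' : Gam L) = 0 := by
  apply ext'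
  · funext q
    simp [a_f]
    intro h1 h2 h3; exact absurd (h1.symm.trans h3) (by intro h4; exact h (by omega))
  · funext q; simp

theorem s_mul_f (p : ℕ) : (s * f p : Gam L) = f (p+1) * s := by
  apply ext'
  · funext q; simp
  · funext q
    simp only [b_mul, a_s, Pi.zero_apply, zero_add, b_s, a_f, b_f, mul_zero]
    by_cases h : 1 ≤ q ∧ q ≤ 6
    · have h1 : q - 1 ≤ 6 := by omega
      by_cases h2 : q = p + 1
      · subst h2
        have h3 : p ≤ 6 := by omega
        simp [h, h3]
      · have h3 : q - 1 ≠ p := by omega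
        simp [h, h2, h3]
    · simp [h]

theorem lo_diag_f (g : ℕ → L) (x : L) (p : ℕ) :
    lo g * (diag x * f p) = diag (g p * x) * f p := by
  apply ext'
  · funext q
    by_cases h : q ≤ 6
    · by_cases h2 : q = p
      · subst h2; simp [a_f, h]
      · simp [a_f, h2]
    · simp [h]
  · funext q; simp

theorem decomp (x : Gam L) : x = lo x.a + lo x.b * s := by
  apply ext'
  · funext q
    by_cases h : q ≤ 6
    · simp [h]
    · simp [h, a_gt x (not_le.1 h)]
  · funext q
    by_cases h : q ≤ 6
    · by_cases h0 : q = 0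
      · subst h0; simp [b_zero]
      · have : 1 ≤ q := by omega
        simp [h, this]
    · simp [h, b_gt x (not_le.1 h)]

section Alg

variable {k : Type v} [CommRing k] [Algebra k L]

instance : SMul k (Gam L) := ⟨fun c x => mk' (fun q => c • x.a q) (fun q => c • x.b q)
  (fun q hq => by rw [a_gt x hq, smul_zero]) (fun q hq => by rw [b_gt x hq, smul_zero])
  (by rw [b_zero, smul_zero])⟩

@[simp] theorem a_smul (c : k) (x : Gam L) (q : ℕ) : (c • x).a q = c • x.a q := rfl
@[simp] theorem b_smul (c : k) (x : Gam L) (q : ℕ) : (c • x).b q = c • x.b q := rfl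

instance : Module k (Gam L) where
  one_smul x := by apply ext' <;> funext q <;> simp
  mul_smul c c' x := by apply ext' <;> funext q <;> simp [mul_smul]
  smul_zero c := by apply ext' <;> funext q <;> simp
  smul_add c x y := by apply ext' <;> funext q <;> simp
  add_smul c c' x := by apply ext' <;> funext q <;> simp [add_smul]
  zero_smul x := by apply ext' <;> funext q <;> simp

instance : Algebra k (Gam L) := Algebra.ofModule
  (fun c x y => by apply ext' <;> funext q <;> simp)
  (fun c x y => by apply ext' <;> funext q <;> simp)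

/-- coordinates -/
def coords (k : Type v) [CommRing k] [Algebra k L] :
    Gam L →ₗ[k] (Fin 7 → L) × (Fin 7 → L) where
  toFun x := (fun i => x.a i, fun i => x.b i)
  map_add' x y := rfl
  map_smul' c x := rfl

theorem coords_inj : Function.Injective (coords (L := L) k) := by
  intro x y h
  have h1 : ∀ q, x.a q = y.a q := by
    intro q
    by_cases hq : q ≤ 6
    · exact congrFun (congrArg Prod.fst h) (⟨q, by omega⟩ : Fin 7)
    · rw [a_gt x (not_le.1 hq), a_gt y (not_le.1 hq)]
  have h2 : ∀ q, x.b q = y.b q := by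
    intro q
    by_cases hq : q ≤ 6
    · exact congrFun (congrArg Prod.snd h) (⟨q, by omega⟩ : Fin 7)
    · rw [b_gt x (not_le.1 hq), b_gt y (not_le.1 hq)]
  exact ext' (funext h1) (funext h2)

instance [IsNoetherianRing k] [Module.Finite k L] : Module.Finite k (Gam L) :=
  Module.Finite.of_injective (coords k) coords_inj

end Alg

end Gam

end Pool.Agent.helper17.Tilt
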