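import Pool.Agent.helper17.Tilt.Ext

/-!
The cohomological functor used to show that the presilting module is not silting.
-/

set_option autoImplicit false
universe u v w
open CategoryTheory

namespace Pool.Agent.helper17.Tilt
open Gam

variable {L : Type u} [Ring L]

/-- Ungraded combinatorial data. -/
structure UDat (e : Fin 3 → L) where
  G : Type
  [fG : Fintype G]
  [dG : DecidableEq G]
  t : G → Fin 3
  d : G → G → L
  d_left : ∀ g g', e (t g) * d g g' = d g g'
  d_right : ∀ g g', d g g' * e (t g') = d g g'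
  d_sq : ∀ g g'', ∑ g', d g g' * d g' g'' = 0

attribute [instance] UDat.fG UDat.dG

variable {e : Fin 3 → L}

section

variable {N : Type v} [AddCommGroup N] [Module (Gam L) N]
variable {N' : Type w} [AddCommGroup N'] [Module (Gam L) N']

/-- The differential. -/
def del (V : UDat e) (n : V.G → N) (g : V.G) : N := (s : Gam L) • n g + ∑ g', diag (V.d g g') • n g'

/-- typed families -/
def Typed (V : UDat e) (n : V.G → N) : Prop := ∀ g, diag (e (V.t g)) • n g = n g

theorem del_typed {V : UDat e} {n : V.G → N} (h : Typed V n) : Typed V (del V n) := by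
  intro g
  rw [del, smul_add, ← mul_smul, ← s_mul_diag, mul_smul, h g, Finset.smul_sum]
  congr 1
  refine Finset.sum_congr rfl fun g' _ => ?_
  rw [← mul_smul, ← map_mul, V.d_left]

theorem map_del (V : UDat e) (φ : N →ₗ[Gam L] N') (n : V.G → N) (g : V.G) :
    φ (del V n g) = del V (fun g => φ (n g)) g := by
  rw [del, del, map_add, map_smul, map_sum]
  congr 1
  exact Finset.sum_congr rfl fun g' _ => by rw [map_smul]

theorem map_typed {V : UDat e} (φ : N →ₗ[Gam L] N') {n : V.G → N} (h : Typed V n) :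
    Typed V (fun g => φ (n g)) := by
  intro g
  show diag (e (V.t g)) • φ (n g) = _
  rw [← map_smul, h g]

theorem del_add (V : UDat e) (n m : V.G → N) (g : V.G) :
    del V (fun g => n g + m g) g = del V n g + del V m g := by
  rw [del, del, del]
  simp only [smul_add, Finset.sum_add_distrib]
  abel

theorem del_sub (V : UDat e) (n m : V.G → N) (g : V.G) :
    del V (fun g => n g - m g) g = del V n g - del V m g := by
  rw [del, del, del]
  simp only [smul_sub, Finset.sum_sub_distrib]
  abel

theorem typed_sub {V : UDat e} {n m : V.G → N} (h : Typed V n) (h' : Typed V m) :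
    Typed V (fun g => n g - m g) := by
  intro g
  show diag (e (V.t g)) • (n g - m g) = _
  rw [smul_sub, h g, h' g]

variable (hL : ∀ x : L, -x = x)

include hL in
theorem two_N (n : N) : n + n = 0 := by
  have h1 : (-1 : Gam L) = 1 := by
    apply ext'
    · funext q
      rw [a_neg, Pi.neg_apply, hL]
    · funext q
      rw [b_neg, Pi.neg_apply, hL]
  have h2 : -n = n := by
    rw [← neg_one_smul (Gam L) n, h1, one_smul]
  nth_rw 2 [← h2]
  simp

include hL in
theorem del_del (V : UDat e) (n : V.G → N) (g : V.G) : del V (del V n) g = 0 := by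
  rw [del]
  simp only [del, smul_add, Finset.sum_add_distrib]
  rw [← mul_smul, s_mul_s, zero_smul, zero_add]
  have h1 : ∑ g', diag (V.d g g') • (s : Gam L) • n g' = (s : Gam L) • ∑ g', diag (V.d g g') • n g' := by
    rw [Finset.smul_sum]
    refine Finset.sum_congr rfl fun g' _ => ?_
    rw [← mul_smul, ← mul_smul, s_mul_diag]
  have h2 : ∑ g', diag (V.d g g') • ∑ g'', diag (V.d g' g'') • n g'' = 0 := by
    simp only [Finset.smul_sum]
    rw [Finset.sum_comm]
    refine Finset.sum_eq_zero fun g'' _ => ?_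
    simp only [← mul_smul, ← map_mul]
    rw [← Finset.sum_smul, ← map_sum, V.d_sq, map_zero, zero_smul]
  rw [h1, h2, add_zero, two_N hL]

/-- Acyclicity of the module `N` with respect to `V`. -/
def HVz (V : UDat e) (N : Type v) [AddCommGroup N] [Module (Gam L) N] : Prop :=
  ∀ n : V.G → N, Typed V n → (∀ g, del V n g = 0) → ∃ m, Typed V m ∧ ∀ g, n g = del V m g

/-- Acyclicity of the kernel of a map. -/
def KVz (V : UDat e) (φ : N →ₗ[Gam L] N') : Prop :=
  ∀ n : V.G → N, Typed V n → (∀ g, del V n g = 0) → (∀ g, φ (n g) = 0) →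
    ∃ m, Typed V m ∧ (∀ g, φ (m g) = 0) ∧ ∀ g, n g = del V m g

theorem HVz.retract {V : UDat e} (h : HVz V N') (i : N →ₗ[Gam L] N') (r : N' →ₗ[Gam L] N)
    (hr : ∀ x, r (i x) = x) : HVz V N := by
  intro n hn hc
  obtain ⟨m, hm, hd⟩ := h (fun g => i (n g)) (map_typed i hn) (fun g => by
    rw [← map_del, hc, map_zero])
  refine ⟨fun g => r (m g), map_typed r hm, fun g => ?_⟩
  rw [← map_del, ← hd, hr]

theorem HVz.pi {V : UDat e} (h : HVz V N) (k : ℕ) : HVz V (Fin k → N) := by
  intro n hn hc
  have h1 : ∀ i : Fin k, ∃ m, Typed V m ∧ ∀ g, n g i = del V m g := fun i => by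
    refine h (fun g => n g i) (map_typed (LinearMap.proj i) hn) (fun g => ?_)
    have := map_del V (LinearMap.proj i : (Fin k → N) →ₗ[Gam L] N) n g
    rw [hc] at this
    exact this.symm
  choose m hm hd using h1
  refine ⟨fun g i => m i g, fun g => ?_, fun g => ?_⟩
  · funext i
    exact hm i g
  · funext i
    rw [hd]
    exact (map_del V (LinearMap.proj i : (Fin k → N) →ₗ[Gam L] N) (fun g i => m i g) g).symm

variable (he : ∀ t, e t * e t = e t)

variable {N'' : Type*} [AddCommGroup N''] [Module (Gam L) N'']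

include he hL in
theorem KVz.step {V : UDat e} {φ : N →ₗ[Gam L] N'} {ψ : N' →ₗ[Gam L] N''}
    (hex : Function.Exact φ ψ) (hN : HVz V N) (hψ : KVz V ψ) : KVz V φ := by
  intro n hn hc hk
  obtain ⟨m, hm, hd⟩ := hN n hn hc
  obtain ⟨q, hq, hq0, hqd⟩ := hψ (fun g => φ (m g)) (map_typed φ hm)
    (fun g => by rw [← map_del, ← hd, hk]) (fun g => hex.apply_apply_eq_zero _)
  have h1 : ∀ g, ∃ y, φ y = q g := fun g => (hex _).1 (hq0 g)
  choose y hy using h1
  have hy' : Typed V (fun g => diag (e (V.t g)) • y g) := fun g => by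
    rw [← mul_smul, ← map_mul, he]
  have hy2 : ∀ g, φ (diag (e (V.t g)) • y g) = q g := fun g => by rw [map_smul, hy, hq]
  refine ⟨fun g => m g - del V (fun g => diag (e (V.t g)) • y g) g,
    typed_sub hm (del_typed hy'), fun g => ?_, fun g => ?_⟩
  · rw [map_sub, map_del, hqd, sub_eq_zero]
    congr 1
    funext g
    exact (hy2 g).symm
  · rw [del_sub, ← hd]
    have := del_del hL V (fun g => diag (e (V.t g)) • y g) g
    rw [this, sub_zero]

theorem KVz.last {V : UDat e} {φ : N →ₗ[Gam L] N'} (h0 : ∀ x : N', x = 0) (hN : HVz V N) :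
    KVz V φ := by
  intro n hn hc _
  obtain ⟨m, hm, hd⟩ := hN n hn hc
  exact ⟨m, hm, fun g => h0 _, hd⟩

theorem KVz.first {V : UDat e} {φ : N →ₗ[Gam L] N'} {ψ : N' →ₗ[Gam L] N''}
    (hinj : Function.Injective φ) (hex : Function.Exact φ ψ) (hψ : KVz V ψ) : HVz V N := by
  intro n hn hc
  obtain ⟨q, hq, hq0, hqd⟩ := hψ (fun g => φ (n g)) (map_typed φ hn)
    (fun g => by rw [← map_del, hc, map_zero]) (fun g => hex.apply_apply_eq_zero _)
  have h1 : ∀ g, ∃ y, φ y = q g := fun g => (hex _).1 (hq0 g)
  choose y hy using h1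
  refine ⟨y, fun g => hinj ?_, fun g => hinj ?_⟩
  · rw [map_smul, hy, hq]
  · rw [map_del, hqd]
    congr 1
    funext g
    exact (hy g).symm

end

theorem exact_fun {m : ℕ} {X : ComposableArrows (ModuleCat.{u} (Gam L)) m} (hX : X.Exact) (i : ℕ)
    (hi : i + 2 ≤ m) :
    Function.Exact (X.map' i (i+1)).hom (X.map' (i+1) (i+2)).hom := by
  have := hX.exact i hi
  rw [ShortComplex.ShortExact.moduleCat_exact_iff_function_exact] at this
  exact this

theorem descent (hL : ∀ x : L, -x = x) (he : ∀ t, e t * e t = e t)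
    (V : UDat e) (T : ModuleCat.{u} (Gam L)) (hT : HVz V T) (m : ℕ)
    (X : ComposableArrows (ModuleCat.{u} (Gam L)) (m + 4)) (hX : X.Exact)
    (h0 : Limits.IsZero (X.obj 0)) (hlast : Limits.IsZero (X.obj (Fin.last (m+4))))
    (hadd : ∀ i : Fin (m + 5), 2 ≤ i.val → i.val ≤ m + 3 →
        ∃ (k : ℕ) (f : X.obj i ⟶ ModuleCat.of (Gam L) (Fin k → (T : Type u)))
          (g : ModuleCat.of (Gam L) (Fin k → (T : Type u)) ⟶ X.obj i), f ≫ g = 𝟙 (X.obj i)) :
    HVz V (X.obj 1) := by
  have hH : ∀ i : Fin (m + 5), 2 ≤ i.val → i.val ≤ m + 3 → HVz V (X.obj i) := by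
    intro i h1 h2
    obtain ⟨k, f, g, hfg⟩ := hadd i h1 h2
    refine (hT.pi k).retract f.hom g.hom fun x => ?_
    have := congrArg (fun φ => φ.hom x) hfg
    simpa using this
  have hK : ∀ (j i : ℕ) (hi : i + j = m + 3) (h2 : 2 ≤ i), KVz V (X.map' i (i+1)).hom := by
    intro j
    induction j with
    | zero =>
      intro i hi h2
      refine KVz.last ?_ (hH _ h2 (by show i ≤ m + 3; omega))
      obtain rfl : i = m + 3 := by omega
      have := ModuleCat.subsingleton_of_isZero hlast
      exact fun x => Subsingleton.elim (α := X.obj (Fin.last (m+4))) _ _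
    | succ j ih =>
      intro i hi h2
      exact KVz.step hL he (exact_fun hX i (by omega)) (hH _ h2 (by show i ≤ m + 3; omega))
        (ih (i+1) (by omega) (by omega))
  have hinj : Function.Injective (X.map' 1 2).hom := by
    refine (injective_iff_map_eq_zero (X.map' 1 2).hom).2 fun x hx => ?_
    obtain ⟨y, rfl⟩ := (exact_fun hX 0 (by omega) x).1 hx
    have := ModuleCat.subsingleton_of_isZero h0
    have hy : y = 0 := Subsingleton.elim (α := X.obj 0) y 0
    rw [hy, map_zero]
  exact KVz.first (φ := (X.map' 1 2).hom) hinj (exact_fun hX 1 (by omega))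
    (hK (m+1) 2 (by omega) (by omega))

end Pool.Agent.helper17.Tilt
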