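import Pool.Agent.helper17.Tilt.Lam

/-!
Three-term complexes over the triangular algebra.
-/

set_option autoImplicit false
universe u v w
open CategoryTheory

namespace Pool.Agent.helper17.Tilt
open Gam

variable {k : Type u} [CommRing k] {X Y Z : Type u} [AddCommGroup X] [Module k X]
  [AddCommGroup Y] [Module k Y] [AddCommGroup Z] [Module k Z]
variable {μ : X →ₗ[k] Y →ₗ[k] Z}

/-- types (and relative positions) -/
def kt (m l : ℕ) : Fin m ⊕ Unit ⊕ Fin l → Fin 3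
  | .inl _ => 0
  | .inr (.inl _) => 1
  | .inr (.inr _) => 2

/-- positions -/
def kp (m l : ℕ) (q : ℕ) : Fin m ⊕ Unit ⊕ Fin l → ℕ
  | .inl _ => q
  | .inr (.inl _) => q + 1
  | .inr (.inr _) => q + 2

/-- differential -/
def kd (μ : X →ₗ[k] Y →ₗ[k] Z) {m l : ℕ} (A : Fin m → X) (B : Fin l → Y) :
    Fin m ⊕ Unit ⊕ Fin l → Fin m ⊕ Unit ⊕ Fin l → Lam μ
  | .inl i, .inr (.inl _) => Lam.ix (A i)
  | .inr (.inl _), .inr (.inr j) => Lam.iy (B j)
  | _, _ => 0

/-- The three-term complex placed in positions `q, q+1, q+2`. -/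
abbrev Kx (q : ℕ) {m l : ℕ} (A : Fin m → X) (B : Fin l → Y) (h : ∀ i j, μ (A i) (B j) = 0) :
    Dat (Lam.e : Fin 3 → Lam μ) where
  G := Fin m ⊕ Unit ⊕ Fin l
  t := kt m l
  p := kp m l q
  d := kd μ A B
  d_left := by
    rintro (i | i | i) (j | j | j) <;> apply Lam.ext <;>
      simp [kd, kt, Lam.e0, Lam.e1, Lam.e2, Lam.ix, Lam.iy]
  d_right := by
    rintro (i | i | i) (j | j | j) <;> apply Lam.ext <;>
      simp [kd, kt, Lam.e0, Lam.e1, Lam.e2, Lam.ix, Lam.iy]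
  d_pos := by
    rintro (i | i | i) (j | j | j) hd <;> simp [kd, kp] at hd ⊢
  d_sq := by
    rintro (i | i | i) (j | j | j) <;> apply Lam.ext <;>
      simp [kd, Lam.ix, Lam.iy, h]

/-- The linear algebra statements expressing acyclicity. -/
structure Fx (μ : X →ₗ[k] Y →ₗ[k] Z) {m l m' l' : ℕ} (A : Fin m → X) (B : Fin l → Y)
    (A' : Fin m' → X) (B' : Fin l' → Y) : Prop where
  f0 : ∀ (x : Fin m → Fin m' → k) (y : k) (z : Fin l → Fin l' → k),
    (∀ i, ∑ i', x i i' • A' i' = y • A i) → (∀ j', y • B' j' = ∑ j, z j j' • B j) →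
    (∀ i i', x i i' = 0) ∧ y = 0 ∧ (∀ j j', z j j' = 0)
  f1 : ∀ (α : Fin m → X) (β : Fin l' → Y), (∀ i j', μ (α i) (B' j') = μ (A i) (β j')) →
    ∃ (x : Fin m → Fin m' → k) (y : k) (z : Fin l → Fin l' → k),
      (∀ i, α i = ∑ i', x i i' • A' i' + y • A i) ∧
      (∀ j', β j' = y • B' j' + ∑ j, z j j' • B j)
  f2 : ∀ ζ : Fin m → Fin l' → Z, ∃ (α : Fin m → X) (β : Fin l' → Y),
    ∀ i j', ζ i j' = μ (α i) (B' j') + μ (A i) (β j')

/-- assembling a matrix -/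
def kmat (μ : X →ₗ[k] Y →ₗ[k] Z) {m l m' l' : ℕ} (x : Fin m → Fin m' → k) (y : k)
    (z : Fin l → Fin l' → k) (α : Fin m → X) (β : Fin l' → Y) (ζ : Fin m → Fin l' → Z) :
    Fin m ⊕ Unit ⊕ Fin l → Fin m' ⊕ Unit ⊕ Fin l' → Lam μ
  | .inl i, .inl i' => x i i' • Lam.e 0
  | .inl i, .inr (.inl _) => Lam.ix (α i)
  | .inl i, .inr (.inr j') => Lam.iz (ζ i j')
  | .inr (.inl _), .inr (.inl _) => y • Lam.e 1
  | .inr (.inl _), .inr (.inr j') => Lam.iy (β j')
  | .inr (.inr j), .inr (.inr j') => z j j' • Lam.e 2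
  | _, _ => 0

section
variable {m l m' l' q q' : ℕ} {A : Fin m → X} {B : Fin l → Y}
    {A' : Fin m' → X} {B' : Fin l' → Y} {h : ∀ i j, μ (A i) (B j) = 0}
    {h' : ∀ i j, μ (A' i) (B' j) = 0}

theorem kmat_E (x : Fin m → Fin m' → k) (y : k)
    (z : Fin l → Fin l' → k) (α : Fin m → X) (β : Fin l' → Y) (ζ : Fin m → Fin l' → Z) :
    (Kx q A B h).toU.E * (Matrix.of (kmat μ x y z α β ζ)) = Matrix.of (kmat μ x y z α β ζ) := by
  ext g g'
  rw [UDat.E, Matrix.diagonal_mul]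
  rcases g with i | i | i <;> rcases g' with j | j | j <;> apply Lam.ext <;>
      simp [kmat, kt, Lam.e0, Lam.e1, Lam.e2, Lam.ix, Lam.iy, Lam.iz]

theorem kmat_E' (x : Fin m → Fin m' → k) (y : k)
    (z : Fin l → Fin l' → k) (α : Fin m → X) (β : Fin l' → Y) (ζ : Fin m → Fin l' → Z) :
    (Matrix.of (kmat μ x y z α β ζ)) * (Kx q' A' B' h').toU.E = Matrix.of (kmat μ x y z α β ζ) := by
  ext g g'
  rw [UDat.E, Matrix.mul_diagonal]
  rcases g with i | i | i <;> rcases g' with j | j | j <;> apply Lam.ext <;>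
      simp [kmat, kt, Lam.e0, Lam.e1, Lam.e2, Lam.ix, Lam.iy, Lam.iz]

theorem exists_kmat (n : Matrix (Kx q A B h).toU.G (Kx q' A' B' h').toU.G (Lam μ))
    (h1 : (Kx q A B h).toU.E * n = n) (h2 : n * (Kx q' A' B' h').toU.E = n) :
    ∃ x y z α β ζ, n = Matrix.of (kmat μ x y z α β ζ) := by
  have h1' : ∀ g g', Lam.e (kt m l g) * n g g' = n g g' := fun g g' => by
    have := congrFun (congrFun h1 g) g'
    rwa [UDat.E, Matrix.diagonal_mul] at this
  have h2' : ∀ g g', n g g' * Lam.e (kt m' l' g') = n g g' := fun g g' => by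
    have := congrFun (congrFun h2 g) g'
    rwa [UDat.E, Matrix.mul_diagonal] at this
  refine ⟨fun i i' => (n (.inl i) (.inl i')).r1, (n (.inr (.inl ())) (.inr (.inl ()))).r2,
    fun j j' => (n (.inr (.inr j)) (.inr (.inr j'))).r3,
    fun i => (n (.inl i) (.inr (.inl ()))).x, fun j' => (n (.inr (.inl ())) (.inr (.inr j'))).y,
    fun i j' => (n (.inl i) (.inr (.inr j'))).z, ?_⟩
  ext g g'
  rw [Matrix.of_apply, ← h2' g g', ← h1' g g']
  rcases g with i | i | i <;> rcases g' with j | j | j <;> apply Lam.ext <;>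
      simp [kmat, kt, Lam.e0, Lam.e1, Lam.e2, Lam.ix, Lam.iy, Lam.iz]

theorem kmat_D (x : Fin m → Fin m' → k) (y : k)
    (z : Fin l → Fin l' → k) (α : Fin m → X) (β : Fin l' → Y) (ζ : Fin m → Fin l' → Z) :
    (Matrix.of (kmat μ x y z α β ζ)) * (Kx q' A' B' h').toU.D =
      Matrix.of (kmat μ 0 0 0 (fun i => ∑ i', x i i' • A' i') (fun j' => y • B' j')
        (fun i j' => μ (α i) (B' j'))) := by
  ext g g'
  rw [Matrix.mul_apply, Fintype.sum_sum_type, Fintype.sum_sum_type]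
  rcases g with i | i | i <;> rcases g' with j | j | j <;> apply Lam.ext <;>
      simp [kmat, kd, UDat.D, Lam.e0, Lam.e1, Lam.e2, Lam.ix, Lam.iy, Lam.iz]

theorem D_kmat (x : Fin m → Fin m' → k) (y : k)
    (z : Fin l → Fin l' → k) (α : Fin m → X) (β : Fin l' → Y) (ζ : Fin m → Fin l' → Z) :
    (Kx q A B h).toU.D * (Matrix.of (kmat μ x y z α β ζ)) =
      Matrix.of (kmat μ 0 0 0 (fun i => y • A i) (fun j' => ∑ j, z j j' • B j)
        (fun i j' => μ (A i) (β j'))) := by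
  ext g g'
  rw [Matrix.mul_apply, Fintype.sum_sum_type, Fintype.sum_sum_type]
  rcases g with i | i | i <;> rcases g' with j | j | j <;> apply Lam.ext <;>
      simp [kmat, kd, UDat.D, Lam.e0, Lam.e1, Lam.e2, Lam.ix, Lam.iy, Lam.iz]

theorem kmat_add (x x₁ : Fin m → Fin m' → k) (y y₁ : k)
    (z z₁ : Fin l → Fin l' → k) (α α₁ : Fin m → X) (β β₁ : Fin l' → Y)
    (ζ ζ₁ : Fin m → Fin l' → Z) :
    Matrix.of (kmat μ x y z α β ζ) + Matrix.of (kmat μ x₁ y₁ z₁ α₁ β₁ ζ₁) =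
      Matrix.of (kmat μ (x + x₁) (y + y₁) (z + z₁) (α + α₁) (β + β₁) (ζ + ζ₁)) := by
  ext g g'
  rcases g with i | i | i <;> rcases g' with j | j | j <;> apply Lam.ext <;>
      simp [kmat, Lam.e0, Lam.e1, Lam.e2, Lam.ix, Lam.iy, Lam.iz]

theorem kmat_inj {x x₁ : Fin m → Fin m' → k} {y y₁ : k}
    {z z₁ : Fin l → Fin l' → k} {α α₁ : Fin m → X} {β β₁ : Fin l' → Y}
    {ζ ζ₁ : Fin m → Fin l' → Z} (hh : Matrix.of (kmat μ x y z α β ζ) =
      Matrix.of (kmat μ x₁ y₁ z₁ α₁ β₁ ζ₁)) : (∀ i i', x i i' = x₁ i i') ∧ y = y₁ ∧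
      (∀ j j', z j j' = z₁ j j') ∧ (∀ i, α i = α₁ i) ∧ (∀ j, β j = β₁ j) ∧
      (∀ i j, ζ i j = ζ₁ i j) := by
  have h1 : ∀ g g', kmat μ x y z α β ζ g g' = kmat μ x₁ y₁ z₁ α₁ β₁ ζ₁ g g' := fun g g' =>
    congrFun (congrFun hh g) g'
  refine ⟨fun i i' => ?_, ?_, fun j j' => ?_, fun i => ?_, fun j => ?_, fun i j => ?_⟩
  · simpa [kmat, Lam.e0] using congrArg Lam.r1 (h1 (.inl i) (.inl i'))
  · simpa [kmat, Lam.e1] using congrArg Lam.r2 (h1 (.inr (.inl ())) (.inr (.inl ())))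
  · simpa [kmat, Lam.e2] using congrArg Lam.r3 (h1 (.inr (.inr j)) (.inr (.inr j')))
  · simpa [kmat, Lam.ix] using congrArg Lam.x (h1 (.inl i) (.inr (.inl ())))
  · simpa [kmat, Lam.iy] using congrArg Lam.y (h1 (.inr (.inl ())) (.inr (.inr j)))
  · simpa [kmat, Lam.iz] using congrArg Lam.z (h1 (.inl i) (.inr (.inr j)))

theorem kmat_congr {x x₁ : Fin m → Fin m' → k} {y y₁ : k}
    {z z₁ : Fin l → Fin l' → k} {α α₁ : Fin m → X} {β β₁ : Fin l' → Y}
    {ζ ζ₁ : Fin m → Fin l' → Z} (hx : ∀ i i', x i i' = x₁ i i') (hy : y = y₁)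
      (hz : ∀ j j', z j j' = z₁ j j') (hα : ∀ i, α i = α₁ i) (hβ : ∀ j, β j = β₁ j)
      (hζ : ∀ i j, ζ i j = ζ₁ i j) : Matrix.of (kmat μ x y z α β ζ) =
      Matrix.of (kmat μ x₁ y₁ z₁ α₁ β₁ ζ₁) := by
  obtain rfl : x = x₁ := funext fun i => funext fun j => hx i j
  obtain rfl : z = z₁ := funext fun i => funext fun j => hz i j
  obtain rfl : ζ = ζ₁ := funext fun i => funext fun j => hζ i j
  obtain rfl : α = α₁ := funext hα
  obtain rfl : β = β₁ := funext hβ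
  rw [hy]

theorem Fx.acyc (H : Fx μ A B A' B') : Acyc (Kx q A B h).toU (Kx q' A' B' h').toU := by
  intro n h1 h2 h3
  obtain ⟨x, y, z, α, β, ζ, rfl⟩ := exists_kmat n h1 h2
  rw [kmat_D, D_kmat] at h3
  obtain ⟨-, -, -, h4, h5, h6⟩ := kmat_inj h3
  obtain ⟨hx, hy, hz⟩ := H.f0 x y z h4 h5
  obtain ⟨x', y', z', h7, h8⟩ := H.f1 α β h6
  obtain ⟨α', β', h9⟩ := H.f2 ζ
  refine ⟨Matrix.of (kmat μ x' y' z' α' β' 0), kmat_E _ _ _ _ _ _, kmat_E' _ _ _ _ _ _, ?_⟩
  rw [kmat_D, D_kmat, kmat_add]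
  refine kmat_congr ?_ ?_ ?_ ?_ ?_ ?_
  · simpa using hx
  · simpa using hy
  · simpa using hz
  · exact h7
  · exact h8
  · exact h9

end

/-- The version with one-dimensional endomorphisms. -/
structure Fe (μ : X →ₗ[k] Y →ₗ[k] Z) {m l : ℕ} (A : Fin m → X) (B : Fin l → Y) : Prop where
  f0 : ∀ (x : Fin m → Fin m → k) (y : k) (z : Fin l → Fin l → k),
    (∀ i, ∑ i', x i i' • A i' = y • A i) → (∀ j', y • B j' = ∑ j, z j j' • B j) →
    (∀ i i', x i i' = if i = i' then y else 0) ∧ (∀ j j', z j j' = if j = j' then y else 0)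
  f1 : ∀ (α : Fin m → X) (β : Fin l → Y), (∀ i j', μ (α i) (B j') = μ (A i) (β j')) →
    ∃ (x : Fin m → Fin m → k) (y : k) (z : Fin l → Fin l → k),
      (∀ i, α i = ∑ i', x i i' • A i' + y • A i) ∧
      (∀ j', β j' = y • B j' + ∑ j, z j j' • B j)
  f2 : ∀ ζ : Fin m → Fin l → Z, ∃ (α : Fin m → X) (β : Fin l → Y),
    ∀ i j', ζ i j' = μ (α i) (B j') + μ (A i) (β j')

section
variable {m l q : ℕ} {A : Fin m → X} {B : Fin l → Y} {h : ∀ i j, μ (A i) (B j) = 0}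

theorem algebraMap_central (c : k) (x : Lam μ) :
    algebraMap k (Lam μ) c * x = x * algebraMap k (Lam μ) c := Algebra.commutes c x

theorem diag_kmat (c : k) :
    (Matrix.diagonal (fun g => algebraMap k (Lam μ) c * Lam.e ((Kx q A B h).t g)) :
      Matrix (Kx q A B h).toU.G (Kx q A B h).toU.G (Lam μ)) =
      Matrix.of (kmat μ (fun i i' => if i = i' then c else 0) c
        (fun i i' => if i = i' then c else 0) 0 0 0) := by
  ext g g'
  rw [Algebra.algebraMap_eq_smul_one]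
  rcases g with i | i | i <;> rcases g' with j | j | j
  · by_cases hij : i = j
    · subst hij
      rw [Matrix.diagonal_apply_eq]
      apply Lam.ext <;> simp [kmat, kt, Lam.e0]
    · rw [Matrix.diagonal_apply_ne _ (by simpa using hij)]
      simp [kmat, hij]
  · rw [Matrix.diagonal_apply_ne _ (by simp)]
    apply Lam.ext <;> simp [kmat, Lam.ix]
  · rw [Matrix.diagonal_apply_ne _ (by simp)]
    apply Lam.ext <;> simp [kmat, Lam.iz]
  · rw [Matrix.diagonal_apply_ne _ (by simp)]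
    simp [kmat]
  · obtain rfl : i = j := rfl
    rw [Matrix.diagonal_apply_eq]
    apply Lam.ext <;> simp [kmat, kt, Lam.e1]
  · rw [Matrix.diagonal_apply_ne _ (by simp)]
    apply Lam.ext <;> simp [kmat, Lam.iy]
  · rw [Matrix.diagonal_apply_ne _ (by simp)]
    simp [kmat]
  · rw [Matrix.diagonal_apply_ne _ (by simp)]
    simp [kmat]
  · by_cases hij : i = j
    · subst hij
      rw [Matrix.diagonal_apply_eq]
      apply Lam.ext <;> simp [kmat, kt, Lam.e2]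
    · rw [Matrix.diagonal_apply_ne _ (by simpa using hij)]
      simp [kmat, hij]

theorem Fe.acycE (H : Fe μ A B) : AcycE (Set.range (algebraMap k (Lam μ))) (Kx q A B h).toU := by
  intro n h1 h2 h3
  obtain ⟨x, y, z, α, β, ζ, rfl⟩ := exists_kmat n h1 h2
  rw [kmat_D, D_kmat] at h3
  obtain ⟨-, -, -, h4, h5, h6⟩ := kmat_inj h3
  obtain ⟨hx, hz⟩ := H.f0 x y z h4 h5
  obtain ⟨x', y', z', h7, h8⟩ := H.f1 α β h6
  obtain ⟨α', β', h9⟩ := H.f2 ζ
  refine ⟨Matrix.of (kmat μ x' y' z' α' β' 0), algebraMap k (Lam μ) y, kmat_E _ _ _ _ _ _,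
    kmat_E' _ _ _ _ _ _, ⟨y, rfl⟩, ?_⟩
  rw [diag_kmat, kmat_D, D_kmat, kmat_add, kmat_add]
  refine kmat_congr ?_ ?_ ?_ ?_ ?_ ?_
  · simpa using hx
  · simp
  · simpa using hz
  · simpa using h7
  · simpa using h8
  · simpa using h9

/-- idempotents -/
theorem Fe.endI (hk : ∀ c : k, c * c = c → c = 0 ∨ c = 1) (H : Fe μ A B) :
    EndI (Kx q A B h) := by
  intro n h1 h2 h3 h4 h5
  obtain ⟨x, y, z, α, β, ζ, rfl⟩ := exists_kmat n h1 h2
  rw [kmat_D, D_kmat] at h3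
  obtain ⟨-, -, -, h7, h8, -⟩ := kmat_inj h3
  obtain ⟨hx, hz⟩ := H.f0 x y z h7 h8
  have hα : ∀ i, α i = 0 := by
    intro i
    by_contra hc
    have := h4 (.inl i) (.inr (.inl ())) (fun h0 => hc (by
      simpa [kmat, Lam.ix] using congrArg Lam.x h0))
    simp [kp] at this
  have hβ : ∀ i, β i = 0 := by
    intro i
    by_contra hc
    have := h4 (.inr (.inl ())) (.inr (.inr i)) (fun h0 => hc (by
      simpa [kmat, Lam.iy] using congrArg Lam.y h0))
    simp [kp] at this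
  have hζ : ∀ i j, ζ i j = 0 := by
    intro i j
    by_contra hc
    have := h4 (.inl i) (.inr (.inr j)) (fun h0 => hc (by
      simpa [kmat, Lam.iz] using congrArg Lam.z h0))
    simp [kp] at this
  have hn : Matrix.of (kmat μ x y z α β ζ) =
    (Matrix.diagonal (fun g => algebraMap k (Lam μ) y * Lam.e ((Kx q A B h).t g)) :
      Matrix (Kx q A B h).toU.G (Kx q A B h).toU.G (Lam μ)) := by
    rw [diag_kmat]
    exact kmat_congr hx rfl hz hα hβ hζ
  have hy : y * y = y := by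
    have h6 := congrFun (congrFun h5 (.inr (.inl ()))) (.inr (.inl ()))
    rw [hn, Matrix.diagonal_mul_diagonal, Matrix.diagonal_apply_eq, Matrix.diagonal_apply_eq] at h6
    have h7 := congrArg Lam.r2 h6
    simpa [kt, Lam.e1, Algebra.algebraMap_eq_smul_one] using h7
  rcases hk y hy with rfl | rfl
  · left
    rw [hn]
    simp
  · right
    rw [hn]
    simp [UDat.E]

end

end Pool.Agent.helper17.Tilt
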