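import Pool.Agent.helper17.Tilt.Blocks

/-!
The triangular algebra with three vertices given by a bilinear map.
-/

set_option autoImplicit false
universe u v w
open CategoryTheory

namespace Pool.Agent.helper17.Tilt
open Gam

variable {k : Type u} [CommRing k] {X Y Z : Type u} [AddCommGroup X] [Module k X]
  [AddCommGroup Y] [Module k Y] [AddCommGroup Z] [Module k Z]

/-- The triangular algebra. -/
def Lam (_μ : X →ₗ[k] Y →ₗ[k] Z) : Type u := k × k × k × X × Y × Z

variable {μ : X →ₗ[k] Y →ₗ[k] Z}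

namespace Lam

instance : AddCommGroup (Lam μ) := inferInstanceAs (AddCommGroup (k × k × k × X × Y × Z))
instance : Module k (Lam μ) := inferInstanceAs (Module k (k × k × k × X × Y × Z))

/-- constructor -/
def mk (r1 r2 r3 : k) (x : X) (y : Y) (z : Z) : Lam μ := (r1, r2, r3, x, y, z)
/-- component -/
def r1 (a : Lam μ) : k := Prod.fst a
/-- component -/
def r2 (a : Lam μ) : k := Prod.fst (Prod.snd a)
/-- component -/
def r3 (a : Lam μ) : k := Prod.fst (Prod.snd (Prod.snd a))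
/-- component -/
def x (a : Lam μ) : X := Prod.fst (Prod.snd (Prod.snd (Prod.snd a)))
/-- component -/
def y (a : Lam μ) : Y := Prod.fst (Prod.snd (Prod.snd (Prod.snd (Prod.snd a))))
/-- component -/
def z (a : Lam μ) : Z := Prod.snd (Prod.snd (Prod.snd (Prod.snd (Prod.snd a))))

theorem ext {a b : Lam μ} (h1 : a.r1 = b.r1) (h2 : a.r2 = b.r2) (h3 : a.r3 = b.r3)
    (h4 : a.x = b.x) (h5 : a.y = b.y) (h6 : a.z = b.z) : a = b := by
  obtain ⟨a1, a2, a3, a4, a5, a6⟩ := a
  obtain ⟨b1, b2, b3, b4, b5, b6⟩ := b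
  simp only [r1, r2, r3, x, y, z] at h1 h2 h3 h4 h5 h6
  rw [h1, h2, h3, h4, h5, h6]

section simps
variable (a b : Lam μ) (c : k)
@[simp] theorem r1_mk (r1' r2' r3' : k) (x' : X) (y' : Y) (z' : Z) :
  (mk r1' r2' r3' x' y' z' : Lam μ).r1 = r1' := rfl
@[simp] theorem r2_mk (r1' r2' r3' : k) (x' : X) (y' : Y) (z' : Z) :
  (mk r1' r2' r3' x' y' z' : Lam μ).r2 = r2' := rfl
@[simp] theorem r3_mk (r1' r2' r3' : k) (x' : X) (y' : Y) (z' : Z) :
  (mk r1' r2' r3' x' y' z' : Lam μ).r3 = r3' := rfl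
@[simp] theorem x_mk (r1' r2' r3' : k) (x' : X) (y' : Y) (z' : Z) :
  (mk r1' r2' r3' x' y' z' : Lam μ).x = x' := rfl
@[simp] theorem y_mk (r1' r2' r3' : k) (x' : X) (y' : Y) (z' : Z) :
  (mk r1' r2' r3' x' y' z' : Lam μ).y = y' := rfl
@[simp] theorem z_mk (r1' r2' r3' : k) (x' : X) (y' : Y) (z' : Z) :
  (mk r1' r2' r3' x' y' z' : Lam μ).z = z' := rfl
@[simp] theorem r1_add : (a + b).r1 = a.r1 + b.r1 := rfl
@[simp] theorem r2_add : (a + b).r2 = a.r2 + b.r2 := rfl
@[simp] theorem r3_add : (a + b).r3 = a.r3 + b.r3 := rfl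
@[simp] theorem x_add : (a + b).x = a.x + b.x := rfl
@[simp] theorem y_add : (a + b).y = a.y + b.y := rfl
@[simp] theorem z_add : (a + b).z = a.z + b.z := rfl
@[simp] theorem r1_neg : (-a).r1 = -a.r1 := rfl
@[simp] theorem r2_neg : (-a).r2 = -a.r2 := rfl
@[simp] theorem r3_neg : (-a).r3 = -a.r3 := rfl
@[simp] theorem x_neg : (-a).x = -a.x := rfl
@[simp] theorem y_neg : (-a).y = -a.y := rfl
@[simp] theorem z_neg : (-a).z = -a.z := rfl
@[simp] theorem r1_smul : (c • a).r1 = c * a.r1 := rfl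
@[simp] theorem r2_smul : (c • a).r2 = c * a.r2 := rfl
@[simp] theorem r3_smul : (c • a).r3 = c * a.r3 := rfl
@[simp] theorem x_smul : (c • a).x = c • a.x := rfl
@[simp] theorem y_smul : (c • a).y = c • a.y := rfl
@[simp] theorem z_smul : (c • a).z = c • a.z := rfl
@[simp] theorem r1_zero : (0 : Lam μ).r1 = 0 := rfl
@[simp] theorem r2_zero : (0 : Lam μ).r2 = 0 := rfl
@[simp] theorem r3_zero : (0 : Lam μ).r3 = 0 := rfl
@[simp] theorem x_zero : (0 : Lam μ).x = 0 := rfl
@[simp] theorem y_zero : (0 : Lam μ).y = 0 := rfl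
@[simp] theorem z_zero : (0 : Lam μ).z = 0 := rfl

variable {ι : Type*} (s : Finset ι) (F : ι → Lam μ)
@[simp] theorem r1_sum : (∑ i ∈ s, F i).r1 = ∑ i ∈ s, (F i).r1 :=
  map_sum (⟨⟨r1, rfl⟩, fun _ _ => rfl⟩ : Lam μ →+ k) F s
@[simp] theorem r2_sum : (∑ i ∈ s, F i).r2 = ∑ i ∈ s, (F i).r2 :=
  map_sum (⟨⟨r2, rfl⟩, fun _ _ => rfl⟩ : Lam μ →+ k) F s
@[simp] theorem r3_sum : (∑ i ∈ s, F i).r3 = ∑ i ∈ s, (F i).r3 :=
  map_sum (⟨⟨r3, rfl⟩, fun _ _ => rfl⟩ : Lam μ →+ k) F s
@[simp] theorem x_sum : (∑ i ∈ s, F i).x = ∑ i ∈ s, (F i).x :=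
  map_sum (⟨⟨x, rfl⟩, fun _ _ => rfl⟩ : Lam μ →+ X) F s
@[simp] theorem y_sum : (∑ i ∈ s, F i).y = ∑ i ∈ s, (F i).y :=
  map_sum (⟨⟨y, rfl⟩, fun _ _ => rfl⟩ : Lam μ →+ Y) F s
@[simp] theorem z_sum : (∑ i ∈ s, F i).z = ∑ i ∈ s, (F i).z :=
  map_sum (⟨⟨z, rfl⟩, fun _ _ => rfl⟩ : Lam μ →+ Z) F s
end simps

instance : Mul (Lam μ) := ⟨fun a b => mk (a.r1 * b.r1) (a.r2 * b.r2) (a.r3 * b.r3)
  (a.r1 • b.x + b.r2 • a.x) (a.r2 • b.y + b.r3 • a.y) (a.r1 • b.z + μ a.x b.y + b.r3 • a.z)⟩
instance : One (Lam μ) := ⟨mk 1 1 1 0 0 0⟩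

section simps
variable (a b : Lam μ) (c : k)
@[simp] theorem r1_mul : (a * b).r1 = a.r1 * b.r1 := rfl
@[simp] theorem r2_mul : (a * b).r2 = a.r2 * b.r2 := rfl
@[simp] theorem r3_mul : (a * b).r3 = a.r3 * b.r3 := rfl
@[simp] theorem x_mul : (a * b).x = a.r1 • b.x + b.r2 • a.x := rfl
@[simp] theorem y_mul : (a * b).y = a.r2 • b.y + b.r3 • a.y := rfl
@[simp] theorem z_mul : (a * b).z = a.r1 • b.z + μ a.x b.y + b.r3 • a.z := rfl
@[simp] theorem r1_one : (1 : Lam μ).r1 = 1 := rfl
@[simp] theorem r2_one : (1 : Lam μ).r2 = 1 := rfl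
@[simp] theorem r3_one : (1 : Lam μ).r3 = 1 := rfl
@[simp] theorem x_one : (1 : Lam μ).x = 0 := rfl
@[simp] theorem y_one : (1 : Lam μ).y = 0 := rfl
@[simp] theorem z_one : (1 : Lam μ).z = 0 := rfl
end simps

instance : Ring (Lam μ) :=
  { (inferInstanceAs (AddCommGroup (Lam μ)) : AddCommGroup (Lam μ)) with
    mul := (· * ·)
    one := 1
    mul_assoc := by
      intro a b c
      apply ext
      · simp [mul_assoc]
      · simp [mul_assoc]
      · simp [mul_assoc]
      · simp only [x_mul, r1_mul, r2_mul]; module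
      · simp only [y_mul, r2_mul, r3_mul]; module
      · simp only [z_mul, x_mul, y_mul, r1_mul, r3_mul, map_add, map_smul, LinearMap.add_apply,
          LinearMap.smul_apply]
        module
    one_mul := by
      intro a
      apply ext <;> simp
    mul_one := by
      intro a
      apply ext <;> simp
    left_distrib := by
      intro a b c
      apply ext
      · simp [mul_add]
      · simp [mul_add]
      · simp [mul_add]
      · simp only [x_mul, x_add, r2_add]; module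
      · simp only [y_mul, y_add, r3_add]; module
      · simp only [z_mul, y_add, z_add, r3_add, map_add]; module
    right_distrib := by
      intro a b c
      apply ext
      · simp [add_mul]
      · simp [add_mul]
      · simp [add_mul]
      · simp only [x_mul, x_add, r1_add]; module
      · simp only [y_mul, y_add, r2_add]; module
      · simp only [z_mul, x_add, z_add, r1_add, map_add, LinearMap.add_apply]; module
    zero_mul := by
      intro a
      apply ext <;> simp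
    mul_zero := by
      intro a
      apply ext <;> simp }

instance : Algebra k (Lam μ) := Algebra.ofModule
  (fun c a b => by
    apply ext
    · simp [mul_assoc]
    · simp [mul_assoc]
    · simp [mul_assoc]
    · simp only [x_mul, x_smul, r1_smul]; module
    · simp only [y_mul, y_smul, r2_smul]; module
    · simp only [z_mul, x_smul, z_smul, r1_smul, map_smul, LinearMap.smul_apply]; module)
  (fun c a b => by
    apply ext
    · simp [mul_left_comm]
    · simp [mul_left_comm]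
    · simp [mul_left_comm]
    · simp only [x_mul, x_smul, r2_smul]; module
    · simp only [y_mul, y_smul, r3_smul]; module
    · simp only [z_mul, y_smul, z_smul, r3_smul, map_smul]; module)

instance [Module.Finite k X] [Module.Finite k Y] [Module.Finite k Z] : Module.Finite k (Lam μ) :=
  inferInstanceAs (Module.Finite k (k × k × k × X × Y × Z))

instance [Finite k] [Finite X] [Finite Y] [Finite Z] : Finite (Lam μ) :=
  inferInstanceAs (Finite (k × k × k × X × Y × Z))

/-- the idempotents -/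
def e : Fin 3 → Lam μ := ![mk 1 0 0 0 0 0, mk 0 1 0 0 0 0, mk 0 0 1 0 0 0]

theorem e0 : (e 0 : Lam μ) = mk 1 0 0 0 0 0 := rfl
theorem e1 : (e 1 : Lam μ) = mk 0 1 0 0 0 0 := rfl
theorem e2 : (e 2 : Lam μ) = mk 0 0 1 0 0 0 := rfl

theorem he : ∀ t, (e t : Lam μ) * e t = e t := by
  intro t
  fin_cases t
  · apply ext <;> simp [e0]
  · apply ext <;> simp [e1]
  · apply ext <;> simp [e2]

theorem neg_eq (hk : (2 : k) = 0) (a : Lam μ) : -a = a := by
  have h : ∀ {M : Type u} [AddCommGroup M] [Module k M] (m : M), -m = m := by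
    intro M _ _ m
    have : (2 : k) • m = 0 := by rw [hk, zero_smul]
    rw [two_smul] at this
    exact neg_eq_of_add_eq_zero_left this
  exact h a

/-- embedding of `X` -/
def ix (t : X) : Lam μ := mk 0 0 0 t 0 0
/-- embedding of `Y` -/
def iy (t : Y) : Lam μ := mk 0 0 0 0 t 0
/-- embedding of `Z` -/
def iz (t : Z) : Lam μ := mk 0 0 0 0 0 t

end Lam

end Pool.Agent.helper17.Tilt
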