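import Pool.Agent.helper17.Tilt.HV

/-!
Matrix form of the acyclicity conditions.
-/

set_option autoImplicit false
universe u v w
open CategoryTheory

namespace Pool.Agent.helper17.Tilt
open Gam

variable {L : Type u} [Ring L] {e : Fin 3 → L}

/-- The matrix of the differential. -/
def UDat.D (V : UDat e) : Matrix V.G V.G L := Matrix.of V.d
/-- The matrix of the idempotents. -/
def UDat.E (V : UDat e) : Matrix V.G V.G L := Matrix.diagonal fun g => e (V.t g)

theorem UDat.DD (V : UDat e) : V.D * V.D = 0 := by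
  ext g g'
  exact V.d_sq g g'

theorem UDat.ED (V : UDat e) : V.E * V.D = V.D := by
  ext g g'
  rw [UDat.E, Matrix.diagonal_mul]
  exact V.d_left g g'

theorem UDat.DE (V : UDat e) : V.D * V.E = V.D := by
  ext g g'
  rw [UDat.E, Matrix.mul_diagonal]
  exact V.d_right g g'

/-- Forget the positions. -/
abbrev Dat.toU (U : Dat e) : UDat e where
  G := U.G
  t := U.t
  d := U.d
  d_left := U.d_left
  d_right := U.d_right
  d_sq := U.d_sq

/-- Acyclicity of the homomorphism complex. -/
def Acyc (V W : UDat e) : Prop :=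
  ∀ n : Matrix V.G W.G L, V.E * n = n → n * W.E = n → n * W.D = V.D * n →
    ∃ m : Matrix V.G W.G L, V.E * m = m ∧ m * W.E = m ∧ n = m * W.D + V.D * m

/-- The homomorphism complex has one-dimensional homology, spanned by the identity. -/
def AcycE (C : Set L) (V : UDat e) : Prop :=
  ∀ n : Matrix V.G V.G L, V.E * n = n → n * V.E = n → n * V.D = V.D * n →
    ∃ (m : Matrix V.G V.G L) (c : L), V.E * m = m ∧ m * V.E = m ∧ c ∈ C ∧
      n = Matrix.diagonal (fun g => c * e (V.t g)) + m * V.D + V.D * m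

/-- Graded version. -/
def ExtM (U W : Dat e) (i : ℕ) : Prop :=
  ∀ n : Matrix U.G W.G L, U.toU.E * n = n → n * W.toU.E = n → n * W.toU.D = U.toU.D * n →
    (∀ g h, n g h ≠ 0 → W.p h = U.p g + i + 1) →
    ∃ m : Matrix U.G W.G L, U.toU.E * m = m ∧ m * W.toU.E = m ∧ n = m * W.toU.D + U.toU.D * m ∧
      (∀ g h, m g h ≠ 0 → W.p h = U.p g + i)

theorem ExtM.of_pos {U W : Dat e} {i : ℕ} (h : ∀ g h, W.p h ≠ U.p g + i + 1) : ExtM U W i := by
  intro n h1 h2 h3 h4
  have h0 : n = 0 := by
    ext g g'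
    by_contra hne
    exact h g g' (h4 g g' hne)
  exact ⟨0, by simp, by simp, by simp [h0], by simp⟩

/-- Projection to a homogeneous component. -/
def homog (U W : Dat e) (i : ℕ) (m : Matrix U.G W.G L) : Matrix U.G W.G L :=
  Matrix.of fun g h => if W.p h = U.p g + i then m g h else 0

theorem E_homog (U W : Dat e) (i : ℕ) (m : Matrix U.G W.G L) (h : U.toU.E * m = m) :
    U.toU.E * homog U W i m = homog U W i m := by
  ext g g'
  have := congrFun (congrFun h g) g'
  rw [UDat.E, Matrix.diagonal_mul] at this ⊢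
  simp only [homog, Matrix.of_apply]
  split_ifs
  · exact this
  · simp

theorem homog_E (U W : Dat e) (i : ℕ) (m : Matrix U.G W.G L) (h : m * W.toU.E = m) :
    homog U W i m * W.toU.E = homog U W i m := by
  ext g g'
  have := congrFun (congrFun h g) g'
  rw [UDat.E, Matrix.mul_diagonal] at this ⊢
  simp only [homog, Matrix.of_apply]
  split_ifs
  · exact this
  · simp

theorem homog_D (U W : Dat e) (i : ℕ) (m : Matrix U.G W.G L) :
    homog U W i m * W.toU.D = homog U W (i+1) (m * W.toU.D) := by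
  ext g h
  simp only [homog, Matrix.of_apply, Matrix.mul_apply, UDat.D]
  split_ifs with hp
  · refine Finset.sum_congr rfl fun h' _ => ?_
    by_cases hd : W.d h' h = 0
    · simp [hd]
    · have := W.d_pos _ _ hd
      rw [if_pos (by omega)]
  · refine Finset.sum_eq_zero fun h' _ => ?_
    by_cases hd : W.d h' h = 0
    · simp [hd]
    · have := W.d_pos _ _ hd
      rw [if_neg (by omega), zero_mul]

theorem D_homog (U W : Dat e) (i : ℕ) (m : Matrix U.G W.G L) :
    U.toU.D * homog U W i m = homog U W (i+1) (U.toU.D * m) := by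
  ext g h
  simp only [homog, Matrix.of_apply, Matrix.mul_apply, UDat.D]
  split_ifs with hp
  · refine Finset.sum_congr rfl fun g' _ => ?_
    by_cases hd : U.d g g' = 0
    · simp [hd]
    · have := U.d_pos _ _ hd
      rw [if_pos (by omega)]
  · refine Finset.sum_eq_zero fun g' _ => ?_
    by_cases hd : U.d g g' = 0
    · simp [hd]
    · have := U.d_pos _ _ hd
      rw [if_neg (by omega), mul_zero]

theorem homog_self (U W : Dat e) (i : ℕ) (n : Matrix U.G W.G L)
    (h : ∀ g h, n g h ≠ 0 → W.p h = U.p g + i) : homog U W i n = n := by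
  ext g g'
  simp only [homog, Matrix.of_apply]
  split_ifs with hp
  · rfl
  · by_contra hne
    exact hp (h g g' (Ne.symm hne))

theorem homog_add (U W : Dat e) (i : ℕ) (n m : Matrix U.G W.G L) :
    homog U W i (n + m) = homog U W i n + homog U W i m := by
  ext g g'
  simp only [homog, Matrix.of_apply, Matrix.add_apply]
  split_ifs <;> simp

theorem ExtM.of_acyc {U W : Dat e} (h : Acyc U.toU W.toU) (i : ℕ) : ExtM U W i := by
  intro n h1 h2 h3 h4
  obtain ⟨m, hm1, hm2, hm3⟩ := h n h1 h2 h3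
  refine ⟨homog U W i m, E_homog _ _ _ _ hm1, homog_E _ _ _ _ hm2, ?_, ?_⟩
  · rw [homog_D, D_homog, ← homog_add, ← hm3, homog_self]
    exact h4
  · intro g g' hne
    by_contra hc
    apply hne
    simp only [homog, Matrix.of_apply]
    rw [if_neg hc]

theorem ExtM.of_acycE {C : Set L} {U : Dat e} (h : AcycE C U.toU) (i : ℕ) : ExtM U U i := by
  intro n h1 h2 h3 h4
  obtain ⟨m, c, hm1, hm2, hc, hm3⟩ := h n h1 h2 h3
  refine ⟨homog U U i m, E_homog _ _ _ _ hm1, homog_E _ _ _ _ hm2, ?_, ?_⟩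
  · have h5 : homog U U (i+1) (Matrix.diagonal (fun g => c * e (U.t g))) = 0 := by
      ext g g'
      simp only [homog, Matrix.of_apply]
      split_ifs with hp
      · rw [Matrix.diagonal_apply_ne]
        · rfl
        · rintro rfl
          omega
      · rfl
    have h6 := congrArg (homog U U (i+1)) hm3
    rw [homog_add, homog_add, h5, zero_add, homog_self U U (i+1) n h4] at h6
    rw [homog_D, D_homog]
    exact h6
  · intro g g' hne
    by_contra hc
    apply hne
    simp only [homog, Matrix.of_apply]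
    rw [if_neg hc]

/-- A contraction. -/
def Contr (V : UDat e) : Prop :=
  ∃ k : Matrix V.G V.G L, V.E * k = k ∧ k * V.E = k ∧ V.D * k + k * V.D = V.E

theorem Contr.left {V W : UDat e} (h : Contr V) : Acyc V W := by
  obtain ⟨k, h1, h2, h3⟩ := h
  intro n hn1 hn2 hn3
  refine ⟨k * n, by rw [← Matrix.mul_assoc, h1], by rw [Matrix.mul_assoc, hn2], ?_⟩
  rw [Matrix.mul_assoc, hn3, ← Matrix.mul_assoc, ← Matrix.mul_assoc, ← Matrix.add_mul, add_comm, h3,
    hn1]

theorem Contr.right {V W : UDat e} (h : Contr W) : Acyc V W := by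
  obtain ⟨k, h1, h2, h3⟩ := h
  intro n hn1 hn2 hn3
  refine ⟨n * k, by rw [← Matrix.mul_assoc, hn1], by rw [Matrix.mul_assoc, h2], ?_⟩
  rw [← Matrix.mul_assoc, ← hn3, Matrix.mul_assoc, Matrix.mul_assoc, ← Matrix.mul_add, add_comm, h3,
    hn2]

/-- The cone of a morphism. -/
abbrev coneU (V W : UDat e) (w : Matrix V.G W.G L) (h1 : V.E * w = w) (h2 : w * W.E = w)
    (h3 : V.D * w + w * W.D = 0) : UDat e where
  G := V.G ⊕ W.G
  t := Sum.elim V.t W.t
  d := Matrix.fromBlocks V.D w 0 W.D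
  d_left := by
    have h1' : ∀ g g', e (V.t g) * w g g' = w g g' := fun g g' => by
      have := congrFun (congrFun h1 g) g'
      rwa [UDat.E, Matrix.diagonal_mul] at this
    rintro (g | g) (g' | g')
    · exact V.d_left g g'
    · exact h1' g g'
    · simp
    · exact W.d_left g g'
  d_right := by
    have h2' : ∀ g g', w g g' * e (W.t g') = w g g' := fun g g' => by
      have := congrFun (congrFun h2 g) g'
      rwa [UDat.E, Matrix.mul_diagonal] at this
    rintro (g | g) (g' | g')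
    · exact V.d_right g g'
    · exact h2' g g'
    · simp
    · exact W.d_right g g'
  d_sq := by
    have h : Matrix.fromBlocks V.D w 0 W.D * Matrix.fromBlocks V.D w 0 W.D = 0 := by
      rw [Matrix.fromBlocks_multiply]
      simp [UDat.DD, h3]
    intro g g'
    exact congrFun (congrFun h g) g'

theorem coneU_D (V W : UDat e) (w : Matrix V.G W.G L) (h1 : V.E * w = w) (h2 : w * W.E = w)
    (h3 : V.D * w + w * W.D = 0) : (coneU V W w h1 h2 h3).D = Matrix.fromBlocks V.D w 0 W.D := rfl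

theorem coneU_E (V W : UDat e) (w : Matrix V.G W.G L) (h1 : V.E * w = w) (h2 : w * W.E = w)
    (h3 : V.D * w + w * W.D = 0) : (coneU V W w h1 h2 h3).E = Matrix.fromBlocks V.E 0 0 W.E := by
  rw [UDat.E, UDat.E, UDat.E, Matrix.fromBlocks_diagonal]
  congr 1
  funext g
  rcases g with g | g <;> rfl

theorem matNeg (hL : ∀ x : L, -x = x) {G H : Type*} (n : Matrix G H L) : -n = n := by
  ext g h
  exact hL _

theorem matTwo (hL : ∀ x : L, -x = x) {G H : Type*} (n : Matrix G H L) : n + n = 0 :=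
  add_eq_zero_iff_eq_neg.2 (matNeg hL n).symm

theorem cone_acyc (hL : ∀ x : L, -x = x) {V W Z : UDat e} {w : Matrix V.G W.G L} {h1 : V.E * w = w}
    {h2 : w * W.E = w} {h3 : V.D * w + w * W.D = 0} (hV : Acyc V Z) (hW : Acyc W Z) :
    Acyc (coneU V W w h1 h2 h3) Z := by
  intro n
  obtain ⟨n1, n2, rfl⟩ : ∃ n1 n2, n = Matrix.fromRows n1 n2 :=
    ⟨n.toRows₁, n.toRows₂, (Matrix.fromRows_toRows n).symm⟩
  rw [coneU_D, coneU_E, Matrix.fromBlocks_mul_fromRows, Matrix.fromBlocks_mul_fromRows,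
    Matrix.fromRows_mul, Matrix.fromRows_mul]
  simp only [Matrix.zero_mul, add_zero, zero_add, Matrix.fromRows_inj.eq_iff]
  rintro ⟨ha1, ha2⟩ ⟨hb1, hb2⟩ ⟨hc1, hc2⟩
  obtain ⟨m2, hm1, hm2, hm3⟩ := hW n2 ha2 hb2 hc2
  obtain ⟨m1, hm4, hm5, hm6⟩ := hV (n1 + w * m2) (by rw [Matrix.mul_add, ha1, ← Matrix.mul_assoc, h1])
    (by rw [Matrix.add_mul, hb1, Matrix.mul_assoc, hm2]) (by
      have h4 : w * W.D = V.D * w := by
        rw [← matNeg hL (V.D * w)]
        exact eq_neg_of_add_eq_zero_right h3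
      rw [Matrix.add_mul, hc1, hm3, Matrix.mul_add, Matrix.mul_add, ← Matrix.mul_assoc w W.D, h4,
        ← Matrix.mul_assoc, ← Matrix.mul_assoc]
      have := matTwo hL (w * m2 * Z.D)
      calc V.D * n1 + (w * m2 * Z.D + V.D * w * m2) + w * m2 * Z.D =
        V.D * n1 + V.D * w * m2 + (w * m2 * Z.D + w * m2 * Z.D) := by abel
        _ = _ := by rw [this, add_zero])
  refine ⟨Matrix.fromRows m1 m2, ?_⟩
  rw [Matrix.fromBlocks_mul_fromRows, Matrix.fromBlocks_mul_fromRows, Matrix.fromRows_mul,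
    Matrix.fromRows_mul]
  simp only [Matrix.zero_mul, add_zero, zero_add, Matrix.fromRows_inj.eq_iff]
  refine ⟨⟨hm4, hm1⟩, ⟨hm5, hm2⟩, ?_⟩
  have h5 : n1 = m1 * Z.D + (V.D * m1 + w * m2) := by
    rw [← add_assoc, ← hm6, add_assoc, matTwo hL, add_zero]
  ext (g | g) h
  · exact congrFun (congrFun h5 g) h
  · exact congrFun (congrFun hm3 g) h

/-- The special case of the last summand. -/
theorem cone_acyc' (hL : ∀ x : L, -x = x) (he : ∀ t, e t * e t = e t) {V W : UDat e} {w : Matrix V.G W.G L} {h1 : V.E * w = w}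
    {h2 : w * W.E = w} {h3 : V.D * w + w * W.D = 0} {C : Set L}
    (hC : ∀ c ∈ C, ∀ x, c * x = x * c) (hW : AcycE C W)
    (hw : ∀ (c : L) (m : Matrix V.G W.G L), c ∈ C → V.E * m = m → m * W.E = m →
      w.map (fun x => c * x) = m * W.D + V.D * m →
      Matrix.diagonal (fun g => c * e (W.t g)) = (0 : Matrix W.G W.G L))
    (hV : ∀ n : Matrix V.G W.G L, V.E * n = n → n * W.E = n → n * W.D = V.D * n →
      ∃ (m : Matrix V.G W.G L) (c : L), V.E * m = m ∧ m * W.E = m ∧ c ∈ C ∧
        n = w.map (fun x => c * x) + m * W.D + V.D * m) :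
    Acyc (coneU V W w h1 h2 h3) W := by
  have h4 : w * W.D = V.D * w := by
    rw [← matNeg hL (V.D * w)]
    exact eq_neg_of_add_eq_zero_right h3
  intro n
  obtain ⟨n1, n2, rfl⟩ : ∃ n1 n2, n = Matrix.fromRows n1 n2 :=
    ⟨n.toRows₁, n.toRows₂, (Matrix.fromRows_toRows n).symm⟩
  rw [coneU_D, coneU_E, Matrix.fromBlocks_mul_fromRows, Matrix.fromBlocks_mul_fromRows,
    Matrix.fromRows_mul, Matrix.fromRows_mul]
  simp only [Matrix.zero_mul, add_zero, zero_add, Matrix.fromRows_inj.eq_iff]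
  rintro ⟨ha1, ha2⟩ ⟨hb1, hb2⟩ ⟨hc1, hc2⟩
  obtain ⟨m2, c, hm1, hm2, hcC, hm3⟩ := hW n2 ha2 hb2 hc2
  have hcc := hC c hcC
  -- the scalar matrix
  have h5 : ∀ c : L, (∀ x, c * x = x * c) →
      w * Matrix.diagonal (fun g => c * e (W.t g)) = w.map (fun x => c * x) := by
    intro c hcc
    ext g h
    rw [Matrix.mul_diagonal, Matrix.map_apply]
    have := congrFun (congrFun h2 g) h
    rw [UDat.E, Matrix.mul_diagonal] at this
    rw [hcc, ← mul_assoc, this, hcc]
  have h6 : w.map (fun x => c * x) = (n1 + w * m2) * W.D + V.D * (n1 + w * m2) := by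
    rw [Matrix.add_mul, hc1, hm3, Matrix.mul_add, Matrix.mul_add, Matrix.mul_add, h5 c hcc,
      ← Matrix.mul_assoc w W.D, h4, ← Matrix.mul_assoc, ← Matrix.mul_assoc]
    have h7 := matTwo hL (w * m2 * W.D)
    have h8 := matTwo hL (V.D * n1)
    have h9 := matTwo hL (V.D * w * m2)
    calc w.map (fun x => c * x) = w.map (fun x => c * x) + (w * m2 * W.D + w * m2 * W.D) +
          (V.D * n1 + V.D * n1) + (V.D * w * m2 + V.D * w * m2) := by
            rw [h7, h8, h9, add_zero, add_zero, add_zero]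
      _ = _ := by abel
  have hE1 : V.E * (n1 + w * m2) = n1 + w * m2 := by
    rw [Matrix.mul_add, ha1, ← Matrix.mul_assoc, h1]
  have hE2 : (n1 + w * m2) * W.E = n1 + w * m2 := by
    rw [Matrix.add_mul, hb1, Matrix.mul_assoc, hm2]
  have h7 := hw c _ hcC hE1 hE2 h6
  rw [h7, zero_add] at hm3
  have h8 : w.map (fun x => c * x) = 0 := by
    rw [← h5 c hcc, h7, Matrix.mul_zero]
  rw [h8] at h6
  obtain ⟨m1, c', hm4, hm5, hcC', hm6⟩ := hV (n1 + w * m2) hE1 hE2 (by
    rw [← matNeg hL (V.D * (n1 + w * m2))]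
    exact eq_neg_of_add_eq_zero_left h6.symm)
  have hcc' := hC c' hcC'
  have h9 : Matrix.diagonal (fun g => c' * e (W.t g)) * W.D = W.D.map (fun x => c' * x) := by
    ext g h
    rw [Matrix.diagonal_mul, Matrix.map_apply, mul_assoc]
    congr 1
    exact W.d_left g h
  have h10 : W.D * Matrix.diagonal (fun g => c' * e (W.t g)) = W.D.map (fun x => c' * x) := by
    ext g h
    rw [Matrix.mul_diagonal, Matrix.map_apply, hcc', ← mul_assoc, hcc']
    congr 1
    exact W.d_right g h
  have hC1 : W.E * Matrix.diagonal (fun g => c' * e (W.t g)) =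
      Matrix.diagonal (fun g => c' * e (W.t g)) := by
    rw [UDat.E, Matrix.diagonal_mul_diagonal]
    congr 1
    funext g
    show e (W.t g) * (c' * e (W.t g)) = c' * e (W.t g)
    rw [hcc', ← mul_assoc, he]
  have hC2 : Matrix.diagonal (fun g => c' * e (W.t g)) * W.E =
      Matrix.diagonal (fun g => c' * e (W.t g)) := by
    rw [UDat.E, Matrix.diagonal_mul_diagonal]
    congr 1
    funext g
    show (c' * e (W.t g)) * e (W.t g) = c' * e (W.t g)
    rw [mul_assoc, he]
  refine ⟨Matrix.fromRows m1 (m2 + Matrix.diagonal (fun g => c' * e (W.t g))), ?_⟩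
  rw [Matrix.fromBlocks_mul_fromRows, Matrix.fromBlocks_mul_fromRows, Matrix.fromRows_mul,
    Matrix.fromRows_mul]
  simp only [Matrix.zero_mul, add_zero, zero_add, Matrix.fromRows_inj.eq_iff]
  refine ⟨⟨hm4, ?_⟩, ⟨hm5, ?_⟩, ?_⟩
  · rw [Matrix.mul_add, hm1, hC1]
  · rw [Matrix.add_mul, hm2, hC2]
  have h11 : n1 = m1 * W.D + (V.D * m1 + w * (m2 + Matrix.diagonal (fun g => c' * e (W.t g)))) := by
    rw [Matrix.mul_add, h5 c' hcc']
    have h12 := matTwo hL (w * m2)
    calc n1 = n1 + (w * m2 + w * m2) := by rw [h12, add_zero]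
      _ = (n1 + w * m2) + w * m2 := by abel
      _ = (w.map (fun x => c' * x) + m1 * W.D + V.D * m1) + w * m2 := by rw [hm6]
      _ = _ := by abel
  have h12 : n2 = (m2 + Matrix.diagonal (fun g => c' * e (W.t g))) * W.D +
      W.D * (m2 + Matrix.diagonal (fun g => c' * e (W.t g))) := by
    rw [Matrix.add_mul, Matrix.mul_add, h9, h10, hm3]
    have h13 := matTwo hL (W.D.map (fun x => c' * x))
    calc m2 * W.D + W.D * m2 = m2 * W.D + W.D * m2 +
        (W.D.map (fun x => c' * x) + W.D.map (fun x => c' * x)) := by rw [h13, add_zero]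
      _ = _ := by abel
  ext (g | g) h
  · exact congrFun (congrFun h11 g) h
  · exact congrFun (congrFun h12 g) h

end Pool.Agent.helper17.Tilt
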