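import Pool.Agent.helper17.Tilt.Mat

/-!
Direct sums of complexes.
-/

set_option autoImplicit false
universe u v w
open CategoryTheory

namespace Pool.Agent.helper17.Tilt
open Gam

variable {L : Type u} [Ring L] {e : Fin 3 → L}

variable {ι : Type} [Fintype ι] [DecidableEq ι]

/-- differential of the direct sum -/
def sigD (U : ι → Dat e) (x y : (v : ι) × (U v).G) : L :=
  if h : x.1 = y.1 then (U y.1).d (h ▸ x.2) y.2 else 0

omit [Fintype ι] in
theorem sigD_same (U : ι → Dat e) (v : ι) (g g' : (U v).G) :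
    sigD U ⟨v, g⟩ ⟨v, g'⟩ = (U v).d g g' := by
  simp [sigD]

omit [Fintype ι] in
theorem sigD_ne (U : ι → Dat e) {v v' : ι} (h : v ≠ v') (g : (U v).G) (g' : (U v').G) :
    sigD U ⟨v, g⟩ ⟨v', g'⟩ = 0 := by
  simp [sigD, h]

theorem sum_sigD_left (U : ι → Dat e) (F : ((v : ι) × (U v).G) → L) (v : ι) (g : (U v).G) :
    ∑ x, sigD U ⟨v, g⟩ x * F x = ∑ g', (U v).d g g' * F ⟨v, g'⟩ := by
  rw [Fintype.sum_sigma, Finset.sum_eq_single v]
  · exact Finset.sum_congr rfl fun g' _ => by rw [sigD_same]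
  · intro v' _ hne
    exact Finset.sum_eq_zero fun g' _ => by rw [sigD_ne U hne.symm, zero_mul]
  · simp

theorem sum_sigD_right (U : ι → Dat e) (F : ((v : ι) × (U v).G) → L) (v : ι) (g : (U v).G) :
    ∑ x, F x * sigD U x ⟨v, g⟩ = ∑ g', F ⟨v, g'⟩ * (U v).d g' g := by
  rw [Fintype.sum_sigma, Finset.sum_eq_single v]
  · exact Finset.sum_congr rfl fun g' _ => by rw [sigD_same]
  · intro v' _ hne
    exact Finset.sum_eq_zero fun g' _ => by rw [sigD_ne U hne, mul_zero]
  · simp

/-- direct sum -/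
abbrev sig (U : ι → Dat e) : Dat e where
  G := (v : ι) × (U v).G
  t := fun x => (U x.1).t x.2
  p := fun x => (U x.1).p x.2
  d := sigD U
  d_left := by
    rintro ⟨v, g⟩ ⟨v', g'⟩
    by_cases h : v = v'
    · subst h
      rw [sigD_same]
      exact (U v).d_left g g'
    · rw [sigD_ne U h, mul_zero]
  d_right := by
    rintro ⟨v, g⟩ ⟨v', g'⟩
    by_cases h : v = v'
    · subst h
      rw [sigD_same]
      exact (U v).d_right g g'
    · rw [sigD_ne U h, zero_mul]
  d_pos := by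
    rintro ⟨v, g⟩ ⟨v', g'⟩ hd
    by_cases h : v = v'
    · subst h
      rw [sigD_same] at hd
      exact (U v).d_pos g g' hd
    · exact absurd (sigD_ne U h g g') hd
  d_sq := by
    rintro ⟨v, g⟩ ⟨v', g'⟩
    rw [sum_sigD_left]
    by_cases h : v = v'
    · subst h
      simp only [sigD_same]
      exact (U v).d_sq g g'
    · exact Finset.sum_eq_zero fun x _ => by rw [sigD_ne U h, mul_zero]

variable {κ : Type} [Fintype κ] [DecidableEq κ]

theorem ExtM.sig {U : ι → Dat e} {W : κ → Dat e} {i : ℕ} (h : ∀ v v', ExtM (U v) (W v') i) :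
    ExtM (sig U) (sig W) i := by
  intro n h1 h2 h3 h4
  have h1' : ∀ v g x, e ((U v).t g) * n ⟨v, g⟩ x = n ⟨v, g⟩ x := fun v g x => by
    have := congrFun (congrFun h1 ⟨v, g⟩) x
    rwa [UDat.E, Matrix.diagonal_mul] at this
  have h2' : ∀ x v g, n x ⟨v, g⟩ * e ((W v).t g) = n x ⟨v, g⟩ := fun x v g => by
    have := congrFun (congrFun h2 x) ⟨v, g⟩
    rwa [UDat.E, Matrix.mul_diagonal] at this
  have h3' : ∀ v g v' g', ∑ h, n ⟨v, g⟩ ⟨v', h⟩ * (W v').d h g' =
      ∑ h, (U v).d g h * n ⟨v, h⟩ ⟨v', g'⟩ := fun v g v' g' => by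
    rw [← sum_sigD_right W (fun x => n ⟨v, g⟩ x) v' g', ← sum_sigD_left U (fun x => n x ⟨v', g'⟩) v g]
    exact congrFun (congrFun h3 ⟨v, g⟩) ⟨v', g'⟩
  have key : ∀ v v', ∃ m : Matrix (U v).G (W v').G L, (U v).toU.E * m = m ∧ m * (W v').toU.E = m ∧
      Matrix.of (fun g h => n ⟨v, g⟩ ⟨v', h⟩) = m * (W v').toU.D + (U v).toU.D * m ∧
      (∀ g h, m g h ≠ 0 → (W v').p h = (U v).p g + i) := by
    intro v v'
    refine h v v' _ ?_ ?_ ?_ ?_
    · ext g g'
      rw [UDat.E, Matrix.diagonal_mul]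
      exact h1' v g ⟨v', g'⟩
    · ext g g'
      rw [UDat.E, Matrix.mul_diagonal]
      exact h2' ⟨v, g⟩ v' g'
    · ext g g'
      exact h3' v g v' g'
    · intro g g' hne
      exact h4 ⟨v, g⟩ ⟨v', g'⟩ hne
  choose m hm1 hm2 hm3 hm4 using key
  refine ⟨Matrix.of fun x y => m x.1 y.1 x.2 y.2, ?_, ?_, ?_, ?_⟩
  · ext ⟨v, g⟩ ⟨v', g'⟩
    have := congrFun (congrFun (hm1 v v') g) g'
    rw [UDat.E, Matrix.diagonal_mul] at this ⊢
    exact this
  · ext ⟨v, g⟩ ⟨v', g'⟩
    have := congrFun (congrFun (hm2 v v') g) g'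
    rw [UDat.E, Matrix.mul_diagonal] at this ⊢
    exact this
  · ext ⟨v, g⟩ ⟨v', g'⟩
    have := congrFun (congrFun (hm3 v v') g) g'
    rw [Matrix.add_apply, Matrix.mul_apply, Matrix.mul_apply] at this ⊢
    have h5 := sum_sigD_right W (fun x => m v x.1 g x.2) v' g'
    have h6 := sum_sigD_left U (fun x => m x.1 v' x.2 g') v g
    simp only [Matrix.of_apply, UDat.D] at this ⊢
    rw [h5, h6]
    exact this
  · rintro ⟨v, g⟩ ⟨v', g'⟩ hne
    exact hm4 v v' g g' hne

theorem Acyc.sig {V : UDat e} {W : κ → Dat e} (h : ∀ v', Acyc V (W v').toU) :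
    Acyc V (sig W).toU := by
  intro n h1 h2 h3
  have h1' : ∀ g x, e (V.t g) * n g x = n g x := fun g x => by
    have := congrFun (congrFun h1 g) x
    rwa [UDat.E, Matrix.diagonal_mul] at this
  have h2' : ∀ x v g, n x ⟨v, g⟩ * e ((W v).t g) = n x ⟨v, g⟩ := fun x v g => by
    have := congrFun (congrFun h2 x) ⟨v, g⟩
    rwa [UDat.E, Matrix.mul_diagonal] at this
  have h3' : ∀ g v' g', ∑ h, n g ⟨v', h⟩ * (W v').d h g' =
      ∑ h, V.d g h * n h ⟨v', g'⟩ := fun g v' g' => by
    rw [← sum_sigD_right W (fun x => n g x) v' g']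
    exact congrFun (congrFun h3 g) ⟨v', g'⟩
  have key : ∀ v', ∃ m : Matrix V.G (W v').G L, V.E * m = m ∧ m * (W v').toU.E = m ∧
      Matrix.of (fun g h => n g ⟨v', h⟩) = m * (W v').toU.D + V.D * m := by
    intro v'
    refine h v' _ ?_ ?_ ?_
    · ext g g'
      rw [UDat.E, Matrix.diagonal_mul]
      exact h1' g ⟨v', g'⟩
    · ext g g'
      rw [UDat.E, Matrix.mul_diagonal]
      exact h2' g v' g'
    · ext g g'
      exact h3' g v' g'
  choose m hm1 hm2 hm3 using key
  refine ⟨Matrix.of fun x y => m y.1 x y.2, ?_, ?_, ?_⟩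
  · ext g ⟨v', g'⟩
    have := congrFun (congrFun (hm1 v') g) g'
    rw [UDat.E, Matrix.diagonal_mul] at this ⊢
    exact this
  · ext g ⟨v', g'⟩
    have := congrFun (congrFun (hm2 v') g) g'
    rw [UDat.E, Matrix.mul_diagonal] at this ⊢
    exact this
  · ext g ⟨v', g'⟩
    have := congrFun (congrFun (hm3 v') g) g'
    rw [Matrix.add_apply, Matrix.mul_apply, Matrix.mul_apply] at this ⊢
    have h5 := sum_sigD_right W (fun x => m x.1 g x.2) v' g'
    simp only [Matrix.of_apply, UDat.D] at this ⊢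
    rw [h5]
    exact this

/-- from matrices to modules -/
theorem ExtV.of_ExtM {U W : Dat e} {i : ℕ} (h : ExtM U W i) (hW : ∀ g, W.p g ≤ 6) :
    ExtV U (MU W) i := by
  intro n h1 h2 h3
  have h1' : ∀ g x, e (U.t g) * n g x = n g x := fun g x => by
    rw [← MU.diag_smul, h1]
  have h2' : ∀ g x, n g x ≠ 0 → W.p x = U.p g + i + 1 := fun g x hne => by
    by_contra hc
    apply hne
    rw [← h2 g, MU.f_smul, if_neg hc]
  have h3' : ∀ g x, ∑ h', n g h' * W.d h' x = ∑ g', U.d g g' * n g' x := fun g x => by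
    have := MU.s_smul (n g) x (hW x)
    rw [h3, MU.sum_apply] at this
    simp only [MU.diag_smul] at this
    rw [this]
    rfl
  obtain ⟨m, hm1, hm2, hm3, hm4⟩ := h (Matrix.of fun g x => n g x) (by
    ext g g'
    rw [UDat.E, Matrix.diagonal_mul]
    exact h1' g g') (by
    ext g g'
    rw [UDat.E, Matrix.mul_diagonal]
    exact MU.mul_e (n g) g') (by
    ext g g'
    exact h3' g g') h2'
  have hm1' : ∀ g x, e (U.t g) * m g x = m g x := fun g x => by
    have := congrFun (congrFun hm1 g) x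
    rwa [UDat.E, Matrix.diagonal_mul] at this
  have hm2' : ∀ g x, m g x * e (W.t x) = m g x := fun g x => by
    have := congrFun (congrFun hm2 g) x
    rwa [UDat.E, Matrix.mul_diagonal] at this
  refine ⟨fun g => MU.mk' (m g) (hm2' g) (fun x hx => absurd hx (not_lt.2 (hW x))), ?_, ?_, ?_⟩
  · intro g
    apply MU.ext'
    intro x
    rw [MU.diag_smul]
    exact hm1' g x
  · intro g
    apply MU.ext'
    intro x
    rw [MU.f_smul]
    split_ifs with hp
    · rfl
    · by_contra hc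
      exact hp (hm4 g x (Ne.symm hc))
  · intro g
    apply MU.ext'
    intro x
    rw [MU.add_apply, MU.s_smul _ _ (hW x), MU.sum_apply]
    simp only [MU.diag_smul]
    exact congrFun (congrFun hm3 g) x

theorem HVz.of_acyc (hL : ∀ x : L, -x = x) {V : UDat e} {W : Dat e} (h : Acyc V W.toU)
    (hW : ∀ g, W.p g ≤ 6) : HVz V (MU W) := by
  intro n h1 h3
  have h1' : ∀ g x, e (V.t g) * n g x = n g x := fun g x => by
    rw [← MU.diag_smul, h1]
  have h3' : ∀ g x, ∑ h', n g h' * W.d h' x = ∑ g', V.d g g' * n g' x := fun g x => by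
    have h4 : del V n g x = 0 := by rw [h3]; rfl
    rw [del, MU.add_apply, MU.s_smul _ _ (hW x), MU.sum_apply] at h4
    simp only [MU.diag_smul] at h4
    rw [← hL (∑ g', V.d g g' * n g' x)]
    exact eq_neg_of_add_eq_zero_left h4
  obtain ⟨m, hm1, hm2, hm3⟩ := h (Matrix.of fun g x => n g x) (by
    ext g g'
    rw [UDat.E, Matrix.diagonal_mul]
    exact h1' g g') (by
    ext g g'
    rw [UDat.E, Matrix.mul_diagonal]
    exact MU.mul_e (n g) g') (by
    ext g g'
    exact h3' g g')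
  have hm1' : ∀ g x, e (V.t g) * m g x = m g x := fun g x => by
    have := congrFun (congrFun hm1 g) x
    rwa [UDat.E, Matrix.diagonal_mul] at this
  have hm2' : ∀ g x, m g x * e (W.t x) = m g x := fun g x => by
    have := congrFun (congrFun hm2 g) x
    rwa [UDat.E, Matrix.mul_diagonal] at this
  refine ⟨fun g => MU.mk' (m g) (hm2' g) (fun x hx => absurd hx (not_lt.2 (hW x))), ?_, ?_⟩
  · intro g
    apply MU.ext'
    intro x
    rw [MU.diag_smul]
    exact hm1' g x
  · intro g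
    apply MU.ext'
    intro x
    rw [del, MU.add_apply, MU.s_smul _ _ (hW x), MU.sum_apply]
    simp only [MU.diag_smul]
    exact congrFun (congrFun hm3 g) x

end Pool.Agent.helper17.Tilt
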